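import Mathlib

/-!
# Calculus of functions of two variables `(t, θ)`
-/

open Real Set
open scoped ContDiff

namespace GS

/-- Partial derivative in the first variable. -/
noncomputable def dt (f : ℝ → ℝ → ℝ) (t θ : ℝ) : ℝ := deriv (fun s => f s θ) t

/-- Partial derivative in the second variable. -/
noncomputable def dh (f : ℝ → ℝ → ℝ) (t θ : ℝ) : ℝ := deriv (fun s => f t s) θ

/-- `f` is smooth on `(0, π) × S`. -/
def Sm (S : Set ℝ) (f : ℝ → ℝ → ℝ) : Prop :=
  ContDiffOn ℝ ∞ (Function.uncurry f) (Ioo 0 π ×ˢ S)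

/-- `f` is continuously differentiable on `(0, π) × S`. -/
def C1 (S : Set ℝ) (f : ℝ → ℝ → ℝ) : Prop :=
  ContDiffOn ℝ 1 (Function.uncurry f) (Ioo 0 π ×ˢ S)

end GS
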