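import Pool.Agent.Lib.MP_898b37_mp.GS.Calc

open Real Set
open scoped ContDiff

namespace GS

private theorem CalcA_fderiv {S : Set ℝ} (hS : IsOpen S) {f : ℝ → ℝ → ℝ} (hf : C1 S f) {t θ : ℝ}
    (ht : t ∈ Ioo 0 π) (hθ : θ ∈ S) :
    ∃ L : ℝ × ℝ →L[ℝ] ℝ, HasFDerivAt (Function.uncurry f) L (t, θ) ∧
      (∀ a b : ℝ, L (a, b) = a * dt f t θ + b * dh f t θ) ∧
      HasDerivAt (fun s => f s θ) (dt f t θ) t ∧ HasDerivAt (fun s => f t s) (dh f t θ) θ := by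
  have hopen : IsOpen (Ioo (0:ℝ) π ×ˢ S) := isOpen_Ioo.prod hS
  have hmem : ((t, θ) : ℝ × ℝ) ∈ Ioo (0:ℝ) π ×ˢ S := ⟨ht, hθ⟩
  have hc : ContDiffAt ℝ 1 (Function.uncurry f) (t, θ) := ContDiffOn.contDiffAt hf (hopen.mem_nhds hmem)
  have hd : DifferentiableAt ℝ (Function.uncurry f) (t, θ) := hc.differentiableAt one_ne_zero
  have hL := hd.hasFDerivAt
  set L := fderiv ℝ (Function.uncurry f) (t, θ)
  have h1 : HasDerivAt (fun s : ℝ => ((s, θ) : ℝ × ℝ)) ((1, 0) : ℝ × ℝ) t :=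
    (hasDerivAt_id t).prodMk (hasDerivAt_const t θ)
  have h2 : HasDerivAt (fun s : ℝ => ((t, s) : ℝ × ℝ)) ((0, 1) : ℝ × ℝ) θ :=
    (hasDerivAt_const θ t).prodMk (hasDerivAt_id θ)
  have h3' := HasFDerivAt.comp_hasDerivAt (f := fun s : ℝ => ((s, θ) : ℝ × ℝ)) t hL h1
  have h4' := HasFDerivAt.comp_hasDerivAt (f := fun s : ℝ => ((t, s) : ℝ × ℝ)) θ hL h2
  have h3 : HasDerivAt (fun s => f s θ) (L (1, 0)) t := h3'
  have h4 : HasDerivAt (fun s => f t s) (L (0, 1)) θ := h4'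
  have h5 : dt f t θ = L (1, 0) := h3.deriv
  have h6 : dh f t θ = L (0, 1) := h4.deriv
  refine ⟨L, hL, fun a b => ?_, ?_, ?_⟩
  · have h7 : ((a, b) : ℝ × ℝ) = a • ((1, 0) : ℝ × ℝ) + b • ((0, 1) : ℝ × ℝ) := by
      simp
    rw [h7, map_add, map_smul, map_smul, h5, h6]
    simp
  · rw [h5]
    exact h3
  · rw [h6]
    exact h4

/-- More general form: derivative along a differentiable curve. -/
theorem C1.curve {S : Set ℝ} (hS : IsOpen S) {f : ℝ → ℝ → ℝ} (hf : C1 S f) {x y : ℝ → ℝ}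
    {x' y' s₀ : ℝ} (hx : HasDerivAt x x' s₀) (hy : HasDerivAt y y' s₀)
    (ht : x s₀ ∈ Ioo 0 π) (hθ : y s₀ ∈ S) :
    HasDerivAt (fun s => f (x s) (y s)) (x' * dt f (x s₀) (y s₀) + y' * dh f (x s₀) (y s₀)) s₀ := by
  obtain ⟨L, hL, h1, -, -⟩ := CalcA_fderiv hS hf ht hθ
  rw [← h1]
  have h2 : HasDerivAt (fun s : ℝ => ((x s, y s) : ℝ × ℝ)) ((x', y') : ℝ × ℝ) s₀ := hx.prodMk hy
  have h3 := HasFDerivAt.comp_hasDerivAt (f := fun s : ℝ => ((x s, y s) : ℝ × ℝ)) s₀ hL h2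
  exact h3

/-- One-sided form of the same statement. -/
theorem C1.curveWithin {S : Set ℝ} (hS : IsOpen S) {f : ℝ → ℝ → ℝ} (hf : C1 S f) {x y : ℝ → ℝ}
    {x' y' s₀ : ℝ} {I : Set ℝ} (hx : HasDerivWithinAt x x' I s₀) (hy : HasDerivWithinAt y y' I s₀)
    (ht : x s₀ ∈ Ioo 0 π) (hθ : y s₀ ∈ S) :
    HasDerivWithinAt (fun s => f (x s) (y s))
      (x' * dt f (x s₀) (y s₀) + y' * dh f (x s₀) (y s₀)) I s₀ := by
  obtain ⟨L, hL, h1, -, -⟩ := CalcA_fderiv hS hf ht hθ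
  rw [← h1]
  have h2 : HasDerivWithinAt (fun s : ℝ => ((x s, y s) : ℝ × ℝ)) ((x', y') : ℝ × ℝ) I s₀ :=
    hx.prodMk hy
  have h3 := HasFDerivAt.comp_hasDerivWithinAt (f := fun s : ℝ => ((x s, y s) : ℝ × ℝ)) s₀ hL h2
  exact h3

/-- TASK CA1. Derivatives of a `C¹` function of two variables along a straight line: if `f` is `C1` on the
open set `(0, π) × S` then at an interior point the derivative of `s ↦ f (t + c s) (θ + d s)` at
`s = 0` is `c f_t + d f_θ`.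
Proof: `uncurry f` is differentiable at `(t, θ)` (`ContDiffOn.contDiffAt` on an open set,
`ContDiffAt.differentiableAt`), with derivative `L`; compose with the affine line; `L (1, 0)` is
`dt f t θ` and `L (0, 1)` is `dh f t θ` by the same composition and `HasDerivAt.deriv`. -/
theorem C1.line {S : Set ℝ} (hS : IsOpen S) {f : ℝ → ℝ → ℝ} (hf : C1 S f) {t θ : ℝ}
    (ht : t ∈ Ioo 0 π) (hθ : θ ∈ S) (c d : ℝ) :
    HasDerivAt (fun s => f (t + c * s) (θ + d * s)) (c * dt f t θ + d * dh f t θ) 0 := by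
  have hx : HasDerivAt (fun s : ℝ => t + c * s) c 0 := by
    simpa using ((hasDerivAt_id (0:ℝ)).const_mul c).const_add t
  have hy : HasDerivAt (fun s : ℝ => θ + d * s) d 0 := by
    simpa using ((hasDerivAt_id (0:ℝ)).const_mul d).const_add θ
  have h1 := C1.curve hS hf hx hy (by simpa using ht) (by simpa using hθ)
  simpa using h1

theorem C1.hasDt {S : Set ℝ} (hS : IsOpen S) {f : ℝ → ℝ → ℝ} (hf : C1 S f) {t θ : ℝ}
    (ht : t ∈ Ioo 0 π) (hθ : θ ∈ S) : HasDerivAt (fun s => f s θ) (dt f t θ) t := by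
  obtain ⟨-, -, -, h, -⟩ := CalcA_fderiv hS hf ht hθ
  exact h

theorem C1.hasDh {S : Set ℝ} (hS : IsOpen S) {f : ℝ → ℝ → ℝ} (hf : C1 S f) {t θ : ℝ}
    (ht : t ∈ Ioo 0 π) (hθ : θ ∈ S) : HasDerivAt (fun s => f t s) (dh f t θ) θ := by
  obtain ⟨-, -, -, -, h⟩ := CalcA_fderiv hS hf ht hθ
  exact h

end GS
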