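import Pool.Agent.Lib.MP_898b37_mp.GS.Calc

open Real Set
open scoped ContDiff

namespace GS

/-- TASK CB. A smooth function is `C1`. -/
theorem Sm.c1 {S : Set ℝ} {f : ℝ → ℝ → ℝ} (hf : Sm S f) : C1 S f :=
  ContDiffOn.of_le hf (by exact_mod_cast le_top)

theorem Sm.mono {S S' : Set ℝ} (h : S' ⊆ S) {f : ℝ → ℝ → ℝ} (hf : Sm S f) : Sm S' f :=
  ContDiffOn.mono hf (Set.prod_mono_right h)

private theorem CalcB_dt {F : ℝ × ℝ → ℝ} {t θ : ℝ} (h : DifferentiableAt ℝ F (t, θ)) :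
    deriv (fun s => F (s, θ)) t = fderiv ℝ F (t, θ) (1, 0) := by
  have h1 : HasDerivAt (fun s : ℝ => ((s, θ) : ℝ × ℝ)) ((1, 0) : ℝ × ℝ) t :=
    (hasDerivAt_id t).prodMk (hasDerivAt_const t θ)
  exact (HasFDerivAt.comp_hasDerivAt t h.hasFDerivAt h1).deriv

private theorem CalcB_dh {F : ℝ × ℝ → ℝ} {t θ : ℝ} (h : DifferentiableAt ℝ F (t, θ)) :
    deriv (fun s => F (t, s)) θ = fderiv ℝ F (t, θ) (0, 1) := by
  have h1 : HasDerivAt (fun s : ℝ => ((t, s) : ℝ × ℝ)) ((0, 1) : ℝ × ℝ) θ :=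
    (hasDerivAt_const θ t).prodMk (hasDerivAt_id θ)
  exact (HasFDerivAt.comp_hasDerivAt θ h.hasFDerivAt h1).deriv

private theorem CalcB_open {S : Set ℝ} (hS : IsOpen S) : IsOpen (Ioo 0 π ×ˢ S) :=
  isOpen_Ioo.prod hS

private theorem CalcB_diff {S : Set ℝ} (hS : IsOpen S) {f : ℝ → ℝ → ℝ} (hf : Sm S f)
    {z : ℝ × ℝ} (hz : z ∈ Ioo 0 π ×ˢ S) : DifferentiableAt ℝ (Function.uncurry f) z :=
  (ContDiffOn.contDiffAt hf ((CalcB_open hS).mem_nhds hz)).differentiableAt (by simp)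

private theorem CalcB_fd {S : Set ℝ} (hS : IsOpen S) {f : ℝ → ℝ → ℝ} (hf : Sm S f) :
    ContDiffOn ℝ ∞ (fderiv ℝ (Function.uncurry f)) (Ioo 0 π ×ˢ S) :=
  ContDiffOn.fderiv_of_isOpen hf (CalcB_open hS) (by simp)

private theorem CalcB_eqt {S : Set ℝ} (hS : IsOpen S) {f : ℝ → ℝ → ℝ} (hf : Sm S f)
    {z : ℝ × ℝ} (hz : z ∈ Ioo 0 π ×ˢ S) :
    Function.uncurry (dt f) z = fderiv ℝ (Function.uncurry f) z (1, 0) := by
  obtain ⟨t, θ⟩ := z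
  exact CalcB_dt (CalcB_diff hS hf hz)

private theorem CalcB_eqh {S : Set ℝ} (hS : IsOpen S) {f : ℝ → ℝ → ℝ} (hf : Sm S f)
    {z : ℝ × ℝ} (hz : z ∈ Ioo 0 π ×ˢ S) :
    Function.uncurry (dh f) z = fderiv ℝ (Function.uncurry f) z (0, 1) := by
  obtain ⟨t, θ⟩ := z
  exact CalcB_dh (CalcB_diff hS hf hz)

/-- The partial derivatives of a smooth function are smooth (`S` open). Proof: on the open set
`Ioo 0 π ×ˢ S`, `dt f t θ = fderiv ℝ (uncurry f) (t, θ) (1, 0)`, and `fderiv` of a smooth function is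
smooth (`ContDiffOn.fderiv_of_isOpen`, `contDiffOn_succ_iff_fderiv_of_isOpen`). -/
theorem Sm.dt {S : Set ℝ} (hS : IsOpen S) {f : ℝ → ℝ → ℝ} (hf : Sm S f) : Sm S (dt f) := by
  have h1 : ContDiffOn ℝ ∞ (fun z => fderiv ℝ (Function.uncurry f) z ((1, 0) : ℝ × ℝ))
      (Ioo 0 π ×ˢ S) := (CalcB_fd hS hf).clm_apply contDiffOn_const
  exact h1.congr fun z hz => CalcB_eqt hS hf hz

theorem Sm.dh {S : Set ℝ} (hS : IsOpen S) {f : ℝ → ℝ → ℝ} (hf : Sm S f) : Sm S (dh f) := by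
  have h1 : ContDiffOn ℝ ∞ (fun z => fderiv ℝ (Function.uncurry f) z ((0, 1) : ℝ × ℝ))
      (Ioo 0 π ×ˢ S) := (CalcB_fd hS hf).clm_apply contDiffOn_const
  exact h1.congr fun z hz => CalcB_eqh hS hf hz

private theorem CalcB_second {S : Set ℝ} (hS : IsOpen S) {f : ℝ → ℝ → ℝ} (hf : Sm S f)
    {g : ℝ × ℝ → ℝ} {v : ℝ × ℝ}
    (hg : ∀ z ∈ Ioo 0 π ×ˢ S, g z = fderiv ℝ (Function.uncurry f) z v)
    {z : ℝ × ℝ} (hz : z ∈ Ioo 0 π ×ˢ S) (w : ℝ × ℝ) :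
    fderiv ℝ g z w = fderiv ℝ (fderiv ℝ (Function.uncurry f)) z w v := by
  have hd : DifferentiableAt ℝ (fderiv ℝ (Function.uncurry f)) z :=
    ((CalcB_fd hS hf).contDiffAt ((CalcB_open hS).mem_nhds hz)).differentiableAt (by simp)
  have h1 : g =ᶠ[nhds z] fun z => fderiv ℝ (Function.uncurry f) z v := by
    filter_upwards [(CalcB_open hS).mem_nhds hz] with y hy
    exact hg y hy
  have h2 : HasFDerivAt (fun z => fderiv ℝ (Function.uncurry f) z v)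
      ((fderiv ℝ (fderiv ℝ (Function.uncurry f)) z).flip v) z := by
    have h3 := hd.hasFDerivAt.clm_apply (hasFDerivAt_const v z)
    refine h3.congr_fderiv ?_
    ext <;> simp
  rw [h1.fderiv_eq, h2.fderiv]
  rfl

/-- Symmetry of the mixed partial derivatives. Proof: both sides are
`fderiv ℝ (fderiv ℝ (uncurry f)) (t, θ)` applied to `(1, 0)`, `(0, 1)` in the two orders;
`ContDiffAt.isSymmSndFDerivAt` (or `second_derivative_symmetric`). -/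
theorem Sm.comm {S : Set ℝ} (hS : IsOpen S) {f : ℝ → ℝ → ℝ} (hf : Sm S f) {t θ : ℝ}
    (ht : t ∈ Ioo 0 π) (hθ : θ ∈ S) : GS.dt (GS.dh f) t θ = GS.dh (GS.dt f) t θ := by
  have hz : ((t, θ) : ℝ × ℝ) ∈ Ioo 0 π ×ˢ S := ⟨ht, hθ⟩
  have e1 : GS.dt (GS.dh f) t θ =
      fderiv ℝ (fderiv ℝ (Function.uncurry f)) (t, θ) (1, 0) (0, 1) := by
    have h1 : GS.dt (GS.dh f) t θ = fderiv ℝ (Function.uncurry (GS.dh f)) (t, θ) (1, 0) :=
      CalcB_dt (CalcB_diff hS (Sm.dh hS hf) hz)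
    rw [h1]
    exact CalcB_second hS hf (fun z hz => CalcB_eqh hS hf hz) hz (1, 0)
  have e2 : GS.dh (GS.dt f) t θ =
      fderiv ℝ (fderiv ℝ (Function.uncurry f)) (t, θ) (0, 1) (1, 0) := by
    have h1 : GS.dh (GS.dt f) t θ = fderiv ℝ (Function.uncurry (GS.dt f)) (t, θ) (0, 1) :=
      CalcB_dh (CalcB_diff hS (Sm.dt hS hf) hz)
    rw [h1]
    exact CalcB_second hS hf (fun z hz => CalcB_eqt hS hf hz) hz (0, 1)
  rw [e1, e2]
  have hs : IsSymmSndFDerivAt ℝ (Function.uncurry f) (t, θ) :=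
    (ContDiffOn.contDiffAt hf ((CalcB_open hS).mem_nhds hz)).isSymmSndFDerivAt (by
      rw [minSmoothness_of_isRCLikeNormedField]
      exact WithTop.coe_le_coe.2 (le_top : (2 : ℕ∞) ≤ ⊤))
  exact hs (1, 0) (0, 1)

end GS
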