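import Pool.Agent.Lib.MP_898b37_mp.GS.Calc

open Real Set
open scoped ContDiff

namespace GS

/-- TASK CC. Algebra of smooth functions (`uncurry` of each function is the corresponding operation
on the uncurried functions; `ContDiffOn.add`, `.mul`, `.exp`, `.log`, `.comp`, ...). -/
theorem Sm.const (S : Set ℝ) (c : ℝ) : Sm S (fun _ _ => c) := by
  show ContDiffOn ℝ ∞ (fun _ : ℝ × ℝ => c) _
  exact contDiffOn_const

theorem Sm.add {S : Set ℝ} {f g : ℝ → ℝ → ℝ} (hf : Sm S f) (hg : Sm S g) :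
    Sm S (fun t θ => f t θ + g t θ) := by
  show ContDiffOn ℝ ∞ (fun z : ℝ × ℝ => Function.uncurry f z + Function.uncurry g z) _
  exact ContDiffOn.add hf hg

theorem Sm.sub {S : Set ℝ} {f g : ℝ → ℝ → ℝ} (hf : Sm S f) (hg : Sm S g) :
    Sm S (fun t θ => f t θ - g t θ) := by
  show ContDiffOn ℝ ∞ (fun z : ℝ × ℝ => Function.uncurry f z - Function.uncurry g z) _
  exact ContDiffOn.sub hf hg

theorem Sm.mul {S : Set ℝ} {f g : ℝ → ℝ → ℝ} (hf : Sm S f) (hg : Sm S g) :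
    Sm S (fun t θ => f t θ * g t θ) := by
  show ContDiffOn ℝ ∞ (fun z : ℝ × ℝ => Function.uncurry f z * Function.uncurry g z) _
  exact ContDiffOn.mul hf hg

theorem Sm.neg {S : Set ℝ} {f : ℝ → ℝ → ℝ} (hf : Sm S f) : Sm S (fun t θ => -f t θ) := by
  show ContDiffOn ℝ ∞ (fun z : ℝ × ℝ => - Function.uncurry f z) _
  exact ContDiffOn.neg hf

theorem Sm.pow {S : Set ℝ} {f : ℝ → ℝ → ℝ} (hf : Sm S f) (n : ℕ) :
    Sm S (fun t θ => f t θ ^ n) := by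
  show ContDiffOn ℝ ∞ (fun z : ℝ × ℝ => Function.uncurry f z ^ n) _
  exact ContDiffOn.pow hf n

theorem Sm.exp {S : Set ℝ} {f : ℝ → ℝ → ℝ} (hf : Sm S f) : Sm S (fun t θ => Real.exp (f t θ)) := by
  show ContDiffOn ℝ ∞ (fun z : ℝ × ℝ => Real.exp (Function.uncurry f z)) _
  exact ContDiffOn.exp hf

theorem Sm.div {S : Set ℝ} {f g : ℝ → ℝ → ℝ} (hf : Sm S f) (hg : Sm S g)
    (h0 : ∀ t ∈ Ioo 0 π, ∀ θ ∈ S, g t θ ≠ 0) : Sm S (fun t θ => f t θ / g t θ) := by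
  show ContDiffOn ℝ ∞ (fun z : ℝ × ℝ => Function.uncurry f z / Function.uncurry g z) _
  exact ContDiffOn.div hf hg (fun z hz => h0 z.1 hz.1 z.2 hz.2)

theorem Sm.log {S : Set ℝ} {f : ℝ → ℝ → ℝ} (hf : Sm S f)
    (h0 : ∀ t ∈ Ioo 0 π, ∀ θ ∈ S, f t θ ≠ 0) : Sm S (fun t θ => Real.log (f t θ)) := by
  show ContDiffOn ℝ ∞ (fun z : ℝ × ℝ => Real.log (Function.uncurry f z)) _
  exact ContDiffOn.log hf (fun z hz => h0 z.1 hz.1 z.2 hz.2)

theorem Sm.sqrt {S : Set ℝ} {f : ℝ → ℝ → ℝ} (hf : Sm S f)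
    (h0 : ∀ t ∈ Ioo 0 π, ∀ θ ∈ S, f t θ ≠ 0) : Sm S (fun t θ => √(f t θ)) := by
  show ContDiffOn ℝ ∞ (fun z : ℝ × ℝ => √(Function.uncurry f z)) _
  exact ContDiffOn.sqrt hf (fun z hz => h0 z.1 hz.1 z.2 hz.2)

/-- Functions of the first variable only. -/
theorem Sm.fst (S : Set ℝ) {g : ℝ → ℝ} (hg : ContDiff ℝ ∞ g) : Sm S (fun t _ => g t) := by
  show ContDiffOn ℝ ∞ (fun z : ℝ × ℝ => g z.1) _
  exact (hg.comp contDiff_fst).contDiffOn

/-- Functions of the second variable only. -/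
theorem Sm.snd (S : Set ℝ) {g : ℝ → ℝ} (hg : ContDiff ℝ ∞ g) : Sm S (fun _ θ => g θ) := by
  show ContDiffOn ℝ ∞ (fun z : ℝ × ℝ => g z.2) _
  exact (hg.comp contDiff_snd).contDiffOn

/-- Substitution `ζ = cos θ`. -/
theorem Sm.cos {f : ℝ → ℝ → ℝ} (hf : Sm univ f) : Sm univ (fun t θ => f t (Real.cos θ)) := by
  show ContDiffOn ℝ ∞ (fun z : ℝ × ℝ => Function.uncurry f (z.1, Real.cos z.2)) _
  have h1 : ContDiff ℝ ∞ (fun z : ℝ × ℝ => ((z.1, Real.cos z.2) : ℝ × ℝ)) :=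
    contDiff_fst.prodMk (Real.contDiff_cos.comp contDiff_snd)
  exact ContDiffOn.comp hf h1.contDiffOn (fun z hz => ⟨hz.1, mem_univ _⟩)

theorem Sm.congr {S : Set ℝ} {f g : ℝ → ℝ → ℝ} (hf : Sm S f)
    (h : ∀ t ∈ Ioo 0 π, ∀ θ ∈ S, g t θ = f t θ) : Sm S g := by
  exact ContDiffOn.congr hf (fun z hz => h z.1 hz.1 z.2 hz.2)

/-- Derivatives of `f t (cos θ)`. -/
theorem Sm.dt_cos {f : ℝ → ℝ → ℝ} (t θ : ℝ) :
    GS.dt (fun t θ => f t (Real.cos θ)) t θ = GS.dt f t (Real.cos θ) := by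
  rfl

theorem Sm.dh_cos {f : ℝ → ℝ → ℝ} (hf : Sm univ f) {t : ℝ} (ht : t ∈ Ioo 0 π) (θ : ℝ) :
    GS.dh (fun t θ => f t (Real.cos θ)) t θ = -Real.sin θ * GS.dh f t (Real.cos θ) := by
  have hd : DifferentiableAt ℝ (fun s => f t s) (Real.cos θ) := by
    have h1 : DifferentiableAt ℝ (Function.uncurry f) (t, Real.cos θ) := by
      apply (hf.contDiffAt _).differentiableAt (by simp)
      exact prod_mem_nhds (Ioo_mem_nhds ht.1 ht.2) Filter.univ_mem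
    have h3 : DifferentiableAt ℝ (fun s : ℝ => ((t, s) : ℝ × ℝ)) (Real.cos θ) :=
      (differentiableAt_const t).prodMk differentiableAt_id
    exact DifferentiableAt.comp (g := Function.uncurry f) (f := fun s : ℝ => ((t, s) : ℝ × ℝ)) (Real.cos θ) h1 h3
  have h2 := HasDerivAt.comp θ hd.hasDerivAt (Real.hasDerivAt_cos θ)
  show deriv (fun s => f t (Real.cos s)) θ = -Real.sin θ * deriv (fun s => f t s) (Real.cos θ)
  rw [mul_comm]
  exact h2.deriv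

end GS
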