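import Pool.Agent.Lib.MP_898b37_mp.GS.Geo

/-!
# The class of `U(1) × U(1)`-symmetric (Gowdy) electrovacuum spacetimes on `(0, π) × S³`

`S³ = {(z₁, z₂) : |z₁|² + |z₂|² = 1}`, `z₁ = sin(θ/2) e^{ix}`, `z₂ = cos(θ/2) e^{iy}`, with
`θ ∈ [0, π]` and `x, y` of period `2π`; `ζ = cos θ = |z₂|² - |z₁|²`.  The group `U(1) × U(1)` acts by
translations of `x` and `y`, the axes are `θ = 0` (where `∂_x` vanishes) and `θ = π` (where `∂_y`
vanishes).
-/

open Real Set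
open scoped ContDiff

namespace GS

/-- The data of a `U(1) × U(1)`-symmetric electromagnetic spacetime on `(0, π) × S³` in the area time
`t`: smooth functions `U, W, a, α, β` of `(t, ζ)`, `ζ = cos θ`, with the two conditions that make the
metric smooth at the two axes `ζ = 1` and `ζ = -1`. The functions are given on `(0, π) × ℝ`; only
their values for `ζ ∈ [-1, 1]` matter. -/
structure Gowdy where
  U : ℝ → ℝ → ℝ
  W : ℝ → ℝ → ℝ
  a : ℝ → ℝ → ℝ
  α : ℝ → ℝ → ℝ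
  β : ℝ → ℝ → ℝ
  smU : ContDiffOn ℝ ∞ (Function.uncurry U) (Ioo 0 π ×ˢ univ)
  smW : ContDiffOn ℝ ∞ (Function.uncurry W) (Ioo 0 π ×ˢ univ)
  sma : ContDiffOn ℝ ∞ (Function.uncurry a) (Ioo 0 π ×ˢ univ)
  smα : ContDiffOn ℝ ∞ (Function.uncurry α) (Ioo 0 π ×ˢ univ)
  smβ : ContDiffOn ℝ ∞ (Function.uncurry β) (Ioo 0 π ×ˢ univ)
  axis0 : ∀ t ∈ Ioo 0 π, exp (2 * a t 1) = (1 / 2) * sin t * exp (U t 1)
  axis1 : ∀ t ∈ Ioo 0 π, exp (2 * a t (-1)) = (1 / 2) * sin t * exp (-U t (-1))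

/-- The metric
`e^{2a}(-dt² + dθ²) + sin t (1 - ζ) e^U (dx + (1 + ζ) W dy)² + sin t (1 + ζ) e^{-U} dy²`.
The area function of the orbits is `R = sin t sin θ`; with `e^P = e^U (1 - ζ) / sin θ` and
`Q = (1 + ζ) W` the last two terms are `R (e^P (dx + Q dy)² + e^{-P} dy²)`. -/
noncomputable def Gowdy.met (G : Gowdy) : Ten := fun p =>
  let t := p 0
  let ζ := cos (p 1)
  let E := exp (2 * G.a t ζ)
  let X := sin t * (1 - ζ) * exp (G.U t ζ)
  let Q := (1 + ζ) * G.W t ζ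
  !![-E, 0, 0, 0;
     0, E, 0, 0;
     0, 0, X, X * Q;
     0, 0, X * Q, X * Q ^ 2 + sin t * (1 + ζ) * exp (-G.U t ζ)]

/-- The components of the electromagnetic potential `A = (1 - ζ) α dx + (1 + ζ) β dy`. -/
noncomputable def Gowdy.pot (G : Gowdy) : Fin 4 → Pt → ℝ := fun i p =>
  ![0, 0, (1 - cos (p 1)) * G.α (p 0) (cos (p 1)), (1 + cos (p 1)) * G.β (p 0) (cos (p 1))] i

/-- The electromagnetic field `F = dA`, `F_{ij} = ∂_i A_j - ∂_j A_i`. -/
noncomputable def Gowdy.field (G : Gowdy) : Ten := fun p =>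
  Matrix.of fun i j => pd i (G.pot j) p - pd j (G.pot i) p

/-- The chart: all points off the two axes. -/
def chart : Set Pt := {p | p 0 ∈ Ioo 0 π ∧ p 1 ∈ Ioo 0 π}

end GS
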