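import Pool.Agent.Lib.MP_898b37_mp.GS.Geo

/-!
# `U(1) × U(1)`-symmetric electromagnetic spacetimes on `(0, π) × S³`

`S³ = {(z₁, z₂) : |z₁|² + |z₂|² = 1}`, `z₁ = sin(θ/2) e^{ix}`, `z₂ = cos(θ/2) e^{iy}`, with
`θ ∈ [0, π]` and `x, y` of period `2π`; `ζ = cos θ = |z₂|² - |z₁|²`.  The group `U(1) × U(1)` acts by
translations of `x` and `y`, the axes are `θ = 0` (where `∂_x` vanishes) and `θ = π` (where `∂_y`
vanishes).
-/

open Real Set
open scoped ContDiff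

namespace GS

/-- The chart: all points `(t, θ, x, y)` off the two axes. -/
def chartS : Set Pt := {p | p 0 ∈ Ioo 0 π ∧ p 1 ∈ Ioo 0 π}

/-- The data of a smooth `U(1) × U(1)`-symmetric electromagnetic spacetime on `(0, π) × S³` whose
metric has the Gowdy form with area function `c sin t sin θ`: smooth functions of `(t, ζ)`, `ζ = cos θ`,
with the two conditions that make the metric smooth at the two axes `ζ = 1` and `ζ = -1`. The functions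
are given on `(0, π) × ℝ`; only their values for `ζ ∈ [-1, 1]` matter. The functions
`f01, ..., f23` describe an arbitrary smooth invariant two-form (see `Space.field`). -/
structure Space where
  c : ℝ
  hc : 0 < c
  U : ℝ → ℝ → ℝ
  W : ℝ → ℝ → ℝ
  a : ℝ → ℝ → ℝ
  f01 : ℝ → ℝ → ℝ
  f02 : ℝ → ℝ → ℝ
  f03 : ℝ → ℝ → ℝ
  f12 : ℝ → ℝ → ℝ
  f13 : ℝ → ℝ → ℝ
  f23 : ℝ → ℝ → ℝ
  smU : ContDiffOn ℝ ∞ (Function.uncurry U) (Ioo 0 π ×ˢ univ)
  smW : ContDiffOn ℝ ∞ (Function.uncurry W) (Ioo 0 π ×ˢ univ)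
  sma : ContDiffOn ℝ ∞ (Function.uncurry a) (Ioo 0 π ×ˢ univ)
  sm01 : ContDiffOn ℝ ∞ (Function.uncurry f01) (Ioo 0 π ×ˢ univ)
  sm02 : ContDiffOn ℝ ∞ (Function.uncurry f02) (Ioo 0 π ×ˢ univ)
  sm03 : ContDiffOn ℝ ∞ (Function.uncurry f03) (Ioo 0 π ×ˢ univ)
  sm12 : ContDiffOn ℝ ∞ (Function.uncurry f12) (Ioo 0 π ×ˢ univ)
  sm13 : ContDiffOn ℝ ∞ (Function.uncurry f13) (Ioo 0 π ×ˢ univ)
  sm23 : ContDiffOn ℝ ∞ (Function.uncurry f23) (Ioo 0 π ×ˢ univ)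
  axis0 : ∀ t ∈ Ioo 0 π, exp (2 * a t 1) = (1 / 2) * c * sin t * exp (U t 1)
  axis1 : ∀ t ∈ Ioo 0 π, exp (2 * a t (-1)) = (1 / 2) * c * sin t * exp (-U t (-1))

/-- The metric `e^{2a}(-dt² + dθ²) + c sin t (1 - ζ) e^U (dx + (1 + ζ) W dy)²`
`+ c sin t (1 + ζ) e^{-U} dy²`. The area function of the orbits is `R = c sin t sin θ`; with
`e^P = e^U (1 - ζ) / sin θ` and `Q = (1 + ζ) W` the last two terms are
`R (e^P (dx + Q dy)² + e^{-P} dy²)`. -/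
noncomputable def Space.met (S : Space) : Ten := fun p =>
  let t := p 0
  let ζ := cos (p 1)
  let E := exp (2 * S.a t ζ)
  let X := S.c * sin t * (1 - ζ) * exp (S.U t ζ)
  let Q := (1 + ζ) * S.W t ζ
  !![-E, 0, 0, 0;
     0, E, 0, 0;
     0, 0, X, X * Q;
     0, 0, X * Q, X * Q ^ 2 + S.c * sin t * (1 + ζ) * exp (-S.U t ζ)]

/-- The electromagnetic field, an arbitrary smooth invariant two-form on `(0, π) × S³`:
`F = f01 dt ∧ dζ + f02 (1 - ζ) dt ∧ dx + f03 (1 + ζ) dt ∧ dy + f12 dζ ∧ dx + f13 dζ ∧ dy`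
`+ f23 (1 - ζ²) dx ∧ dy`, `dζ = -sin θ dθ` (the forms `(1 - ζ) dx` and `(1 + ζ) dy` are smooth on `S³`). -/
noncomputable def Space.field (S : Space) : Ten := fun p =>
  let t := p 0
  let ζ := cos (p 1)
  let s := sin (p 1)
  let F01 := -(s * S.f01 t ζ)
  let F02 := (1 - ζ) * S.f02 t ζ
  let F03 := (1 + ζ) * S.f03 t ζ
  let F12 := -(s * S.f12 t ζ)
  let F13 := -(s * S.f13 t ζ)
  let F23 := (1 - ζ ^ 2) * S.f23 t ζ
  !![0, F01, F02, F03;
     -F01, 0, F12, F13;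
     -F02, -F12, 0, F23;
     -F03, -F13, -F23, 0]

end GS
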