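import Pool.Agent.Lib.MP_898b37_mp.GS.Calc

/-!
# The analytic package extracted from the field equations

`u = t - θ`, `v = t + θ`, `R = sin t sin θ`.  `p = F_t / F` and `q = F_θ / F` are the logarithmic
derivatives of `F = e^a R`; `A = R E_u`, `B = R E_v` (plus electromagnetic terms), `At`, `Bt` are the
regularised densities.
-/

open Real Set
open scoped ContDiff

namespace GS

/-- The package of properties used by the estimates. It is invariant under `θ → π - θ` and under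
`t → π - t`. -/
structure Dat where
  p : ℝ → ℝ → ℝ
  q : ℝ → ℝ → ℝ
  A : ℝ → ℝ → ℝ
  B : ℝ → ℝ → ℝ
  At : ℝ → ℝ → ℝ
  Bt : ℝ → ℝ → ℝ
  cp : C1 (Ioo 0 π) p
  cq : C1 (Ioo 0 π) q
  cA : C1 (Ioo 0 π) A
  cB : C1 (Ioo 0 π) B
  cAt : C1 univ At
  cBt : C1 univ Bt
  nA : ∀ t ∈ Ioo 0 π, ∀ θ ∈ Ioo 0 π, 0 ≤ A t θ
  nB : ∀ t ∈ Ioo 0 π, ∀ θ ∈ Ioo 0 π, 0 ≤ B t θ
  nAt : ∀ t ∈ Ioo 0 π, ∀ θ ∈ Icc 0 π, 0 ≤ At t θ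
  nBt : ∀ t ∈ Ioo 0 π, ∀ θ ∈ Icc 0 π, 0 ≤ Bt t θ
  leA : ∀ t ∈ Ioo 0 π, ∀ θ ∈ Ioo 0 π, A t θ ≤ 2 * At t θ + sin t / (2 * sin θ)
  leB : ∀ t ∈ Ioo 0 π, ∀ θ ∈ Ioo 0 π, B t θ ≤ 2 * Bt t θ + sin t / (2 * sin θ)
  trA : ∀ t ∈ Ioo 0 π, ∀ θ ∈ Ioo 0 π,
    |dt A t θ + dh A t θ| ≤ |sin (t - θ)| * √(A t θ * B t θ) / (sin t * sin θ)
  trB : ∀ t ∈ Ioo 0 π, ∀ θ ∈ Ioo 0 π,
    |dt B t θ - dh B t θ| ≤ |sin (t + θ)| * √(A t θ * B t θ) / (sin t * sin θ)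
  en : ∀ t ∈ Ioo 0 π, ∀ θ ∈ Icc 0 π,
    |(dt At t θ + dt Bt t θ) - (dh Bt t θ - dh At t θ)| ≤ |cos t / sin t| * (At t θ + Bt t θ)
  ax0 : ∀ t ∈ Ioo 0 π, At t 0 = Bt t 0
  ax1 : ∀ t ∈ Ioo 0 π, At t π = Bt t π
  cu : ∀ t ∈ Ioo 0 π, ∀ θ ∈ Ioo 0 π, sin (t - θ) * (p t θ - q t θ) =
    cos (t - θ) - A t θ - (3 / 4) * sin (t - θ) ^ 2 / (sin t * sin θ)
  cv : ∀ t ∈ Ioo 0 π, ∀ θ ∈ Ioo 0 π, sin (t + θ) * (p t θ + q t θ) =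
    cos (t + θ) + B t θ + (3 / 4) * sin (t + θ) ^ 2 / (sin t * sin θ)

/-- Bounds near the corner `t = 0`, `θ = 0` for the logarithmic derivatives `p`, `q` of `F`
(`bv = p + q`, `b = (q - p) / 2`). -/
structure LB (C : ℝ) (p q : ℝ → ℝ → ℝ) : Prop where
  n0 : ∀ t θ, 0 < t → 0 < θ → t + θ < π →
    cos (t + θ) / sin (t + θ) + (3 / 4) * sin (t + θ) / (sin t * sin θ) ≤ p t θ + q t θ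
  b2 : ∀ t θ, 0 < t → t < θ → t + θ < π →
    q t θ - p t θ ≤ cos (θ - t) / sin (θ - t) - (3 / 4) * sin (θ - t) / (sin t * sin θ)
  b1 : ∀ t θ, 0 < θ → θ ≤ t → t ≤ 3 * θ → t + θ ≤ 1 →
    (q t θ - p t θ) / 2 ≤ C * (1 / (t + θ) ^ 2 + (t - θ) / (t + θ) ^ 4)
  b1' : ∀ t θ, 0 < t → t ≤ θ → θ ≤ 3 * t → t + θ ≤ 1 →
    (q t θ - p t θ) / 2 ≤ C / (t + θ) ^ 2
  b3 : ∀ t θ, 0 < θ → 2 * θ ≤ t → t - θ ≤ 1 / 3 →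
    (q t θ - p t θ) / 2 ≤ C / ((t - θ) * t * θ)

/-- The condition `H > 0` at a point of a hypersurface `t = τ(θ)` with slope `m = τ'` and
`m' = τ''`: `0 < m' / (1 - m²) + p + m q`, `p = F_t/F`, `q = F_θ/F`. -/
def HP (p q : ℝ → ℝ → ℝ) (t θ m m' : ℝ) : Prop := 0 < m' / (1 - m ^ 2) + p t θ + m * q t θ

/-- Local description of a (piecewise `C²`, all corners upward) barrier at `θ`: on the left it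
agrees with the `C²` arc `σ₁` of slope `m₁`, on the right with the arc `σ₂` of slope `m₂`,
`m₁ θ ≤ m₂ θ`, and `H > 0` at `θ` for both arcs. -/
def BLoc (p q : ℝ → ℝ → ℝ) (τ : ℝ → ℝ) (θ : ℝ) : Prop :=
  ∃ δ > 0, ∃ (σ₁ m₁ σ₂ m₂ : ℝ → ℝ) (m₁' m₂' : ℝ),
    (∀ x ∈ Icc (θ - δ) θ, τ x = σ₁ x) ∧ (∀ x ∈ Icc θ (θ + δ), τ x = σ₂ x) ∧
    (∀ x ∈ Icc (θ - δ) (θ + δ), HasDerivAt σ₁ (m₁ x) x ∧ |m₁ x| < 1 ∧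
      HasDerivAt σ₂ (m₂ x) x ∧ |m₂ x| < 1) ∧
    HasDerivAt m₁ m₁' θ ∧ HasDerivAt m₂ m₂' θ ∧ m₁ θ ≤ m₂ θ ∧
    HP p q (τ θ) θ (m₁ θ) m₁' ∧ HP p q (τ θ) θ (m₂ θ) m₂'

/-- A lower barrier on `[0, π]`. -/
structure LBar (p q : ℝ → ℝ → ℝ) (τ : ℝ → ℝ) : Prop where
  lip : ∀ x ∈ Icc 0 π, ∀ y ∈ Icc 0 π, |τ x - τ y| ≤ |x - y|
  rng : ∀ x ∈ Icc 0 π, 0 < τ x ∧ τ x < π
  loc : ∀ θ ∈ Ioo 0 π, BLoc p q τ θ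
  end0 : ∃ δ > 0, ∀ θ ∈ Ioo 0 δ, ∃ μ > 0, HasDerivAt τ μ θ
  end1 : ∃ δ > 0, ∀ θ ∈ Ioo (π - δ) π, ∃ μ < 0, HasDerivAt τ μ θ

end GS
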