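import Pool.Agent.Lib.MP_898b37_mp.GS.Cls
import Pool.Agent.Lib.MP_898b37_mp.GS.Calc
import Pool.Agent.Lib.MP_898b37_mp.GS.CalcA
import Pool.Agent.Lib.MP_898b37_mp.GS.CalcB
import Pool.Agent.Lib.MP_898b37_mp.GS.CalcC

open Real Set
open scoped ContDiff Matrix

namespace GS

/-- The functions of `(t, θ)` attached to a Gowdy spacetime. `P = log((1 - cos θ)/sin θ) + U`. -/
noncomputable def Gowdy.Us (G : Gowdy) (t θ : ℝ) : ℝ := G.U t (cos θ)
noncomputable def Gowdy.P (G : Gowdy) (t θ : ℝ) : ℝ := log ((1 - cos θ) / sin θ) + G.U t (cos θ)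
noncomputable def Gowdy.Q (G : Gowdy) (t θ : ℝ) : ℝ := (1 + cos θ) * G.W t (cos θ)
noncomputable def Gowdy.as (G : Gowdy) (t θ : ℝ) : ℝ := G.a t (cos θ)
noncomputable def Gowdy.x (G : Gowdy) (t θ : ℝ) : ℝ := (1 - cos θ) * G.α t (cos θ)
noncomputable def Gowdy.y (G : Gowdy) (t θ : ℝ) : ℝ := (1 + cos θ) * G.β t (cos θ)

/-- The metric `e^{2a}(-dt² + dθ²) + R (e^P (dx + Q dy)² + e^{-P} dy²)`, `R = sin t sin θ`. -/
noncomputable def mPQ (a P Q : ℝ → ℝ → ℝ) : Ten := fun p =>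
  let t := p 0
  let θ := p 1
  let R := sin t * sin θ
  !![-exp (2 * a t θ), 0, 0, 0;
     0, exp (2 * a t θ), 0, 0;
     0, 0, R * exp (P t θ), R * exp (P t θ) * Q t θ;
     0, 0, R * exp (P t θ) * Q t θ, R * exp (P t θ) * Q t θ ^ 2 + R * exp (-P t θ)]

/-- The field of the potential `x dx + y dy`, in terms of partial derivatives. -/
noncomputable def fxy (x y : ℝ → ℝ → ℝ) : Ten := fun p =>
  let t := p 0
  let θ := p 1
  !![0, 0, dt x t θ, dt y t θ;
     0, 0, dh x t θ, dh y t θ;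
     -dt x t θ, -dh x t θ, 0, 0;
     -dt y t θ, -dh y t θ, 0, 0]

/-- TASK Gea. The chart is open. -/
theorem isOpen_chart : IsOpen chart := by
  exact (isOpen_Ioo.preimage (continuous_apply (0 : Fin 4))).inter
    (isOpen_Ioo.preimage (continuous_apply (1 : Fin 4)))

/-- Partial derivatives only depend on the function near the point. -/
theorem pd_congr {i : Fin 4} {f g : Pt → ℝ} {p : Pt} (hp : p ∈ chart)
    (h : ∀ q ∈ chart, f q = g q) : pd i f p = pd i g p := by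
  unfold pd
  apply Filter.EventuallyEq.deriv_eq
  have h1 : Continuous (fun s : ℝ => Function.update p i s) := continuous_const.update i continuous_id
  have h2 : Function.update p i (p i) ∈ chart := by
    rw [Function.update_eq_self]
    exact hp
  have h3 : ∀ᶠ s in nhds (p i), Function.update p i s ∈ chart :=
    h1.continuousAt.eventually_mem (isOpen_chart.mem_nhds h2)
  exact h3.mono (fun s hs => h _ hs)

/-- Partial derivatives of functions of `(t, θ)`. -/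
theorem pd0 (f : ℝ → ℝ → ℝ) (p : Pt) : pd 0 (fun q => f (q 0) (q 1)) p = dt f (p 0) (p 1) := by
  unfold pd dt
  simp [Function.update]

theorem pd1 (f : ℝ → ℝ → ℝ) (p : Pt) : pd 1 (fun q => f (q 0) (q 1)) p = dh f (p 0) (p 1) := by
  unfold pd dh
  simp [Function.update]

theorem pd2 (f : ℝ → ℝ → ℝ) (p : Pt) : pd 2 (fun q => f (q 0) (q 1)) p = 0 := by
  unfold pd
  have h1 : (fun s : ℝ => (fun q : Pt => f (q 0) (q 1)) (Function.update p 2 s)) = fun _ => f (p 0) (p 1) := by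
    funext s
    rfl
  rw [h1]
  exact deriv_const _ _

theorem pd3 (f : ℝ → ℝ → ℝ) (p : Pt) : pd 3 (fun q => f (q 0) (q 1)) p = 0 := by
  unfold pd
  have h1 : (fun s : ℝ => (fun q : Pt => f (q 0) (q 1)) (Function.update p 3 s)) = fun _ => f (p 0) (p 1) := by
    funext s
    rfl
  rw [h1]
  exact deriv_const _ _

/-- `G.met = mPQ` and `G.field = fxy` on the chart
(`exp (log ((1-c)/s)) = (1-c)/s > 0`, `sin θ (1-c)/s = 1 - c`, `sin θ s/(1-c) = 1 + c`). -/
theorem met_eq (G : Gowdy) {p : Pt} (hp : p ∈ chart) : G.met p = mPQ G.as G.P G.Q p := by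
  have hθ := hp.2
  have hs : 0 < sin (p 1) := sin_pos_of_mem_Ioo hθ
  have hc : cos (p 1) < 1 := by
    have h1 := Real.cos_lt_cos_of_nonneg_of_le_pi le_rfl hθ.2.le hθ.1
    rwa [Real.cos_zero] at h1
  have hc' : 0 < 1 - cos (p 1) := by linarith
  have hq : 0 < (1 - cos (p 1)) / sin (p 1) := div_pos hc' hs
  have hsq : sin (p 1) ^ 2 = (1 - cos (p 1)) * (1 + cos (p 1)) := by
    have := Real.sin_sq_add_cos_sq (p 1)
    nlinarith
  have hP : exp (G.P (p 0) (p 1)) = (1 - cos (p 1)) / sin (p 1) * exp (G.U (p 0) (cos (p 1))) := by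
    unfold Gowdy.P
    rw [exp_add, exp_log hq]
  have hPm : exp (-G.P (p 0) (p 1)) = sin (p 1) / (1 - cos (p 1)) * exp (-G.U (p 0) (cos (p 1))) := by
    unfold Gowdy.P
    rw [neg_add, exp_add, exp_neg, exp_log hq, inv_div]
  have hRP : sin (p 0) * sin (p 1) * exp (G.P (p 0) (p 1)) =
      sin (p 0) * (1 - cos (p 1)) * exp (G.U (p 0) (cos (p 1))) := by
    rw [hP]
    field_simp
  have hRPm : sin (p 0) * sin (p 1) * exp (-G.P (p 0) (p 1)) =
      sin (p 0) * (1 + cos (p 1)) * exp (-G.U (p 0) (cos (p 1))) := by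
    rw [hPm]
    field_simp
    rw [hsq]
    ring
  unfold Gowdy.met mPQ
  simp only
  rw [hRP, hRPm]
  rfl

theorem field_eq (G : Gowdy) (p : Pt) : G.field p = fxy G.x G.y p := by
  have c0 : ∀ i, pd i (G.pot 0) p = 0 := by
    intro i
    show deriv (fun s : ℝ => (0 : ℝ)) (p i) = 0
    exact deriv_const _ _
  have c1 : ∀ i, pd i (G.pot 1) p = 0 := by
    intro i
    show deriv (fun s : ℝ => (0 : ℝ)) (p i) = 0
    exact deriv_const _ _
  have e2 : G.pot 2 = fun q => G.x (q 0) (q 1) := rfl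
  have e3 : G.pot 3 = fun q => G.y (q 0) (q 1) := rfl
  ext i j
  fin_cases i <;> fin_cases j
  all_goals simp [Gowdy.field, fxy, c0, c1, e2, e3, pd0, pd1, pd2, pd3]

/-- Smoothness of the functions of `(t, θ)`. -/
theorem Gowdy.sUs (G : Gowdy) : Sm univ G.Us := by
  exact Sm.cos (f := G.U) G.smU
theorem Gowdy.sas (G : Gowdy) : Sm univ G.as := by
  exact Sm.cos (f := G.a) G.sma
theorem Gowdy.sQ (G : Gowdy) : Sm univ G.Q := by
  exact Sm.mul (Sm.add (Sm.const univ 1) (Sm.snd univ Real.contDiff_cos)) (Sm.cos (f := G.W) G.smW)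
theorem Gowdy.sx (G : Gowdy) : Sm univ G.x := by
  exact Sm.mul (Sm.sub (Sm.const univ 1) (Sm.snd univ Real.contDiff_cos)) (Sm.cos (f := G.α) G.smα)
theorem Gowdy.sy (G : Gowdy) : Sm univ G.y := by
  exact Sm.mul (Sm.add (Sm.const univ 1) (Sm.snd univ Real.contDiff_cos)) (Sm.cos (f := G.β) G.smβ)
theorem Gowdy.sP (G : Gowdy) : Sm (Ioo 0 π) G.P := by
  have hs : ∀ θ ∈ Ioo 0 π, sin θ ≠ 0 := fun θ hθ => (sin_pos_of_mem_Ioo hθ).ne'
  have hq : ∀ θ ∈ Ioo 0 π, (1 - cos θ) / sin θ ≠ 0 := by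
    intro θ hθ
    have h1 := Real.cos_lt_cos_of_nonneg_of_le_pi le_rfl hθ.2.le hθ.1
    rw [Real.cos_zero] at h1
    exact div_ne_zero (by linarith) (hs θ hθ)
  have h1 : Sm (Ioo 0 π) (fun _ θ => (1 - cos θ) / sin θ) :=
    Sm.div (Sm.sub (Sm.const _ 1) (Sm.snd _ Real.contDiff_cos)) (Sm.snd _ Real.contDiff_sin)
      (fun _ _ θ hθ => hs θ hθ)
  exact Sm.add (Sm.log h1 (fun _ _ θ hθ => hq θ hθ)) (Sm.mono (subset_univ _) G.sUs)

end GS
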