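import Pool.Agent.Lib.MP_898b37_mp.GS.Gea

open Real Set
open scoped ContDiff Matrix

namespace GS

private theorem Geb_mul (E E' X X' Q R : ℝ) (h1 : E * E' = 1) (h2 : X * X' = 1) (hR : R ≠ 0) :
    (!![-E, 0, 0, 0; 0, E, 0, 0; 0, 0, R * X, R * X * Q;
        0, 0, R * X * Q, R * X * Q ^ 2 + R * X'] : Matrix (Fin 4) (Fin 4) ℝ) *
      !![-E', 0, 0, 0; 0, E', 0, 0; 0, 0, (X * Q ^ 2 + X') / R, -(X * Q) / R;
        0, 0, -(X * Q) / R, X / R] = 1 := by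
  ext i j
  fin_cases i <;> fin_cases j <;> simp [Matrix.mul_apply, Fin.sum_univ_four]
  · exact h1
  · exact h1
  · field_simp
    linear_combination h2
  · field_simp
    ring
  · field_simp
    ring
  · field_simp
    linear_combination h2

private theorem Geb_det (E X X' Q R : ℝ) (h2 : X * X' = 1) :
    (!![-E, 0, 0, 0; 0, E, 0, 0; 0, 0, R * X, R * X * Q;
        0, 0, R * X * Q, R * X * Q ^ 2 + R * X'] : Matrix (Fin 4) (Fin 4) ℝ).det =
      -(E * R) ^ 2 := by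
  simp [Matrix.det_succ_row_zero, Fin.sum_univ_succ]
  linear_combination (E ^ 2 * R ^ 2) * h2

private theorem Geb_R {p : Pt} (hp : p ∈ chart) : 0 < sin (p 0) * sin (p 1) :=
  mul_pos (sin_pos_of_mem_Ioo hp.1) (sin_pos_of_mem_Ioo hp.2)

/-- TASK Geb. Inverse and determinant of the metric on the chart. -/
theorem mPQ_inv (a P Q : ℝ → ℝ → ℝ) {p : Pt} (hp : p ∈ chart) :
    (mPQ a P Q p)⁻¹ =
      !![-exp (-(2 * a (p 0) (p 1))), 0, 0, 0;
         0, exp (-(2 * a (p 0) (p 1))), 0, 0;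
         0, 0, (exp (P (p 0) (p 1)) * Q (p 0) (p 1) ^ 2 + exp (-P (p 0) (p 1))) /
            (sin (p 0) * sin (p 1)), -(exp (P (p 0) (p 1)) * Q (p 0) (p 1)) / (sin (p 0) * sin (p 1));
         0, 0, -(exp (P (p 0) (p 1)) * Q (p 0) (p 1)) / (sin (p 0) * sin (p 1)),
            exp (P (p 0) (p 1)) / (sin (p 0) * sin (p 1))] := by
  apply Matrix.inv_eq_right_inv
  exact Geb_mul (exp (2 * a (p 0) (p 1))) (exp (-(2 * a (p 0) (p 1)))) (exp (P (p 0) (p 1)))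
    (exp (-P (p 0) (p 1))) (Q (p 0) (p 1)) (sin (p 0) * sin (p 1))
    (by rw [← exp_add]; simp) (by rw [← exp_add]; simp) (Geb_R hp).ne'

/-- `det g = -e^{4a} R²`. -/
theorem mPQ_det (a P Q : ℝ → ℝ → ℝ) (p : Pt) :
    (mPQ a P Q p).det = -(exp (2 * a (p 0) (p 1)) * (sin (p 0) * sin (p 1))) ^ 2 :=
  Geb_det (exp (2 * a (p 0) (p 1))) (exp (P (p 0) (p 1))) (exp (-P (p 0) (p 1)))
    (Q (p 0) (p 1)) (sin (p 0) * sin (p 1)) (by rw [← exp_add]; simp)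

/-- `√|det g| = e^{2a} R` on the chart. -/
theorem mPQ_sqrt (a P Q : ℝ → ℝ → ℝ) {p : Pt} (hp : p ∈ chart) :
    √|(mPQ a P Q p).det| = exp (2 * a (p 0) (p 1)) * (sin (p 0) * sin (p 1)) := by
  rw [mPQ_det, abs_neg, abs_of_nonneg (sq_nonneg _),
    Real.sqrt_sq (mul_pos (exp_pos _) (Geb_R hp)).le]

end GS
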