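import Mathlib

/-!
# Lorentzian geometry in coordinates

Points of the chart are `p : Fin 4 → ℝ` with coordinates `(t, θ, x, y) = (p 0, p 1, p 2, p 3)`.
A tensor with two lower indices is a matrix valued function of the point.
-/

open Real Set
open scoped ContDiff

namespace GS

/-- Points of a coordinate chart of a four dimensional spacetime. -/
abbrev Pt := Fin 4 → ℝ

/-- Covariant tensors of order two in coordinates (metrics and two-forms). -/
abbrev Ten := Pt → Matrix (Fin 4) (Fin 4) ℝ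

/-- The partial derivative of `f` in the `i`-th coordinate. -/
noncomputable def pd (i : Fin 4) (f : Pt → ℝ) (p : Pt) : ℝ :=
  deriv (fun s : ℝ => f (Function.update p i s)) (p i)

/-- The Christoffel symbol `Γ^i_{jk}` of the metric `g`. -/
noncomputable def chr (g : Ten) (i j k : Fin 4) (p : Pt) : ℝ :=
  (1 / 2) * ∑ l, (g p)⁻¹ i l *
    (pd j (fun q => g q l k) p + pd k (fun q => g q l j) p - pd l (fun q => g q j k) p)

/-- The Ricci tensor
`R_{jk} = ∂_i Γ^i_{jk} - ∂_j Γ^i_{ik} + Γ^i_{il} Γ^l_{jk} - Γ^i_{jl} Γ^l_{ik}`. -/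
noncomputable def ric (g : Ten) (j k : Fin 4) (p : Pt) : ℝ :=
  ∑ i, (pd i (chr g i j k) p - pd j (chr g i i k) p)
    + ∑ i, ∑ l, (chr g i i l p * chr g l j k p - chr g i j l p * chr g l i k p)

/-- The scalar curvature `g^{jk} R_{jk}`. -/
noncomputable def scal (g : Ten) (p : Pt) : ℝ := ∑ j, ∑ k, (g p)⁻¹ j k * ric g j k p

/-- `F^{ab} = g^{ac} g^{bd} F_{cd}`. -/
noncomputable def up (g F : Ten) (a b : Fin 4) (p : Pt) : ℝ :=
  ∑ c, ∑ d, (g p)⁻¹ a c * (g p)⁻¹ b d * F p c d

/-- The stress tensor `T_{ab} = (1/4π) (F_{ac} F_b^c - (1/4) g_{ab} F_{cd} F^{cd})`. -/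
noncomputable def stress (g F : Ten) (a b : Fin 4) (p : Pt) : ℝ :=
  (1 / (4 * π)) * ((∑ c, ∑ d, (g p)⁻¹ c d * F p a c * F p b d)
    - (1 / 4) * g p a b * ∑ c, ∑ d, F p c d * up g F c d p)

/-- The Einstein-Maxwell equations for the metric `g` and the two-form `F` at all points of `O`:
`Ric(g) - (1/2) R(g) g = 8π T`, `dF = 0` and `d⋆F = 0` (in the form `∂_a (√|det g| F^{ab}) = 0`).
For `F = 0` these are the vacuum Einstein equations. -/
structure EinsteinMaxwell (g F : Ten) (O : Set Pt) : Prop where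
  einstein : ∀ p ∈ O, ∀ a b,
    ric g a b p - (1 / 2) * scal g p * g p a b = 8 * π * stress g F a b p
  closed : ∀ p ∈ O, ∀ a b c, pd a (fun q => F q b c) p + pd b (fun q => F q c a) p
    + pd c (fun q => F q a b) p = 0
  coclosed : ∀ p ∈ O, ∀ b, ∑ a, pd a (fun q => √|(g q).det| * up g F a b q) p = 0

/-- The gradient `∇^i φ = g^{ij} ∂_j φ`. -/
noncomputable def grad (g : Ten) (φ : Pt → ℝ) (i : Fin 4) (p : Pt) : ℝ :=
  ∑ j, (g p)⁻¹ i j * pd j φ p

/-- `g(∇φ, ∇φ) = g^{ij} ∂_i φ ∂_j φ`. If it is negative then the level set of `φ` is spacelike. -/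
noncomputable def gradSq (g : Ten) (φ : Pt → ℝ) (p : Pt) : ℝ :=
  ∑ i, ∑ j, (g p)⁻¹ i j * pd i φ p * pd j φ p

/-- The unit normal `-∇φ / √(-g(∇φ, ∇φ))` of the level sets of `φ` (future directed if `φ`
increases to the future). -/
noncomputable def normal (g : Ten) (φ : Pt → ℝ) (i : Fin 4) (p : Pt) : ℝ :=
  -grad g φ i p / √(-gradSq g φ p)

/-- The mean curvature of the level sets of `φ`: the divergence
`(1/√|det g|) ∂_i (√|det g| n^i)` of the unit normal `n`. -/
noncomputable def meanCurv (g : Ten) (φ : Pt → ℝ) (p : Pt) : ℝ :=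
  (√|(g p).det|)⁻¹ * ∑ i, pd i (fun q => √|(g q).det| * normal g φ i q) p

end GS
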