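import Pool.Agent.Lib.MP_898b37_mp.GS.Geo

open Real Set
open scoped ContDiff Matrix

namespace GS

/-- TASK ScA. Homotheties. `pd i (k f) = k pd i f` for every function (`deriv_const_mul_field`), the
inverse of `k g` is `k⁻¹ g⁻¹` (`k ≠ 0`; also if `g` is not invertible, both sides are then `0`), so
the Christoffel symbols and the Ricci tensor do not change, `scal (k g) = k⁻¹ scal g`,
`stress (k g) (√k F) = stress g F`, `√|det (k g)| = k² √|det g|`, `up (k g) (√k F) = k⁻² √k up g F`. -/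
theorem inv_smul' {k : ℝ} (hk : 0 < k) (A : Matrix (Fin 4) (Fin 4) ℝ) :
    (k • A)⁻¹ = k⁻¹ • A⁻¹ := by
  have hk0 : k ≠ 0 := hk.ne'
  by_cases h : IsUnit A.det
  · refine Matrix.inv_eq_right_inv ?_
    rw [Matrix.smul_mul, Matrix.mul_smul, smul_smul, Matrix.mul_nonsing_inv A h, mul_inv_cancel₀ hk0,
      one_smul]
  · have h2 : ¬ IsUnit (k • A).det := by
      rw [Matrix.det_smul]
      intro h3
      apply h
      rw [isUnit_iff_ne_zero] at h3 ⊢
      exact right_ne_zero_of_mul h3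
    rw [Matrix.nonsing_inv_apply_not_isUnit _ h, Matrix.nonsing_inv_apply_not_isUnit _ h2, smul_zero]

private theorem ScA_inv {k : ℝ} (hk : 0 < k) (A : Matrix (Fin 4) (Fin 4) ℝ) (i j : Fin 4) :
    (k • A)⁻¹ i j = k⁻¹ * A⁻¹ i j := by
  rw [inv_smul' hk, Matrix.smul_apply, smul_eq_mul]

private theorem ScA_pd (i : Fin 4) (c : ℝ) (f : Pt → ℝ) (p : Pt) :
    pd i (fun q => c * f q) p = c * pd i f p := by
  unfold pd
  exact deriv_const_mul_field c

private theorem ScA_chr {k : ℝ} (hk : 0 < k) (g : Ten) (i j l : Fin 4) :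
    chr (fun q => k • g q) i j l = chr g i j l := by
  funext p
  unfold chr
  simp only [ScA_inv hk, Matrix.smul_apply, smul_eq_mul, ScA_pd]
  congr 1
  refine Finset.sum_congr rfl fun m _ => ?_
  have hk0 : k ≠ 0 := hk.ne'
  field_simp

theorem ric_smul {k : ℝ} (hk : 0 < k) (g : Ten) (i j : Fin 4) (p : Pt) :
    ric (fun q => k • g q) i j p = ric g i j p := by
  unfold ric
  simp only [ScA_chr hk]

private theorem ScA_scal {k : ℝ} (hk : 0 < k) (g : Ten) (p : Pt) :
    scal (fun q => k • g q) p = k⁻¹ * scal g p := by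
  unfold scal
  simp only [ScA_inv hk, ric_smul hk, Finset.mul_sum, mul_assoc]

private theorem ScA_up {k : ℝ} (hk : 0 < k) (g F : Ten) (a b : Fin 4) (p : Pt) :
    up (fun q => k • g q) (fun q => √k • F q) a b p = k⁻¹ * k⁻¹ * √k * up g F a b p := by
  unfold up
  simp only [ScA_inv hk, Matrix.smul_apply, smul_eq_mul, Finset.mul_sum]
  refine Finset.sum_congr rfl fun c _ => Finset.sum_congr rfl fun d _ => ?_
  ring

private theorem ScA_stress {k : ℝ} (hk : 0 < k) (g F : Ten) (a b : Fin 4) (p : Pt) :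
    stress (fun q => k • g q) (fun q => √k • F q) a b p = stress g F a b p := by
  have hk0 : k ≠ 0 := hk.ne'
  have hs : √k * √k = k := Real.mul_self_sqrt hk.le
  unfold stress
  simp only [ScA_up hk, ScA_inv hk, Matrix.smul_apply, smul_eq_mul]
  congr 1
  congr 1
  · refine Finset.sum_congr rfl fun c _ => Finset.sum_congr rfl fun d _ => ?_
    have e : k⁻¹ * (g p)⁻¹ c d * (√k * F p a c) * (√k * F p b d) =
        k⁻¹ * (√k * √k) * ((g p)⁻¹ c d * F p a c * F p b d) := by ring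
    rw [e, hs, inv_mul_cancel₀ hk0, one_mul]
  · simp only [Finset.mul_sum]
    refine Finset.sum_congr rfl fun c _ => Finset.sum_congr rfl fun d _ => ?_
    have e : 1 / 4 * (k * g p a b) * (√k * F p c d * (k⁻¹ * k⁻¹ * √k * up g F c d p)) =
        (√k * √k) * (k * (k⁻¹ * k⁻¹)) * (1 / 4 * g p a b * (F p c d * up g F c d p)) := by ring
    have e2 : k * (k * (k⁻¹ * k⁻¹)) = 1 := by field_simp
    rw [e, hs, e2, one_mul]

private theorem ScA_det {k : ℝ} (hk : 0 < k) (A : Matrix (Fin 4) (Fin 4) ℝ) :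
    √|(k • A).det| = k ^ 2 * √|A.det| := by
  rw [Matrix.det_smul, Fintype.card_fin, abs_mul, abs_of_pos (pow_pos hk 4),
    Real.sqrt_mul (pow_pos hk 4).le]
  congr 1
  rw [show k ^ 4 = (k ^ 2) ^ 2 by ring]
  exact Real.sqrt_sq (pow_pos hk 2).le

/-- If `(k g, √k F)` solves the Einstein-Maxwell equations then so does `(g, F)`. -/
theorem EinsteinMaxwell.of_smul {k : ℝ} (hk : 0 < k) {g F : Ten} {O : Set Pt}
    (h : EinsteinMaxwell (fun q => k • g q) (fun q => √k • F q) O) : EinsteinMaxwell g F O := by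
  have hk0 : k ≠ 0 := hk.ne'
  have hs0 : √k ≠ 0 := (Real.sqrt_pos.2 hk).ne'
  refine ⟨fun p hp a b => ?_, fun p hp a b c => ?_, fun p hp b => ?_⟩
  · have h1 := h.einstein p hp a b
    rw [ric_smul hk, ScA_scal hk, ScA_stress hk, Matrix.smul_apply, smul_eq_mul] at h1
    rw [← h1]
    field_simp
  · have h1 := h.closed p hp a b c
    simp only [Matrix.smul_apply, smul_eq_mul, ScA_pd] at h1
    rw [← mul_add, ← mul_add] at h1
    exact (mul_eq_zero.1 h1).resolve_left hs0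
  · have h1 := h.coclosed p hp b
    have e : ∀ a : Fin 4, (fun q => √|(k • g q).det| * up (fun q => k • g q) (fun q => √k • F q) a b q) =
        fun q => √k * (√|(g q).det| * up g F a b q) := by
      intro a
      funext q
      rw [ScA_det hk, ScA_up hk]
      field_simp
    simp only [e, ScA_pd] at h1
    rw [← Finset.mul_sum] at h1
    exact (mul_eq_zero.1 h1).resolve_left hs0

/-- `g(∇φ, ∇φ)` scales by `k⁻¹`. -/
theorem gradSq_smul {k : ℝ} (hk : 0 < k) (g : Ten) (φ : Pt → ℝ) (p : Pt) :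
    gradSq (fun q => k • g q) φ p = k⁻¹ * gradSq g φ p := by
  unfold gradSq
  simp only [ScA_inv hk, Finset.mul_sum, mul_assoc]

private theorem ScA_normal {k : ℝ} (hk : 0 < k) (g : Ten) (φ : Pt → ℝ) (i : Fin 4) (p : Pt) :
    normal (fun q => k • g q) φ i p = (√k)⁻¹ * normal g φ i p := by
  have hk0 : k ≠ 0 := hk.ne'
  have hs : √k * √k = k := Real.mul_self_sqrt hk.le
  have hs0 : √k ≠ 0 := (Real.sqrt_pos.2 hk).ne'
  have hg : grad (fun q => k • g q) φ i p = k⁻¹ * grad g φ i p := by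
    unfold grad
    simp only [ScA_inv hk, Finset.mul_sum, mul_assoc]
  unfold normal
  have e3 : -(k⁻¹ * gradSq g φ p) = k⁻¹ * (-gradSq g φ p) := by ring
  rw [hg, gradSq_smul hk, e3, Real.sqrt_mul (inv_pos.2 hk).le, Real.sqrt_inv]
  have e : k⁻¹ = (√k)⁻¹ * (√k)⁻¹ := by
    rw [← mul_inv, hs]
  rw [e]
  have e4 : -((√k)⁻¹ * (√k)⁻¹ * grad g φ i p) = (√k)⁻¹ * ((√k)⁻¹ * (-grad g φ i p)) := by ring
  rw [e4, mul_div_mul_left _ _ (inv_ne_zero hs0), mul_div_assoc]

/-- The mean curvature scales by `k^{-1/2}`. -/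
theorem meanCurv_smul {k : ℝ} (hk : 0 < k) (g : Ten) (φ : Pt → ℝ) (p : Pt) :
    meanCurv (fun q => k • g q) φ p = (√k)⁻¹ * meanCurv g φ p := by
  have hk0 : k ≠ 0 := hk.ne'
  have e : ∀ i : Fin 4, (fun q => √|(k • g q).det| * normal (fun q => k • g q) φ i q) =
      fun q => (k ^ 2 * (√k)⁻¹) * (√|(g q).det| * normal g φ i q) := by
    intro i
    funext q
    rw [ScA_det hk, ScA_normal hk]
    ring
  unfold meanCurv
  simp only [e, ScA_pd]
  rw [← Finset.mul_sum, ScA_det hk, mul_inv]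
  have e2 : (k ^ 2)⁻¹ * k ^ 2 = 1 := inv_mul_cancel₀ (pow_ne_zero 2 hk0)
  calc (k ^ 2)⁻¹ * (√|(g p).det|)⁻¹ * (k ^ 2 * (√k)⁻¹ *
        ∑ i, pd i (fun q => √|(g q).det| * normal g φ i q) p)
      = ((k ^ 2)⁻¹ * k ^ 2) * ((√k)⁻¹ * ((√|(g p).det|)⁻¹ *
        ∑ i, pd i (fun q => √|(g q).det| * normal g φ i q) p)) := by ring
    _ = _ := by rw [e2, one_mul]

end GS
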