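import Pool.Agent.Lib.MP_898b37_mp.GS.Calc
import Pool.Agent.Lib.MP_898b37_mp.Mg.G001

open Real Set
open scoped NNReal

namespace GS

/-- The length density `F(t, θ) = f(t, cos θ) sin θ`, `f = e^a sin t`. -/
noncomputable def FF (f : ℝ → ℝ → ℝ) (t θ : ℝ) : ℝ := f t (cos θ) * sin θ

/-- `F_t/F`. -/
noncomputable def pF (f : ℝ → ℝ → ℝ) (t θ : ℝ) : ℝ := dt (FF f) t θ / FF f t θ

/-- `F_θ/F`. -/
noncomputable def qF (f : ℝ → ℝ → ℝ) (t θ : ℝ) : ℝ := dh (FF f) t θ / FF f t θ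

/-- The setting of the boundary value problem. -/
structure Setg (f : ℝ → ℝ → ℝ) (τm τp : ℝ → ℝ) (N c : ℝ) : Prop where
  sm : Sm univ f
  pos : ∀ t ∈ Ioo 0 π, ∀ ζ, 0 < f t ζ
  lipm : ∀ x ∈ Icc 0 π, ∀ y ∈ Icc 0 π, |τm x - τm y| ≤ |x - y|
  lipp : ∀ x ∈ Icc 0 π, ∀ y ∈ Icc 0 π, |τp x - τp y| ≤ |x - y|
  rng : ∀ x ∈ Icc 0 π, 0 < τm x ∧ τm x < τp x ∧ τp x < π
  hN : 0 ≤ N
  hc : 0 < c
  ft : ∀ x ∈ Icc 0 π, ∀ t ∈ Icc (τm x) (τp x), |dt f t (cos x)| ≤ N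
  fc : ∀ x ∈ Icc 0 π, ∀ t ∈ Icc (τm x) (τp x), c ≤ f t (cos x)

/-- Truncation to the region between the barriers. -/
noncomputable def clamp (τm τp : ℝ → ℝ) (θ x : ℝ) : ℝ := max (τm θ) (min (τp θ) x)

/-- The penalty term. -/
noncomputable def pen (N y : ℝ) : ℝ := max (-(N + 1)) (min (N + 1) ((N + 1) * y))

/-- The truncated and penalised equation for `(τ, w)`:
`τ' = w/√(F² + w²)`, `w' = -F_t F/√(F² + w²) + pen(τ - T)`, `F`, `F_t = f_t sin θ` taken at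
`(T, θ)`, `T = clamp τ`. -/
noncomputable def vf (f : ℝ → ℝ → ℝ) (τm τp : ℝ → ℝ) (N θ : ℝ) (z : ℝ × ℝ) : ℝ × ℝ :=
  let T := clamp τm τp θ z.1
  let F := FF f T θ
  (z.2 / √(F ^ 2 + z.2 ^ 2),
    -(dt f T (cos θ) * sin θ) * F / √(F ^ 2 + z.2 ^ 2) + pen N (z.1 - T))

theorem OdC_cont {τ : ℝ → ℝ} (h : ∀ x ∈ Icc 0 π, ∀ y ∈ Icc 0 π, |τ x - τ y| ≤ |x - y|) :
    ContinuousOn τ (Icc 0 π) := by
  have h1 : LipschitzOnWith 1 τ (Icc 0 π) := by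
    refine LipschitzOnWith.of_dist_le_mul fun x hx y hy => ?_
    rw [NNReal.coe_one, one_mul, Real.dist_eq, Real.dist_eq]
    exact h x hx y hy
  exact h1.continuousOn

theorem OdC_dt {f : ℝ → ℝ → ℝ} (sm : Sm univ f) {p : ℝ × ℝ} (hp : p ∈ Ioo 0 π ×ˢ (univ : Set ℝ)) :
    dt f p.1 p.2 = fderiv ℝ (Function.uncurry f) p (1, 0) := by
  have hopen : IsOpen (Ioo 0 π ×ˢ (univ : Set ℝ)) := isOpen_Ioo.prod isOpen_univ
  have h1 : DifferentiableAt ℝ (Function.uncurry f) p :=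
    (sm.contDiffAt (hopen.mem_nhds hp)).differentiableAt (by simp)
  have h2 : HasDerivAt (fun s : ℝ => ((s, p.2) : ℝ × ℝ)) ((1 : ℝ), (0 : ℝ)) p.1 :=
    (hasDerivAt_id p.1).prodMk (hasDerivAt_const p.1 p.2)
  have h3 := h1.hasFDerivAt.comp_hasDerivAt p.1 h2
  exact h3.deriv

theorem OdC_dt_cont {f : ℝ → ℝ → ℝ} (sm : Sm univ f) :
    ContinuousOn (fun p : ℝ × ℝ => dt f p.1 p.2) (Ioo 0 π ×ˢ (univ : Set ℝ)) := by
  have hopen : IsOpen (Ioo 0 π ×ˢ (univ : Set ℝ)) := isOpen_Ioo.prod isOpen_univ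
  have h1 : ContinuousOn (fderiv ℝ (Function.uncurry f)) (Ioo 0 π ×ˢ (univ : Set ℝ)) :=
    sm.continuousOn_fderiv_of_isOpen hopen (by simp)
  have h2 : ContinuousOn (fun p : ℝ × ℝ => fderiv ℝ (Function.uncurry f) p (1, 0))
      (Ioo 0 π ×ˢ (univ : Set ℝ)) := h1.clm_apply continuousOn_const
  exact h2.congr fun p hp => OdC_dt sm hp

/-- TASK OdC. Constants: a smooth positive `f` between two barriers has some `N`, `c`
(compactness of `{(t, ζ) : m₀ ≤ t ≤ M₀, ζ ∈ [-1, 1]}`, `0 < m₀ = min τm`, `M₀ = max τp < π`;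
`dt f` is continuous there). -/
theorem exists_Setg {f : ℝ → ℝ → ℝ} {τm τp : ℝ → ℝ} (sm : Sm univ f)
    (pos : ∀ t ∈ Ioo 0 π, ∀ ζ, 0 < f t ζ)
    (lipm : ∀ x ∈ Icc 0 π, ∀ y ∈ Icc 0 π, |τm x - τm y| ≤ |x - y|)
    (lipp : ∀ x ∈ Icc 0 π, ∀ y ∈ Icc 0 π, |τp x - τp y| ≤ |x - y|)
    (rng : ∀ x ∈ Icc 0 π, 0 < τm x ∧ τm x < τp x ∧ τp x < π) :
    ∃ N c, Setg f τm τp N c := by
  have hc0 : (0 : ℝ) ∈ Icc 0 π := ⟨le_rfl, pi_pos.le⟩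
  obtain ⟨x0, hx0, hmin⟩ := isCompact_Icc.exists_isMinOn ⟨0, hc0⟩ (OdC_cont lipm)
  obtain ⟨x1, hx1, hmax⟩ := isCompact_Icc.exists_isMaxOn ⟨0, hc0⟩ (OdC_cont lipp)
  have hm : ∀ x ∈ Icc 0 π, τm x0 ≤ τm x := fun x hx => hmin hx
  have hM : ∀ x ∈ Icc 0 π, τp x ≤ τp x1 := fun x hx => hmax hx
  have hm0 : 0 < τm x0 := (rng x0 hx0).1
  have hM0 : τp x1 < π := (rng x1 hx1).2.2
  set K : Set (ℝ × ℝ) := Icc (τm x0) (τp x1) ×ˢ Icc (-1) 1 with hK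
  have hKc : IsCompact K := isCompact_Icc.prod isCompact_Icc
  have hKsub : K ⊆ Ioo 0 π ×ˢ (univ : Set ℝ) := by
    rintro ⟨t, z⟩ ⟨ht, -⟩
    exact ⟨⟨hm0.trans_le ht.1, ht.2.trans_lt hM0⟩, mem_univ _⟩
  have hKmem : ∀ x ∈ Icc 0 π, ∀ t ∈ Icc (τm x) (τp x), (t, cos x) ∈ K := by
    intro x hx t ht
    exact ⟨⟨(hm x hx).trans ht.1, ht.2.trans (hM x hx)⟩, ⟨neg_one_le_cos x, cos_le_one x⟩⟩
  have hKne : K.Nonempty := ⟨(τm 0, cos 0), hKmem 0 hc0 _ ⟨le_rfl, (rng 0 hc0).2.1.le⟩⟩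
  obtain ⟨C, hC⟩ := hKc.exists_bound_of_continuousOn ((OdC_dt_cont sm).mono hKsub)
  have hfc : ContinuousOn (Function.uncurry f) K := sm.continuousOn.mono hKsub
  obtain ⟨q, hq, hqmin⟩ := hKc.exists_isMinOn hKne hfc
  refine ⟨max C 0, Function.uncurry f q, ?_⟩
  exact
    { sm := sm
      pos := pos
      lipm := lipm
      lipp := lipp
      rng := rng
      hN := le_max_right _ _
      hc := pos q.1 (hKsub hq).1 q.2
      ft := fun x hx t ht => (hC (t, cos x) (hKmem x hx t ht)).trans (le_max_left _ _)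
      fc := fun x hx t ht => hqmin (hKmem x hx t ht) }

theorem OdC_div (a w : ℝ) : |w / √(a ^ 2 + w ^ 2)| ≤ 1 := by
  rw [abs_div, abs_of_nonneg (Real.sqrt_nonneg _)]
  refine div_le_one_of_le₀ ?_ (Real.sqrt_nonneg _)
  exact Real.abs_le_sqrt (by nlinarith [sq_nonneg a])

theorem OdC_clamp {f : ℝ → ℝ → ℝ} {τm τp : ℝ → ℝ} {N c : ℝ} (S : Setg f τm τp N c) {θ : ℝ}
    (hθ : θ ∈ Icc 0 π) (x : ℝ) : clamp τm τp θ x ∈ Icc (τm θ) (τp θ) := by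
  have h1 := (S.rng θ hθ).2.1
  exact ⟨le_max_left _ _, max_le h1.le (min_le_left _ _)⟩

/-- The first term of the second component. -/
theorem OdC_first {f : ℝ → ℝ → ℝ} {τm τp : ℝ → ℝ} {N c : ℝ} (S : Setg f τm τp N c) {θ : ℝ}
    (hθ : θ ∈ Icc 0 π) (x w : ℝ) :
    |-(dt f (clamp τm τp θ x) (cos θ) * sin θ) * FF f (clamp τm τp θ x) θ /
      √(FF f (clamp τm τp θ x) θ ^ 2 + w ^ 2)| ≤ N := by
  set T := clamp τm τp θ x with hT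
  have h1 : |dt f T (cos θ)| ≤ N := S.ft θ hθ T (OdC_clamp S hθ x)
  have h2 : |FF f T θ / √(FF f T θ ^ 2 + w ^ 2)| ≤ 1 := by
    have h3 := OdC_div w (FF f T θ)
    rwa [add_comm] at h3
  have h3 : |sin θ| ≤ 1 := abs_sin_le_one θ
  have e : -(dt f T (cos θ) * sin θ) * FF f T θ / √(FF f T θ ^ 2 + w ^ 2) =
      -(dt f T (cos θ) * sin θ * (FF f T θ / √(FF f T θ ^ 2 + w ^ 2))) := by ring
  rw [e, abs_neg, abs_mul, abs_mul]
  calc |dt f T (cos θ)| * |sin θ| * |FF f T θ / √(FF f T θ ^ 2 + w ^ 2)|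
      ≤ N * 1 * 1 := by
        refine mul_le_mul (mul_le_mul h1 h3 (abs_nonneg _) S.hN) h2 (abs_nonneg _) ?_
        rw [mul_one]
        exact S.hN
    _ = N := by ring

/-- Elementary properties of the truncated field: `|v₁| ≤ 1` and the sign of `v₂` far out
(`|first term of v₂| ≤ N`, `pen = ±(N+1)` when `|τ - T| ≥ 1`; `T ∈ [τm, τp] ⊂ (0, π)`). -/
theorem vf_one {f : ℝ → ℝ → ℝ} {τm τp : ℝ → ℝ} {N c : ℝ} (S : Setg f τm τp N c) {θ : ℝ}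
    (hθ : θ ∈ Icc 0 π) (z : ℝ × ℝ) : |(vf f τm τp N θ z).1| ≤ 1 := by
  exact OdC_div _ _

theorem vf_pos {f : ℝ → ℝ → ℝ} {τm τp : ℝ → ℝ} {N c : ℝ} (S : Setg f τm τp N c) {θ : ℝ}
    (hθ : θ ∈ Icc 0 π) {x w : ℝ} (hx : π + 1 ≤ x) : 0 < (vf f τm τp N θ (x, w)).2 := by
  have h1 := OdC_clamp S hθ x
  have h2 := (S.rng θ hθ).2.2
  have h3 := OdC_first S hθ x w
  have h4 : pen N (x - clamp τm τp θ x) = N + 1 := by
    have h5 : 1 ≤ x - clamp τm τp θ x := by linarith [h1.2]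
    have h6 : N + 1 ≤ (N + 1) * (x - clamp τm τp θ x) := by nlinarith [S.hN]
    unfold pen
    rw [min_eq_left h6, max_eq_right (by linarith [S.hN])]
  change 0 < -(dt f (clamp τm τp θ x) (cos θ) * sin θ) * FF f (clamp τm τp θ x) θ /
      √(FF f (clamp τm τp θ x) θ ^ 2 + w ^ 2) + pen N (x - clamp τm τp θ x)
  rw [h4]
  have h7 := (abs_le.1 h3).1
  linarith

theorem vf_neg {f : ℝ → ℝ → ℝ} {τm τp : ℝ → ℝ} {N c : ℝ} (S : Setg f τm τp N c) {θ : ℝ}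
    (hθ : θ ∈ Icc 0 π) {x w : ℝ} (hx : x ≤ -1) : (vf f τm τp N θ (x, w)).2 < 0 := by
  have h1 := OdC_clamp S hθ x
  have h2 := (S.rng θ hθ).1
  have h3 := OdC_first S hθ x w
  have h4 : pen N (x - clamp τm τp θ x) = -(N + 1) := by
    have h5 : x - clamp τm τp θ x ≤ -1 := by linarith [h1.1]
    have h6 : (N + 1) * (x - clamp τm τp θ x) ≤ -(N + 1) := by nlinarith [S.hN]
    unfold pen
    rw [max_eq_left ((min_le_right _ _).trans h6)]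
  change -(dt f (clamp τm τp θ x) (cos θ) * sin θ) * FF f (clamp τm τp θ x) θ /
      √(FF f (clamp τm τp θ x) θ ^ 2 + w ^ 2) + pen N (x - clamp τm τp θ x) < 0
  rw [h4]
  have h7 := (abs_le.1 h3).2
  linarith

end GS
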