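import Pool.Agent.Lib.MP_898b37_mp.GS.Cls
import Pool.Agent.Lib.MP_898b37_mp.GS.Cls2
import Pool.Agent.Lib.MP_898b37_mp.GS.Geb

open Real Set
open scoped ContDiff Matrix

namespace GS

private theorem PoA_ax {c A s E : ℝ} (hc : 0 < c) (h : exp (2 * A) = (1 / 2) * c * s * E) :
    exp (2 * (A - (1 / 2) * log c)) = (1 / 2) * s * E := by
  have h1 : 2 * (A - (1 / 2) * log c) = 2 * A - log c := by ring
  rw [h1, exp_sub, exp_log hc, h]
  field_simp

private theorem PoA_exp {c A : ℝ} (hc : 0 < c) :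
    exp (2 * A) = c * exp (2 * (A - (1 / 2) * log c)) := by
  have h1 : 2 * (A - (1 / 2) * log c) = 2 * A - log c := by ring
  rw [h1, exp_sub, exp_log hc]
  field_simp

/-- The normalised metric data of `S` (potential zero): `a - (1/2) log c` instead of `a`. -/
noncomputable def Space.g0 (S : Space) : Gowdy where
  U := S.U
  W := S.W
  a := fun t ζ => S.a t ζ - (1 / 2) * log S.c
  α := fun _ _ => 0
  β := fun _ _ => 0
  smU := S.smU
  smW := S.smW
  sma := S.sma.sub contDiffOn_const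
  smα := contDiffOn_const
  smβ := contDiffOn_const
  axis0 := by
    intro t ht
    exact PoA_ax S.hc (S.axis0 t ht)
  axis1 := by
    intro t ht
    exact PoA_ax S.hc (S.axis1 t ht)

/-- TASK PoA. `S.met = c • (S.g0).met`. -/
theorem Space.met_smul (S : Space) (p : Pt) : S.met p = S.c • S.g0.met p := by
  have h1 := PoA_exp (A := S.a (p 0) (cos (p 1))) S.hc
  ext i j
  fin_cases i <;> fin_cases j <;> simp [Space.met, Gowdy.met, Space.g0]
  all_goals first
    | (rw [h1]; simp)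
    | ring
    | skip

/-- `√|det g| F^{01} = -e^{-2a} c sin t sin θ F_{01}` and `F^{10} = -F^{01}` on the chart
(`met_smul`, `met_eq`, `mPQ_inv`, `mPQ_det`; the inverse metric is block diagonal). -/
theorem Space.dens01 (S : Space) {p : Pt} (hp : p ∈ chartS) :
    √|(S.met p).det| * up S.met S.field 0 1 p =
      exp (-(2 * S.a (p 0) (cos (p 1)))) * S.c * sin (p 0) * sin (p 1) ^ 2 * S.f01 (p 0) (cos (p 1)) ∧
    up S.met S.field 1 0 p = -up S.met S.field 0 1 p ∧ up S.met S.field 0 0 p = 0 ∧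
    up S.met S.field 1 1 p = 0 := by
  have hc := S.hc
  have hch : p ∈ chart := hp
  have h0 : 0 < sin (p 0) := sin_pos_of_mem_Ioo hp.1
  have h1 : 0 < sin (p 1) := sin_pos_of_mem_Ioo hp.2
  have hR : 0 < sin (p 0) * sin (p 1) := mul_pos h0 h1
  have hM : S.met p = S.c • mPQ S.g0.as S.g0.P S.g0.Q p := by
    rw [S.met_smul, met_eq S.g0 hch]
  set M := mPQ S.g0.as S.g0.P S.g0.Q p with hMdef
  have hdet : M.det = -(exp (2 * S.g0.as (p 0) (p 1)) * (sin (p 0) * sin (p 1))) ^ 2 :=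
    mPQ_det _ _ _ p
  have hE : 0 < exp (2 * S.g0.as (p 0) (p 1)) := exp_pos _
  have hER : 0 < exp (2 * S.g0.as (p 0) (p 1)) * (sin (p 0) * sin (p 1)) := mul_pos hE hR
  have hunit : IsUnit M.det := by
    rw [hdet]
    exact (neg_ne_zero.2 (pow_ne_zero 2 hER.ne')).isUnit
  have hinv : (S.met p)⁻¹ = S.c⁻¹ • M⁻¹ := by
    rw [hM]
    apply Matrix.inv_eq_right_inv
    rw [Matrix.smul_mul, Matrix.mul_smul, smul_smul, mul_inv_cancel₀ hc.ne', one_smul,
      Matrix.mul_nonsing_inv _ hunit]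
  have hEE : exp (2 * S.a (p 0) (cos (p 1))) = S.c * exp (2 * S.g0.as (p 0) (p 1)) :=
    PoA_exp hc
  have hI := mPQ_inv S.g0.as S.g0.P S.g0.Q hch
  rw [← hMdef] at hI
  have i00 : (S.met p)⁻¹ 0 0 = -exp (-(2 * S.a (p 0) (cos (p 1)))) := by
    rw [hinv, hI, exp_neg (2 * S.a (p 0) (cos (p 1))), hEE]
    simp [exp_neg, mul_comm]
  have i11 : (S.met p)⁻¹ 1 1 = exp (-(2 * S.a (p 0) (cos (p 1)))) := by
    rw [hinv, hI, exp_neg (2 * S.a (p 0) (cos (p 1))), hEE]
    simp [exp_neg, mul_comm]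
  have i01 : (S.met p)⁻¹ 0 1 = 0 := by rw [hinv, hI]; simp
  have i02 : (S.met p)⁻¹ 0 2 = 0 := by rw [hinv, hI]; simp
  have i03 : (S.met p)⁻¹ 0 3 = 0 := by rw [hinv, hI]; simp
  have i10 : (S.met p)⁻¹ 1 0 = 0 := by rw [hinv, hI]; simp
  have i12 : (S.met p)⁻¹ 1 2 = 0 := by rw [hinv, hI]; simp
  have i13 : (S.met p)⁻¹ 1 3 = 0 := by rw [hinv, hI]; simp
  have F00 : S.field p 0 0 = 0 := by simp [Space.field]
  have F11 : S.field p 1 1 = 0 := by simp [Space.field]
  have F01 : S.field p 0 1 = -(sin (p 1) * S.f01 (p 0) (cos (p 1))) := by simp [Space.field]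
  have F10 : S.field p 1 0 = sin (p 1) * S.f01 (p 0) (cos (p 1)) := by simp [Space.field]
  have u01 : up S.met S.field 0 1 p = exp (-(2 * S.a (p 0) (cos (p 1)))) ^ 2 *
      (sin (p 1) * S.f01 (p 0) (cos (p 1))) := by
    simp only [up, Fin.sum_univ_four, i00, i01, i02, i03, i10, i11, i12, i13, F00, F01, F10, F11]
    ring
  have u10 : up S.met S.field 1 0 p = -(exp (-(2 * S.a (p 0) (cos (p 1)))) ^ 2 *
      (sin (p 1) * S.f01 (p 0) (cos (p 1)))) := by
    simp only [up, Fin.sum_univ_four, i00, i01, i02, i03, i10, i11, i12, i13, F00, F01, F10, F11]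
    ring
  have u00 : up S.met S.field 0 0 p = 0 := by
    simp only [up, Fin.sum_univ_four, i00, i01, i02, i03, i10, i11, i12, i13, F00, F01, F10, F11]
    ring
  have u11 : up S.met S.field 1 1 p = 0 := by
    simp only [up, Fin.sum_univ_four, i00, i01, i02, i03, i10, i11, i12, i13, F00, F01, F10, F11]
    ring
  have hdetS : √|(S.met p).det| = S.c * exp (2 * S.a (p 0) (cos (p 1))) *
      (sin (p 0) * sin (p 1)) := by
    have e1 : (S.met p).det = -(S.c * exp (2 * S.a (p 0) (cos (p 1))) *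
        (sin (p 0) * sin (p 1))) ^ 2 := by
      rw [hM, Matrix.det_smul, hdet, hEE]
      simp only [Fintype.card_fin]
      ring
    rw [e1, abs_neg, abs_of_nonneg (sq_nonneg _), Real.sqrt_sq]
    exact (mul_pos (mul_pos hc (exp_pos _)) hR).le
  refine ⟨?_, by rw [u10, u01], u00, u11⟩
  rw [hdetS, u01, exp_neg]
  have hne : exp (2 * S.a (p 0) (cos (p 1))) ≠ 0 := (exp_pos _).ne'
  field_simp

end GS
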