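import Pool.Agent.Lib.MP_898b37_mp.Mg.G010

open Real Set

namespace GS

/-- TASK Reb. Transport identity for `B` (checked numerically, sources included):
`B_t - B_θ = -(1/4) sin (t + θ) (P_t² - P_θ² + e^{2P}(Q_t² - Q_θ²))`.

Proof. As for `A` (file Rea) along the line `(t + s, θ - s)` (`C1.line` with `c = 1`, `d = -1`): `P_t + P_θ` has
derivative `P_tt - P_θθ`, `P` has `P_t - P_θ`, `D_t + D_θ = (y_t + y_θ) - Q (x_t + x_θ)` has derivative
`(y_tt - y_θθ) - (Q_t - Q_θ)(x_t + x_θ) - Q (x_tt - x_θθ)`, `R` has `cos t sin θ - sin t cos θ`;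
`sin (t + θ) = sin t cos θ + cos t sin θ`. -/
theorem Red.transB {a P Q x y : ℝ → ℝ → ℝ} (h : Red a P Q x y) {t θ : ℝ} (ht : t ∈ Ioo 0 π)
    (hθ : θ ∈ Ioo 0 π) : dt (BB P Q x y) t θ - dh (BB P Q x y) t θ =
      -(sin (t + θ) / 4) * ((dt P t θ ^ 2 - dh P t θ ^ 2)
        + exp (2 * P t θ) * (dt Q t θ ^ 2 - dh Q t θ ^ 2)) := by
  have o : IsOpen (Ioo (0 : ℝ) π) := isOpen_Ioo
  have L : ∀ {f : ℝ → ℝ → ℝ}, Sm (Ioo 0 π) f →
      HasDerivAt (fun s => f (t + s) (θ + -1 * s)) (dt f t θ - dh f t θ) 0 := by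
    intro f hf
    have h0 := hf.c1.line isOpen_Ioo ht hθ 1 (-1)
    have h1 : 1 * dt f t θ + -1 * dh f t θ = dt f t θ - dh f t θ := by ring
    rw [h1] at h0
    simpa only [one_mul] using h0
  have dS : HasDerivAt (fun s => sin (t + s)) (cos t) 0 := by
    have := ((hasDerivAt_id (0 : ℝ)).const_add t).sin
    simpa using this
  have ds : HasDerivAt (fun s => sin (θ + -1 * s)) (-cos θ) 0 := by
    have := (((hasDerivAt_id (0 : ℝ)).const_mul (-1)).const_add θ).sin
    simpa using this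
  have LP := L h.sP
  have LPt := L (h.sP.dt o)
  have LPh := L (h.sP.dh o)
  have LQ := L h.sQ
  have LQt := L (h.sQ.dt o)
  have LQh := L (h.sQ.dh o)
  have Lxt := L (h.sx.dt o)
  have Lxh := L (h.sx.dh o)
  have Lyt := L (h.sy.dt o)
  have Lyh := L (h.sy.dh o)
  have h1 := L (sm_BB h.sP h.sQ h.sx h.sy)
  have h2 := (((((dS.fun_mul ds).div_const 4).fun_mul
    (((LPt.fun_add LPh).fun_pow 2).fun_add
      (((LP.const_mul 2).exp).fun_mul ((LQt.fun_add LQh).fun_pow 2)))).fun_add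
    ((LP.fun_neg.exp).fun_mul ((Lxt.fun_add Lxh).fun_pow 2))).fun_add
    (LP.exp.fun_mul (((Lyt.fun_sub (LQ.fun_mul Lxt)).fun_add
      (Lyh.fun_sub (LQ.fun_mul Lxh))).fun_pow 2)))
  have h3 := HasDerivAt.unique h1 h2
  have cP := h.sP.comm o ht hθ
  have cQ := h.sQ.comm o ht hθ
  have cx := h.sx.comm o ht hθ
  have cy := h.sy.comm o ht hθ
  have eP := h.eP t ht θ hθ
  have eQ := h.eQ t ht θ hθ
  have ey := h.ey t ht θ hθ
  have ex := h.ex t ht θ hθ
  have e2 : exp (2 * P t θ) = exp (P t θ) ^ 2 := by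
    rw [two_mul, Real.exp_add, sq]
  have ei : exp (-P t θ) * exp (P t θ) = 1 := by
    rw [← Real.exp_add, neg_add_cancel, Real.exp_zero]
  rw [h3]
  simp only [add_zero, mul_zero, e2, sin_add, Det, Deh, Nat.cast_ofNat, Nat.add_one_sub_one,
    pow_one, cP, cQ, cx, cy] at eP eQ ey ex ⊢
  generalize exp (-P t θ) = Ei at *
  generalize exp (P t θ) = E at *
  generalize dt (dt P) t θ = Ptt at *
  generalize dh (dh P) t θ = Phh at *
  generalize dh (dt P) t θ = Pth at *
  generalize dt (dt Q) t θ = Qtt at *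
  generalize dh (dh Q) t θ = Qhh at *
  generalize dh (dt Q) t θ = Qth at *
  generalize dt (dt x) t θ = xtt at *
  generalize dh (dh x) t θ = xhh at *
  generalize dh (dt x) t θ = xth at *
  generalize dt (dt y) t θ = ytt at *
  generalize dh (dh y) t θ = yhh at *
  generalize dh (dt y) t θ = yth at *
  generalize dt P t θ = Pt at *
  generalize dh P t θ = Ph at *
  generalize dt Q t θ = Qt at *
  generalize dh Q t θ = Qh at *
  generalize dt x t θ = xt at *
  generalize dh x t θ = xh at *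
  generalize dt y t θ = yt at *
  generalize dh y t θ = yh at *
  generalize Q t θ = Q0 at *
  generalize sin t = S at *
  generalize cos t = C at *
  generalize sin θ = s at *
  generalize cos θ = c at *
  clear h1 h2 h3 LP LPt LPh LQ LQt LQh Lxt Lxh Lyt Lyh L dS ds
  linear_combination (Pt + Ph) / 2 * eP + E ^ 2 * (Qt + Qh) / 2 * eQ + 2 * Ei * (xt + xh) * ex
    + 2 * E * ((yt - Q0 * xt) + (yh - Q0 * xh)) * ey
    + 2 * E * ((Qt + Qh) * (xh * (yh - Q0 * xh) - xt * (yt - Q0 * xt))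
      + (xt + xh) * (Qt * (yt - Q0 * xt) - Qh * (yh - Q0 * xh))) * ei

end GS
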