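import Pool.Agent.Lib.MP_898b37_mp.Mg.G010

open Real Set

namespace GS

private theorem Rei_dt_eq {f g : ℝ → ℝ → ℝ}
    (h : ∀ t ∈ Ioo 0 π, ∀ θ ∈ Ioo 0 π, f t θ = g t θ) {t θ : ℝ} (ht : t ∈ Ioo 0 π)
    (hθ : θ ∈ Ioo 0 π) : dt f t θ = dt g t θ := by
  unfold dt
  apply Filter.EventuallyEq.deriv_eq
  filter_upwards [isOpen_Ioo.mem_nhds ht] with s hs
  exact h s hs θ hθ

private theorem Rei_dh_eq {f g : ℝ → ℝ → ℝ}
    (h : ∀ t ∈ Ioo 0 π, ∀ θ ∈ Ioo 0 π, f t θ = g t θ) {t θ : ℝ} (ht : t ∈ Ioo 0 π)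
    (hθ : θ ∈ Ioo 0 π) : dh f t θ = dh g t θ := by
  unfold dh
  apply Filter.EventuallyEq.deriv_eq
  filter_upwards [isOpen_Ioo.mem_nhds hθ] with s hs
  exact h t ht s hs

private theorem Rei_cont {f : ℝ → ℝ → ℝ} (hf : Sm univ f) {t : ℝ} (ht : t ∈ Ioo 0 π) :
    Continuous (fun θ => f t θ) := by
  have h1 : ContinuousOn (Function.uncurry f) (Ioo 0 π ×ˢ univ) := hf.continuousOn
  have h2 : ContinuousOn (fun θ : ℝ => ((t, θ) : ℝ × ℝ)) univ := by fun_prop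
  have h3 : ContinuousOn (fun θ => Function.uncurry f (t, θ)) univ :=
    h1.comp h2 (fun θ _ => ⟨ht, mem_univ _⟩)
  exact continuousOn_univ.mp h3

private theorem Rei_core {c S s E a b p q X Y : ℝ} (hS : 0 < S) (hs : 0 ≤ s) (hE : 0 ≤ E)
    (hX : 0 ≤ X) (hY : 0 ≤ Y) :
    |-(c * s / 2) * ((a ^ 2 - b ^ 2) + E * (p ^ 2 - q ^ 2))| ≤
      |c / S| * ((S * s / 4 * ((a - b) ^ 2 + E * (p - q) ^ 2) + X)
        + (S * s / 4 * ((a + b) ^ 2 + E * (p + q) ^ 2) + Y)) := by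
  have h1 : |(a ^ 2 - b ^ 2) + E * (p ^ 2 - q ^ 2)| ≤
      (a ^ 2 + b ^ 2) + E * (p ^ 2 + q ^ 2) := by
    rw [abs_le]
    constructor
    · nlinarith [sq_nonneg a, sq_nonneg b, mul_nonneg hE (sq_nonneg p), mul_nonneg hE (sq_nonneg q)]
    · nlinarith [sq_nonneg a, sq_nonneg b, mul_nonneg hE (sq_nonneg p), mul_nonneg hE (sq_nonneg q)]
  have h2 : |-(c * s / 2) * ((a ^ 2 - b ^ 2) + E * (p ^ 2 - q ^ 2))| =
      |c| * (s / 2) * |(a ^ 2 - b ^ 2) + E * (p ^ 2 - q ^ 2)| := by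
    rw [abs_mul, abs_neg]
    congr 1
    rw [mul_div_assoc, abs_mul, abs_of_nonneg (by positivity : (0 : ℝ) ≤ s / 2)]
  have h3 : |c / S| * (S * (s / 2)) = |c| * (s / 2) := by
    rw [abs_div, abs_of_pos hS]
    field_simp
  rw [h2]
  have h4 : |c / S| * ((S * s / 4 * ((a - b) ^ 2 + E * (p - q) ^ 2) + X)
        + (S * s / 4 * ((a + b) ^ 2 + E * (p + q) ^ 2) + Y)) =
      |c / S| * (S * (s / 2)) * ((a ^ 2 + b ^ 2) + E * (p ^ 2 + q ^ 2)) + |c / S| * (X + Y) := by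
    ring
  rw [h4, h3]
  have h5 : 0 ≤ |c / S| * (X + Y) := by positivity
  have h6 : |c| * (s / 2) * |(a ^ 2 - b ^ 2) + E * (p ^ 2 - q ^ 2)| ≤
      |c| * (s / 2) * ((a ^ 2 + b ^ 2) + E * (p ^ 2 + q ^ 2)) :=
    mul_le_mul_of_nonneg_left h1 (by positivity)
  linarith

private theorem Rei_sq (G : Gowdy) (h : Red G.as G.P G.Q G.x G.y) {t θ : ℝ} (ht : t ∈ Ioo 0 π)
    (hθ : θ ∈ Ioo 0 π) :
    |(dt (G.rg 1) t θ + dt (G.rg (-1)) t θ) - (dh (G.rg (-1)) t θ - dh (G.rg 1) t θ)| ≤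
      |cos t / sin t| * (G.rg 1 t θ + G.rg (-1) t θ) := by
  have hA : ∀ t ∈ Ioo 0 π, ∀ θ ∈ Ioo 0 π, AU G.Us G.P G.Q G.x G.y t θ = G.rg 1 t θ :=
    fun t ht θ hθ => AU_eq_rg G ht hθ
  have hB : ∀ t ∈ Ioo 0 π, ∀ θ ∈ Ioo 0 π, BU G.Us G.P G.Q G.x G.y t θ = G.rg (-1) t θ :=
    fun t ht θ hθ => BU_eq_rg G ht hθ
  rw [← Rei_dt_eq hA ht hθ, ← Rei_dt_eq hB ht hθ, ← Rei_dh_eq hA ht hθ, ← Rei_dh_eq hB ht hθ,
    ← hA t ht θ hθ, ← hB t ht θ hθ,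
    Red.energy h (Sm.mono (subset_univ _) G.sUs) (fun t _ θ _ => rfl) ht hθ]
  have hS : 0 < sin t := sin_pos_of_mem_Ioo ht
  have hs : 0 < sin θ := sin_pos_of_mem_Ioo hθ
  have hX : 0 ≤ exp (-G.P t θ) * (dt G.x t θ - dh G.x t θ) ^ 2
      + exp (G.P t θ) * (Det G.Q G.x G.y t θ - Deh G.Q G.x G.y t θ) ^ 2 := by positivity
  have hY : 0 ≤ exp (-G.P t θ) * (dt G.x t θ + dh G.x t θ) ^ 2
      + exp (G.P t θ) * (Det G.Q G.x G.y t θ + Deh G.Q G.x G.y t θ) ^ 2 := by positivity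
  have hc := Rei_core (c := cos t) (S := sin t) (s := sin θ) (E := exp (2 * G.P t θ))
    (a := dt G.Us t θ) (b := dh G.Us t θ) (p := dt G.Q t θ) (q := dh G.Q t θ)
    hS hs.le (exp_pos _).le hX hY
  have e1 : AU G.Us G.P G.Q G.x G.y t θ = sin t * sin θ / 4 * ((dt G.Us t θ - dh G.Us t θ) ^ 2
      + exp (2 * G.P t θ) * (dt G.Q t θ - dh G.Q t θ) ^ 2)
      + (exp (-G.P t θ) * (dt G.x t θ - dh G.x t θ) ^ 2
      + exp (G.P t θ) * (Det G.Q G.x G.y t θ - Deh G.Q G.x G.y t θ) ^ 2) := by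
    unfold AU; ring
  have e2 : BU G.Us G.P G.Q G.x G.y t θ = sin t * sin θ / 4 * ((dt G.Us t θ + dh G.Us t θ) ^ 2
      + exp (2 * G.P t θ) * (dt G.Q t θ + dh G.Q t θ) ^ 2)
      + (exp (-G.P t θ) * (dt G.x t θ + dh G.x t θ) ^ 2
      + exp (G.P t θ) * (Det G.Q G.x G.y t θ + Deh G.Q G.x G.y t θ) ^ 2) := by
    unfold BU; ring
  rw [e1, e2]
  exact hc

/-- TASK Rei. The energy inequality up to the axes:
`|(At_t + Bt_t) - (Bt_θ - At_θ)| ≤ |cos t/sin t| (At + Bt)` for `θ ∈ [0, π]`, `At = rg 1`, `Bt = rg (-1)`.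

Proof. On the square `rg 1 = AU`, `rg (-1) = BU` (open set, so the derivatives agree), `Red.energy` gives
`-(1/2) cos t sin θ (U_t² - U_θ² + e^{2P}(Q_t² - Q_θ²))`, whose absolute value is at most
`|cos t/sin t| (R/2)(U_t² + U_θ² + e^{2P}(Q_t² + Q_θ²)) ≤ |cos t/sin t| (AU + BU)`. Both sides of the
inequality are continuous in `θ ∈ ℝ` (`sm_rg`), so it extends to `θ = 0, π`. -/
theorem Gowdy.en (G : Gowdy) (h : Red G.as G.P G.Q G.x G.y) {t θ : ℝ} (ht : t ∈ Ioo 0 π)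
    (hθ : θ ∈ Icc 0 π) :
    |(dt (G.rg 1) t θ + dt (G.rg (-1)) t θ) - (dh (G.rg (-1)) t θ - dh (G.rg 1) t θ)| ≤
      |cos t / sin t| * (G.rg 1 t θ + G.rg (-1) t θ) := by
  have c1 := Rei_cont (sm_rg G 1) ht
  have c2 := Rei_cont (sm_rg G (-1)) ht
  have c3 := Rei_cont (Sm.dt isOpen_univ (sm_rg G 1)) ht
  have c4 := Rei_cont (Sm.dt isOpen_univ (sm_rg G (-1))) ht
  have c5 := Rei_cont (Sm.dh isOpen_univ (sm_rg G 1)) ht
  have c6 := Rei_cont (Sm.dh isOpen_univ (sm_rg G (-1))) ht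
  have hcl : IsClosed {θ : ℝ | |(dt (G.rg 1) t θ + dt (G.rg (-1)) t θ)
      - (dh (G.rg (-1)) t θ - dh (G.rg 1) t θ)| ≤
      |cos t / sin t| * (G.rg 1 t θ + G.rg (-1) t θ)} :=
    isClosed_le ((c3.add c4).sub (c6.sub c5)).abs (continuous_const.mul (c1.add c2))
  have hsub : closure (Ioo 0 π) ⊆ {θ : ℝ | |(dt (G.rg 1) t θ + dt (G.rg (-1)) t θ)
      - (dh (G.rg (-1)) t θ - dh (G.rg 1) t θ)| ≤
      |cos t / sin t| * (G.rg 1 t θ + G.rg (-1) t θ)} :=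
    closure_minimal (fun θ hθ => Rei_sq G h ht hθ) hcl
  rw [closure_Ioo pi_pos.ne] at hsub
  exact hsub hθ

end GS
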