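import Pool.Agent.Lib.MP_898b37_mp.GS.Dat
import Pool.Agent.Lib.MP_898b37_mp.GS.OdC
import Pool.Agent.Lib.MP_898b37_mp.GS.Reb
import Pool.Agent.Lib.MP_898b37_mp.GS.Rei

open Real Set

namespace GS

/-- The density `f = e^a sin t` of a Gowdy spacetime. -/
noncomputable def Gowdy.f (G : Gowdy) (t ζ : ℝ) : ℝ := exp (G.a t ζ) * sin t

theorem Gowdy.sf (G : Gowdy) : Sm univ G.f :=
  Sm.mul (Sm.exp G.sma) (Sm.fst univ contDiff_sin)

theorem Gowdy.f_pos (G : Gowdy) {t : ℝ} (ht : t ∈ Ioo 0 π) (ζ : ℝ) : 0 < G.f t ζ :=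
  mul_pos (exp_pos _) (sin_pos_of_mem_Ioo ht)

private theorem Rej_hasDt {f : ℝ → ℝ → ℝ} (hf : Sm univ f) {t : ℝ} (ht : t ∈ Ioo 0 π) (θ : ℝ) :
    HasDerivAt (fun s => f s θ) (dt f t θ) t := C1.hasDt isOpen_univ hf.c1 ht (mem_univ θ)

private theorem Rej_hasDh {f : ℝ → ℝ → ℝ} (hf : Sm univ f) {t : ℝ} (ht : t ∈ Ioo 0 π) (θ : ℝ) :
    HasDerivAt (fun s => f t s) (dh f t θ) θ := C1.hasDh isOpen_univ hf.c1 ht (mem_univ θ)

/-- `p = a_t + cos t/sin t`, `q = a_θ + cos θ/sin θ` on the square (`FF G.f t θ = e^a sin t sin θ`). -/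
theorem Gowdy.p_eq (G : Gowdy) {t θ : ℝ} (ht : t ∈ Ioo 0 π) (hθ : θ ∈ Ioo 0 π) :
    pF G.f t θ = dt G.as t θ + cos t / sin t ∧ qF G.f t θ = dh G.as t θ + cos θ / sin θ := by
  have h1 := (sin_pos_of_mem_Ioo ht).ne'
  have h2 := (sin_pos_of_mem_Ioo hθ).ne'
  have h3 := (exp_pos (G.as t θ)).ne'
  have e0 : FF G.f t θ = exp (G.as t θ) * sin t * sin θ := rfl
  have d1 : HasDerivAt (fun s => FF G.f s θ)
      ((exp (G.as t θ) * dt G.as t θ * sin t + exp (G.as t θ) * cos t) * sin θ) t :=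
    (((Rej_hasDt G.sas ht θ).exp.mul (hasDerivAt_sin t)).mul_const (sin θ))
  have d2 : HasDerivAt (fun s => FF G.f t s)
      (exp (G.as t θ) * dh G.as t θ * sin t * sin θ + exp (G.as t θ) * sin t * cos θ) θ :=
    (((Rej_hasDh G.sas ht θ).exp.mul_const (sin t)).mul (hasDerivAt_sin θ))
  have e1 : dt (FF G.f) t θ = _ := d1.deriv
  have e2 : dh (FF G.f) t θ = _ := d2.deriv
  constructor
  · unfold pF
    rw [e1, e0]
    field_simp
  · unfold qF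
    rw [e2, e0]
    field_simp

private theorem Rej_dP (G : Gowdy) {t θ : ℝ} (ht : t ∈ Ioo 0 π) (hθ : θ ∈ Ioo 0 π) :
    dt G.P t θ = dt G.Us t θ ∧ dh G.P t θ = dh G.Us t θ + 1 / sin θ := by
  have h2 := sin_pos_of_mem_Ioo hθ
  have d1 := (Rej_hasDt G.sUs ht θ).const_add (log ((1 - cos θ) / sin θ))
  have hc : cos θ < 1 := by
    rcases (cos_le_one θ).lt_or_eq with h | h
    · exact h
    · have h3 := sin_sq_add_cos_sq θ
      rw [h] at h3
      nlinarith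
  have h4 : (0:ℝ) < 1 - cos θ := by linarith
  have d3 : HasDerivAt (fun s => (1 - cos s) / sin s)
      ((sin θ * sin θ - (1 - cos θ) * cos θ) / sin θ ^ 2) θ := by
    have d4 : HasDerivAt (fun s => 1 - cos s) (sin θ) θ := by
      simpa using (hasDerivAt_cos θ).const_sub 1
    exact d4.div (hasDerivAt_sin θ) h2.ne'
  have d5 := (d3.log (div_pos h4 h2).ne').add (Rej_hasDh G.sUs ht θ)
  have e1 : dt G.P t θ = dt G.Us t θ := d1.deriv
  have e2 : dh G.P t θ = _ := d5.deriv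
  refine ⟨e1, ?_⟩
  rw [e2]
  have h5 := sin_sq_add_cos_sq θ
  have h6 : (sin θ * sin θ - (1 - cos θ) * cos θ) / sin θ ^ 2 / ((1 - cos θ) / sin θ) = 1 / sin θ := by
    have h7 : sin θ * sin θ - (1 - cos θ) * cos θ = 1 - cos θ := by nlinarith
    rw [h7]
    field_simp
  rw [h6]
  ring

private theorem Rej_nn {P Q x y : ℝ → ℝ → ℝ} {t θ : ℝ} (ht : t ∈ Ioo 0 π) (hθ : θ ∈ Ioo 0 π) :
    sin t * sin θ / 4 * ((dt P t θ - dh P t θ) ^ 2 + exp (2 * P t θ) * (dt Q t θ - dh Q t θ) ^ 2) ≤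
      AA P Q x y t θ ∧
    sin t * sin θ / 4 * ((dt P t θ + dh P t θ) ^ 2 + exp (2 * P t θ) * (dt Q t θ + dh Q t θ) ^ 2) ≤
      BB P Q x y t θ := by
  constructor
  · unfold AA
    have h1 : 0 ≤ exp (-P t θ) * (dt x t θ - dh x t θ) ^ 2 := by positivity
    have h2 : 0 ≤ exp (P t θ) * (Det Q x y t θ - Deh Q x y t θ) ^ 2 := by positivity
    linarith
  · unfold BB
    have h1 : 0 ≤ exp (-P t θ) * (dt x t θ + dh x t θ) ^ 2 := by positivity
    have h2 : 0 ≤ exp (P t θ) * (Det Q x y t θ + Deh Q x y t θ) ^ 2 := by positivity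
    linarith

private theorem Rej_cs {r E a1 a2 b1 b2 A B : ℝ} (hr : 0 < r) (hE : 0 < E)
    (hA : r / 4 * (a1 ^ 2 + E * a2 ^ 2) ≤ A) (hB : r / 4 * (b1 ^ 2 + E * b2 ^ 2) ≤ B) :
    |a1 * b1 + E * (a2 * b2)| / 4 ≤ √(A * B) / r := by
  have hA0 : 0 ≤ a1 ^ 2 + E * a2 ^ 2 := by positivity
  have hB0 : 0 ≤ b1 ^ 2 + E * b2 ^ 2 := by positivity
  have hA1 : 0 ≤ r / 4 * (a1 ^ 2 + E * a2 ^ 2) := by positivity
  have hB1 : 0 ≤ r / 4 * (b1 ^ 2 + E * b2 ^ 2) := by positivity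
  have h1 : (a1 * b1 + E * (a2 * b2)) ^ 2 ≤ (a1 ^ 2 + E * a2 ^ 2) * (b1 ^ 2 + E * b2 ^ 2) := by
    have : 0 ≤ E * (a1 * b2 - a2 * b1) ^ 2 := by positivity
    nlinarith
  have h2 : (r / 4 * |a1 * b1 + E * (a2 * b2)|) ^ 2 ≤ A * B := by
    rw [mul_pow, sq_abs]
    calc (r / 4) ^ 2 * (a1 * b1 + E * (a2 * b2)) ^ 2
        ≤ (r / 4) ^ 2 * ((a1 ^ 2 + E * a2 ^ 2) * (b1 ^ 2 + E * b2 ^ 2)) :=
          mul_le_mul_of_nonneg_left h1 (by positivity)
      _ = (r / 4 * (a1 ^ 2 + E * a2 ^ 2)) * (r / 4 * (b1 ^ 2 + E * b2 ^ 2)) := by ring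
      _ ≤ A * B := mul_le_mul hA hB hB1 (hA1.trans hA)
  have h3 : r / 4 * |a1 * b1 + E * (a2 * b2)| ≤ √(A * B) := Real.le_sqrt_of_sq_le h2
  rw [le_div_iff₀ hr]
  linarith

/-- TASK Rej. The package of a solution: `p = pF G.f`, `q = qF G.f`, `A = AA`, `B = BB`, `At = rg 1`,
`Bt = rg (-1)`.

Proof. `leA`: `P_t = U_t`, `P_θ = U_θ + 1/sin θ`, `(P_t - P_θ)² ≤ 2 (U_t - U_θ)² + 2/sin² θ`, so
`AA ≤ 2 AU + R/(2 sin²θ)`. `trA`, `trB`: `Red.transA`, `Red.transB` and Cauchy-Schwarz: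
`(1/4)|P_t² - P_θ² + e^{2P}(Q_t² - Q_θ²)| = |⟨Φ_t - Φ_θ, Φ_t + Φ_θ⟩|/4 ≤ √(A B)/R` because
`R |Φ_t - Φ_θ|²/4 ≤ A`, `R |Φ_t + Φ_θ|²/4 ≤ B`. `en`: `Gowdy.en`. `cu`: `Red.cu` and
`p - q = (a_t - a_θ) + cos t/sin t - cos θ/sin θ`, `R (cot t - cot θ) = -sin (t - θ)`, so
`sin u (p - q) = cos u + sin²u/(4R) - A - sin² u/R`; `cv` in the same way
(`R (cot t + cot θ) = sin (t + θ)`). -/
theorem Gowdy.exists_dat (G : Gowdy) (h : Red G.as G.P G.Q G.x G.y) :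
    ∃ D : Dat, D.p = pF G.f ∧ D.q = qF G.f := by
  have hopen : IsOpen (Ioo 0 π) := isOpen_Ioo
  have hsub : Ioo 0 π ⊆ (univ : Set ℝ) := subset_univ _
  have sinne : ∀ t ∈ Ioo 0 π, sin t ≠ 0 := fun t ht => (sin_pos_of_mem_Ioo ht).ne'
  have hcp : Sm (Ioo 0 π) (pF G.f) := by
    have h1 : Sm (Ioo 0 π) (fun t θ => dt G.as t θ + cos t / sin t) :=
      ((G.sas.mono hsub).dt hopen).add
        ((Sm.fst (Ioo 0 π) contDiff_cos).div (Sm.fst (Ioo 0 π) contDiff_sin) fun t ht _ _ => sinne t ht)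
    exact h1.congr fun t ht θ hθ => (G.p_eq ht hθ).1
  have hcq : Sm (Ioo 0 π) (qF G.f) := by
    have h1 : Sm (Ioo 0 π) (fun t θ => dh G.as t θ + cos θ / sin θ) :=
      ((G.sas.mono hsub).dh hopen).add
        ((Sm.snd (Ioo 0 π) contDiff_cos).div (Sm.snd (Ioo 0 π) contDiff_sin) fun _ _ θ hθ => sinne θ hθ)
    exact h1.congr fun t ht θ hθ => (G.p_eq ht hθ).2
  have hcs : ∀ t ∈ Ioo 0 π, ∀ θ ∈ Ioo 0 π,
      |(dt G.P t θ ^ 2 - dh G.P t θ ^ 2) + exp (2 * G.P t θ) * (dt G.Q t θ ^ 2 - dh G.Q t θ ^ 2)| / 4 ≤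
        √(AA G.P G.Q G.x G.y t θ * BB G.P G.Q G.x G.y t θ) / (sin t * sin θ) := by
    intro t ht θ hθ
    have hr : 0 < sin t * sin θ := mul_pos (sin_pos_of_mem_Ioo ht) (sin_pos_of_mem_Ioo hθ)
    obtain ⟨h1, h2⟩ := Rej_nn (P := G.P) (Q := G.Q) (x := G.x) (y := G.y) ht hθ
    have h3 := Rej_cs hr (exp_pos (2 * G.P t θ)) h1 h2
    have h4 : (dt G.P t θ - dh G.P t θ) * (dt G.P t θ + dh G.P t θ) +
        exp (2 * G.P t θ) * ((dt G.Q t θ - dh G.Q t θ) * (dt G.Q t θ + dh G.Q t θ)) =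
        (dt G.P t θ ^ 2 - dh G.P t θ ^ 2) + exp (2 * G.P t θ) * (dt G.Q t θ ^ 2 - dh G.Q t θ ^ 2) := by ring
    rw [h4] at h3
    exact h3
  have hnA : ∀ t ∈ Ioo 0 π, ∀ θ ∈ Ioo 0 π, 0 ≤ AA G.P G.Q G.x G.y t θ := by
    intro t ht θ hθ
    have hr : 0 < sin t * sin θ := mul_pos (sin_pos_of_mem_Ioo ht) (sin_pos_of_mem_Ioo hθ)
    refine le_trans ?_ (Rej_nn (P := G.P) (Q := G.Q) (x := G.x) (y := G.y) ht hθ).1
    positivity
  have hnB : ∀ t ∈ Ioo 0 π, ∀ θ ∈ Ioo 0 π, 0 ≤ BB G.P G.Q G.x G.y t θ := by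
    intro t ht θ hθ
    have hr : 0 < sin t * sin θ := mul_pos (sin_pos_of_mem_Ioo ht) (sin_pos_of_mem_Ioo hθ)
    refine le_trans ?_ (Rej_nn (P := G.P) (Q := G.Q) (x := G.x) (y := G.y) ht hθ).2
    positivity
  refine ⟨{ p := pF G.f
            q := qF G.f
            A := AA G.P G.Q G.x G.y
            B := BB G.P G.Q G.x G.y
            At := G.rg 1
            Bt := G.rg (-1)
            cp := hcp.c1
            cq := hcq.c1
            cA := (sm_AA h.sP h.sQ h.sx h.sy).c1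
            cB := (sm_BB h.sP h.sQ h.sx h.sy).c1
            cAt := (sm_rg G 1).c1
            cBt := (sm_rg G (-1)).c1
            nA := hnA
            nB := hnB
            nAt := fun t ht θ hθ => rg_nonneg G (Or.inl rfl) ht hθ
            nBt := fun t ht θ hθ => rg_nonneg G (Or.inr rfl) ht hθ
            leA := ?_
            leB := ?_
            trA := ?_
            trB := ?_
            en := fun t ht θ hθ => G.en h ht hθ
            ax0 := fun t _ => by rw [(rg_axis G 1 t).1, (rg_axis G (-1) t).1]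
            ax1 := fun t _ => by rw [(rg_axis G 1 t).2, (rg_axis G (-1) t).2]
            cu := ?_
            cv := ?_ }, rfl, rfl⟩
  · intro t ht θ hθ
    rw [← AU_eq_rg G ht hθ]
    obtain ⟨e1, e2⟩ := Rej_dP G ht hθ
    have h1 := sin_pos_of_mem_Ioo ht
    have h2 := sin_pos_of_mem_Ioo hθ
    have h3 : sin t / (2 * sin θ) = sin t * sin θ / 4 * (2 * (1 / sin θ) ^ 2) := by
      field_simp
      ring
    rw [h3]
    unfold AA AU
    rw [e1, e2]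
    have k1 : 0 ≤ exp (-G.P t θ) * (dt G.x t θ - dh G.x t θ) ^ 2 := by positivity
    have k2 : 0 ≤ exp (G.P t θ) * (Det G.Q G.x G.y t θ - Deh G.Q G.x G.y t θ) ^ 2 := by positivity
    have k3 : 0 ≤ sin t * sin θ / 4 * (exp (2 * G.P t θ) * (dt G.Q t θ - dh G.Q t θ) ^ 2) := by positivity
    have k4 : 0 ≤ sin t * sin θ / 4 * (dt G.Us t θ - dh G.Us t θ + 1 / sin θ) ^ 2 := by positivity
    nlinarith
  · intro t ht θ hθ
    rw [← BU_eq_rg G ht hθ]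
    obtain ⟨e1, e2⟩ := Rej_dP G ht hθ
    have h1 := sin_pos_of_mem_Ioo ht
    have h2 := sin_pos_of_mem_Ioo hθ
    have h3 : sin t / (2 * sin θ) = sin t * sin θ / 4 * (2 * (1 / sin θ) ^ 2) := by
      field_simp
      ring
    rw [h3]
    unfold BB BU
    rw [e1, e2]
    have k1 : 0 ≤ exp (-G.P t θ) * (dt G.x t θ + dh G.x t θ) ^ 2 := by positivity
    have k2 : 0 ≤ exp (G.P t θ) * (Det G.Q G.x G.y t θ + Deh G.Q G.x G.y t θ) ^ 2 := by positivity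
    have k3 : 0 ≤ sin t * sin θ / 4 * (exp (2 * G.P t θ) * (dt G.Q t θ + dh G.Q t θ) ^ 2) := by positivity
    have k4 : 0 ≤ sin t * sin θ / 4 * (dt G.Us t θ + dh G.Us t θ - 1 / sin θ) ^ 2 := by positivity
    nlinarith
  · intro t ht θ hθ
    rw [h.transA ht hθ, abs_mul, abs_div, abs_of_pos (by norm_num : (0:ℝ) < 4)]
    have h1 := mul_le_mul_of_nonneg_left (hcs t ht θ hθ) (abs_nonneg (sin (t - θ)))
    calc _ = |sin (t - θ)| * (|(dt G.P t θ ^ 2 - dh G.P t θ ^ 2) +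
          exp (2 * G.P t θ) * (dt G.Q t θ ^ 2 - dh G.Q t θ ^ 2)| / 4) := by ring
      _ ≤ _ := h1
      _ = _ := by ring
  · intro t ht θ hθ
    rw [h.transB ht hθ, abs_mul, abs_neg, abs_div, abs_of_pos (by norm_num : (0:ℝ) < 4)]
    have h1 := mul_le_mul_of_nonneg_left (hcs t ht θ hθ) (abs_nonneg (sin (t + θ)))
    calc _ = |sin (t + θ)| * (|(dt G.P t θ ^ 2 - dh G.P t θ ^ 2) +
          exp (2 * G.P t θ) * (dt G.Q t θ ^ 2 - dh G.Q t θ ^ 2)| / 4) := by ring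
      _ ≤ _ := h1
      _ = _ := by ring
  · intro t ht θ hθ
    have h1 := (sin_pos_of_mem_Ioo ht).ne'
    have h2 := (sin_pos_of_mem_Ioo hθ).ne'
    obtain ⟨e1, e2⟩ := G.p_eq ht hθ
    rw [e1, e2]
    have h3 := h.cu t ht θ hθ
    have h4 : cos t / sin t - cos θ / sin θ = - (sin (t - θ) / (sin t * sin θ)) := by
      rw [sin_sub]
      field_simp
      ring
    have h5 : sin (t - θ) * (cos t / sin t - cos θ / sin θ) = - (sin (t - θ) ^ 2 / (sin t * sin θ)) := by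
      rw [h4]
      ring
    have h6 : sin (t - θ) ^ 2 / (4 * (sin t * sin θ)) = sin (t - θ) ^ 2 / (sin t * sin θ) / 4 := by
      field_simp
    rw [h6] at h3
    have h7 : 3 / 4 * sin (t - θ) ^ 2 / (sin t * sin θ) = 3 / 4 * (sin (t - θ) ^ 2 / (sin t * sin θ)) := by
      ring
    rw [h7]
    linear_combination h3 + h5
  · intro t ht θ hθ
    have h1 := (sin_pos_of_mem_Ioo ht).ne'
    have h2 := (sin_pos_of_mem_Ioo hθ).ne'
    obtain ⟨e1, e2⟩ := G.p_eq ht hθ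
    rw [e1, e2]
    have h3 := h.cv t ht θ hθ
    have h4 : cos t / sin t + cos θ / sin θ = sin (t + θ) / (sin t * sin θ) := by
      rw [sin_add]
      field_simp
      ring
    have h5 : sin (t + θ) * (cos t / sin t + cos θ / sin θ) = sin (t + θ) ^ 2 / (sin t * sin θ) := by
      rw [h4]
      ring
    have h6 : sin (t + θ) ^ 2 / (4 * (sin t * sin θ)) = sin (t + θ) ^ 2 / (sin t * sin θ) / 4 := by
      field_simp
    rw [h6] at h3
    have h7 : 3 / 4 * sin (t + θ) ^ 2 / (sin t * sin θ) = 3 / 4 * (sin (t + θ) ^ 2 / (sin t * sin θ)) := by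
      ring
    rw [h7]
    linear_combination h3 + h5

end GS
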