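import Pool.Agent.Lib.MP_898b37_mp.GS.Calc

/-!
# The reduced field equations on the square `(0, π) × (0, π)`
-/

open Real Set
open scoped ContDiff

namespace GS

/-- `D_t = y_t - Q x_t`. -/
noncomputable def Det (Q x y : ℝ → ℝ → ℝ) (t θ : ℝ) : ℝ := dt y t θ - Q t θ * dt x t θ

/-- `D_θ = y_θ - Q x_θ`. -/
noncomputable def Deh (Q x y : ℝ → ℝ → ℝ) (t θ : ℝ) : ℝ := dh y t θ - Q t θ * dh x t θ

/-- `A = R (P_u² + e^{2P} Q_u²) + 4 (e^{-P} x_u² + e^P D_u²)`, `∂_u = (∂_t - ∂_θ)/2`. -/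
noncomputable def AA (P Q x y : ℝ → ℝ → ℝ) (t θ : ℝ) : ℝ :=
  sin t * sin θ / 4 * ((dt P t θ - dh P t θ) ^ 2 + exp (2 * P t θ) * (dt Q t θ - dh Q t θ) ^ 2)
    + exp (-P t θ) * (dt x t θ - dh x t θ) ^ 2
    + exp (P t θ) * (Det Q x y t θ - Deh Q x y t θ) ^ 2

/-- `B = R (P_v² + e^{2P} Q_v²) + 4 (e^{-P} x_v² + e^P D_v²)`, `∂_v = (∂_t + ∂_θ)/2`. -/
noncomputable def BB (P Q x y : ℝ → ℝ → ℝ) (t θ : ℝ) : ℝ :=
  sin t * sin θ / 4 * ((dt P t θ + dh P t θ) ^ 2 + exp (2 * P t θ) * (dt Q t θ + dh Q t θ) ^ 2)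
    + exp (-P t θ) * (dt x t θ + dh x t θ) ^ 2
    + exp (P t θ) * (Det Q x y t θ + Deh Q x y t θ) ^ 2

/-- The regularised densities: `U` (the regular part of `P`) replaces `P` in the first term. -/
noncomputable def AU (U P Q x y : ℝ → ℝ → ℝ) (t θ : ℝ) : ℝ :=
  sin t * sin θ / 4 * ((dt U t θ - dh U t θ) ^ 2 + exp (2 * P t θ) * (dt Q t θ - dh Q t θ) ^ 2)
    + exp (-P t θ) * (dt x t θ - dh x t θ) ^ 2
    + exp (P t θ) * (Det Q x y t θ - Deh Q x y t θ) ^ 2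

noncomputable def BU (U P Q x y : ℝ → ℝ → ℝ) (t θ : ℝ) : ℝ :=
  sin t * sin θ / 4 * ((dt U t θ + dh U t θ) ^ 2 + exp (2 * P t θ) * (dt Q t θ + dh Q t θ) ^ 2)
    + exp (-P t θ) * (dt x t θ + dh x t θ) ^ 2
    + exp (P t θ) * (Det Q x y t θ + Deh Q x y t θ) ^ 2

/-- The reduced Einstein-Maxwell equations. -/
structure Red (a P Q x y : ℝ → ℝ → ℝ) : Prop where
  sa : Sm (Ioo 0 π) a
  sP : Sm (Ioo 0 π) P
  sQ : Sm (Ioo 0 π) Q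
  sx : Sm (Ioo 0 π) x
  sy : Sm (Ioo 0 π) y
  eP : ∀ t ∈ Ioo 0 π, ∀ θ ∈ Ioo 0 π,
    sin t * sin θ * (dt (dt P) t θ - dh (dh P) t θ) + cos t * sin θ * dt P t θ
      - sin t * cos θ * dh P t θ =
    sin t * sin θ * exp (2 * P t θ) * (dt Q t θ ^ 2 - dh Q t θ ^ 2)
      + 2 * (exp (-P t θ) * (dh x t θ ^ 2 - dt x t θ ^ 2)
        + exp (P t θ) * (Det Q x y t θ ^ 2 - Deh Q x y t θ ^ 2))
  eQ : ∀ t ∈ Ioo 0 π, ∀ θ ∈ Ioo 0 π,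
    sin t * sin θ * (dt (dt Q) t θ - dh (dh Q) t θ) + cos t * sin θ * dt Q t θ
      - sin t * cos θ * dh Q t θ
      + 2 * (sin t * sin θ) * (dt P t θ * dt Q t θ - dh P t θ * dh Q t θ) =
    4 * exp (-P t θ) * (dh x t θ * Deh Q x y t θ - dt x t θ * Det Q x y t θ)
  ey : ∀ t ∈ Ioo 0 π, ∀ θ ∈ Ioo 0 π,
    dt P t θ * Det Q x y t θ - dh P t θ * Deh Q x y t θ + (dt (dt y) t θ - dh (dh y) t θ)
      - (dt Q t θ * dt x t θ - dh Q t θ * dh x t θ)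
      - Q t θ * (dt (dt x) t θ - dh (dh x) t θ) = 0
  ex : ∀ t ∈ Ioo 0 π, ∀ θ ∈ Ioo 0 π,
    (dt (dt x) t θ - dh (dh x) t θ) - (dt P t θ * dt x t θ - dh P t θ * dh x t θ) =
    exp (2 * P t θ) * (dt Q t θ * Det Q x y t θ - dh Q t θ * Deh Q x y t θ)
  cu : ∀ t ∈ Ioo 0 π, ∀ θ ∈ Ioo 0 π,
    (dt a t θ - dh a t θ) * sin (t - θ) =
    cos (t - θ) + sin (t - θ) ^ 2 / (4 * (sin t * sin θ)) - AA P Q x y t θ
  cv : ∀ t ∈ Ioo 0 π, ∀ θ ∈ Ioo 0 π,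
    (dt a t θ + dh a t θ) * sin (t + θ) =
    cos (t + θ) - sin (t + θ) ^ 2 / (4 * (sin t * sin θ)) + BB P Q x y t θ

end GS
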