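import Pool.Agent.Lib.MP_898b37_mp.GS.Gea
import Pool.Agent.Lib.MP_898b37_mp.GS.Red

open Real Set

namespace GS

/-- The regular form of the regularised densities of a Gowdy spacetime, with `ε = 1` for `AU` and
`ε = -1` for `BU` (all functions of `(t, ζ)` at `ζ = cos θ`): with `V = W + (1+ζ) W_ζ`,
`γ = α - (1-ζ) α_ζ`, `δ = β + (1+ζ) β_ζ`, `μ = β_t - (1-ζ) W α_t`, `ν = δ + (1+ζ) W γ`:
`(S s/4)(U_t + ε s U_ζ)² + (S/4) e^{2U} s (s W_t + ε (1-ζ) V)²`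
`+ e^{-U}(s (1-ζ) α_t² - 2 ε s² α_t γ + s (1+ζ) γ²) + e^U (s (1+ζ) μ² + 2 ε s² μ ν + s (1-ζ) ν²)`,
`S = sin t`, `s = sin θ`. -/
noncomputable def Gowdy.rg (G : Gowdy) (ε : ℝ) (t θ : ℝ) : ℝ :=
  let S := sin t
  let s := sin θ
  let ζ := cos θ
  let V := G.W t ζ + (1 + ζ) * dh G.W t ζ
  let γ := G.α t ζ - (1 - ζ) * dh G.α t ζ
  let δ := G.β t ζ + (1 + ζ) * dh G.β t ζ
  let μ := dt G.β t ζ - (1 - ζ) * G.W t ζ * dt G.α t ζ
  let ν := δ + (1 + ζ) * G.W t ζ * γ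
  S * s / 4 * (dt G.U t ζ + ε * (s * dh G.U t ζ)) ^ 2
    + S / 4 * exp (2 * G.U t ζ) * s * (s * dt G.W t ζ + ε * ((1 - ζ) * V)) ^ 2
    + exp (-G.U t ζ) * (s * (1 - ζ) * dt G.α t ζ ^ 2 - 2 * ε * s ^ 2 * dt G.α t ζ * γ
        + s * (1 + ζ) * γ ^ 2)
    + exp (G.U t ζ) * (s * (1 + ζ) * μ ^ 2 + 2 * ε * s ^ 2 * μ * ν + s * (1 - ζ) * ν ^ 2)

private theorem Reg_alg {S s c z w ε E2 Em Ep Ut Uz Wt V aa g m n : ℝ} (hz1 : z * (1 + c) = s)
    (hz2 : z * s = 1 - c) (hw1 : w * (1 - c) = s) (hw2 : w * s = 1 + c)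
    (hs : s ^ 2 = (1 - c) * (1 + c)) (hε : ε ^ 2 = 1) :
    S * s / 4 * ((Ut + ε * (s * Uz)) ^ 2 + z ^ 2 * E2 * ((1 + c) * Wt + ε * (s * V)) ^ 2)
      + w * Em * ((1 - c) * aa - ε * (s * g)) ^ 2 + z * Ep * ((1 + c) * m + ε * (s * n)) ^ 2 =
    S * s / 4 * (Ut + ε * (s * Uz)) ^ 2 + S / 4 * E2 * s * (s * Wt + ε * ((1 - c) * V)) ^ 2
      + Em * (s * (1 - c) * aa ^ 2 - 2 * ε * s ^ 2 * aa * g + s * (1 + c) * g ^ 2)
      + Ep * (s * (1 + c) * m ^ 2 + 2 * ε * s ^ 2 * m * n + s * (1 - c) * n ^ 2) := by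
  have e1 : z * ((1 + c) * Wt + ε * (s * V)) = s * Wt + ε * ((1 - c) * V) := by
    linear_combination Wt * hz1 + ε * V * hz2
  have e2 : w * ((1 - c) * aa - ε * (s * g)) ^ 2 =
      s * (1 - c) * aa ^ 2 - 2 * ε * s ^ 2 * aa * g + s * (1 + c) * g ^ 2 := by
    linear_combination ((1 - c) * aa - ε * (s * g)) * (aa * hw1 - ε * g * hw2) + ε * aa * g * hs +
      s * (1 + c) * g ^ 2 * hε
  have e3 : z * ((1 + c) * m + ε * (s * n)) ^ 2 =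
      s * (1 + c) * m ^ 2 + 2 * ε * s ^ 2 * m * n + s * (1 - c) * n ^ 2 := by
    linear_combination ((1 + c) * m + ε * (s * n)) * (m * hz1 + ε * n * hz2) - ε * m * n * hs +
      s * (1 - c) * n ^ 2 * hε
  linear_combination S * s / 4 * E2 * (z * ((1 + c) * Wt + ε * (s * V)) +
    (s * Wt + ε * ((1 - c) * V))) * e1 + Em * e2 + Ep * e3

private theorem Reg_h {f : ℝ → ℝ → ℝ} (hf : Sm univ f) {t : ℝ} (ht : t ∈ Ioo 0 π) (θ : ℝ) :
    HasDerivAt (fun s => f t (Real.cos s)) (-Real.sin θ * dh f t (Real.cos θ)) θ := by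
  have h := C1.hasDh isOpen_univ (Sm.cos hf).c1 ht (mem_univ θ)
  rwa [Sm.dh_cos hf ht θ] at h

private theorem Reg_dt (g : ℝ → ℝ) (f : ℝ → ℝ → ℝ) (t θ : ℝ) :
    dt (fun t θ => g θ * f t (Real.cos θ)) t θ = g θ * dt f t (Real.cos θ) :=
  deriv_const_mul_field (g θ)

private theorem Reg_dhp {f : ℝ → ℝ → ℝ} (hf : Sm univ f) {t : ℝ} (ht : t ∈ Ioo 0 π) (θ : ℝ) :
    dh (fun t θ => (1 + Real.cos θ) * f t (Real.cos θ)) t θ =
      -Real.sin θ * (f t (Real.cos θ) + (1 + Real.cos θ) * dh f t (Real.cos θ)) := by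
  have h := (((Real.hasDerivAt_cos θ).const_add 1).mul (Reg_h hf ht θ)).deriv
  have h1 : dh (fun t θ => (1 + Real.cos θ) * f t (Real.cos θ)) t θ =
      -Real.sin θ * f t (Real.cos θ) + (1 + Real.cos θ) * (-Real.sin θ * dh f t (Real.cos θ)) := h
  rw [h1]
  ring

private theorem Reg_dhm {f : ℝ → ℝ → ℝ} (hf : Sm univ f) {t : ℝ} (ht : t ∈ Ioo 0 π) (θ : ℝ) :
    dh (fun t θ => (1 - Real.cos θ) * f t (Real.cos θ)) t θ =
      Real.sin θ * (f t (Real.cos θ) - (1 - Real.cos θ) * dh f t (Real.cos θ)) := by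
  have h := (((Real.hasDerivAt_cos θ).const_sub 1).mul (Reg_h hf ht θ)).deriv
  have h1 : dh (fun t θ => (1 - Real.cos θ) * f t (Real.cos θ)) t θ =
      - -Real.sin θ * f t (Real.cos θ) + (1 - Real.cos θ) * (-Real.sin θ * dh f t (Real.cos θ)) := h
  rw [h1]
  ring

/-- Both densities at once. -/
private theorem Reg_main (G : Gowdy) {t θ ε : ℝ} (ht : t ∈ Ioo 0 π) (hθ : θ ∈ Ioo 0 π)
    (hε : ε ^ 2 = 1) :
    sin t * sin θ / 4 * ((dt G.Us t θ - ε * dh G.Us t θ) ^ 2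
        + exp (2 * G.P t θ) * (dt G.Q t θ - ε * dh G.Q t θ) ^ 2)
      + exp (-G.P t θ) * (dt G.x t θ - ε * dh G.x t θ) ^ 2
      + exp (G.P t θ) * (Det G.Q G.x G.y t θ - ε * Deh G.Q G.x G.y t θ) ^ 2 = G.rg ε t θ := by
  have hsp : 0 < sin θ := sin_pos_of_mem_Ioo hθ
  have hs2 : sin θ ^ 2 = (1 - cos θ) * (1 + cos θ) := by
    have h := sin_sq_add_cos_sq θ
    linear_combination h
  have hcp : 0 < 1 + cos θ := by
    have h := neg_one_le_cos θ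
    rcases h.lt_or_eq with h1 | h1
    · linarith
    · exfalso
      rw [← h1] at hs2
      have : sin θ ^ 2 = 0 := by rw [hs2]; ring
      exact absurd this (pow_pos hsp 2).ne'
  have hcm : 0 < 1 - cos θ := by
    have h : 0 < (1 - cos θ) * (1 + cos θ) := by
      rw [← hs2]
      exact pow_pos hsp 2
    exact (pos_iff_pos_of_mul_pos h).2 hcp
  set z := (1 - cos θ) / sin θ with hz
  have hzp : 0 < z := div_pos hcm hsp
  have hz1 : z * (1 + cos θ) = sin θ := by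
    rw [hz, div_mul_eq_mul_div, ← hs2, pow_two, mul_div_assoc, div_self hsp.ne', mul_one]
  have hz2 : z * sin θ = 1 - cos θ := div_mul_cancel₀ _ hsp.ne'
  have hw1 : z⁻¹ * (1 - cos θ) = sin θ := by
    rw [← hz2, inv_mul_cancel_left₀ hzp.ne']
  have hw2 : z⁻¹ * sin θ = 1 + cos θ := by
    rw [← hz1, inv_mul_cancel_left₀ hzp.ne']
  have hP : G.P t θ = log z + G.U t (cos θ) := rfl
  have x1 : exp (G.P t θ) = z * exp (G.U t (cos θ)) := by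
    rw [hP, exp_add, exp_log hzp]
  have x2 : exp (-G.P t θ) = z⁻¹ * exp (-G.U t (cos θ)) := by
    rw [hP, neg_add, exp_add, exp_neg, exp_log hzp]
  have x3 : exp (2 * G.P t θ) = z ^ 2 * exp (2 * G.U t (cos θ)) := by
    rw [hP, mul_add, exp_add, two_mul (log z), exp_add, exp_log hzp, pow_two]
  have d1 : dt G.Us t θ = dt G.U t (cos θ) := Sm.dt_cos t θ
  have d2 : dh G.Us t θ = -sin θ * dh G.U t (cos θ) := Sm.dh_cos G.smU ht θ
  have d3 : dt G.Q t θ = (1 + cos θ) * dt G.W t (cos θ) := Reg_dt (fun θ => 1 + cos θ) G.W t θ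
  have d4 : dh G.Q t θ = -sin θ * (G.W t (cos θ) + (1 + cos θ) * dh G.W t (cos θ)) :=
    Reg_dhp G.smW ht θ
  have d5 : dt G.x t θ = (1 - cos θ) * dt G.α t (cos θ) := Reg_dt (fun θ => 1 - cos θ) G.α t θ
  have d6 : dh G.x t θ = sin θ * (G.α t (cos θ) - (1 - cos θ) * dh G.α t (cos θ)) :=
    Reg_dhm G.smα ht θ
  have d7 : dt G.y t θ = (1 + cos θ) * dt G.β t (cos θ) := Reg_dt (fun θ => 1 + cos θ) G.β t θ
  have d8 : dh G.y t θ = -sin θ * (G.β t (cos θ) + (1 + cos θ) * dh G.β t (cos θ)) :=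
    Reg_dhp G.smβ ht θ
  have hQ : G.Q t θ = (1 + cos θ) * G.W t (cos θ) := rfl
  have key := Reg_alg (S := sin t) (E2 := exp (2 * G.U t (cos θ))) (Em := exp (-G.U t (cos θ)))
    (Ep := exp (G.U t (cos θ))) (Ut := dt G.U t (cos θ)) (Uz := dh G.U t (cos θ))
    (Wt := dt G.W t (cos θ)) (V := G.W t (cos θ) + (1 + cos θ) * dh G.W t (cos θ))
    (aa := dt G.α t (cos θ)) (g := G.α t (cos θ) - (1 - cos θ) * dh G.α t (cos θ))
    (m := dt G.β t (cos θ) - (1 - cos θ) * G.W t (cos θ) * dt G.α t (cos θ))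
    (n := (G.β t (cos θ) + (1 + cos θ) * dh G.β t (cos θ)) +
      (1 + cos θ) * G.W t (cos θ) * (G.α t (cos θ) - (1 - cos θ) * dh G.α t (cos θ)))
    hz1 hz2 hw1 hw2 hs2 hε
  have hR : G.rg ε t θ = sin t * sin θ / 4 * (dt G.U t (cos θ) + ε * (sin θ * dh G.U t (cos θ))) ^ 2
      + sin t / 4 * exp (2 * G.U t (cos θ)) * sin θ * (sin θ * dt G.W t (cos θ) +
        ε * ((1 - cos θ) * (G.W t (cos θ) + (1 + cos θ) * dh G.W t (cos θ)))) ^ 2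
      + exp (-G.U t (cos θ)) * (sin θ * (1 - cos θ) * dt G.α t (cos θ) ^ 2 -
        2 * ε * sin θ ^ 2 * dt G.α t (cos θ) *
          (G.α t (cos θ) - (1 - cos θ) * dh G.α t (cos θ)) +
        sin θ * (1 + cos θ) * (G.α t (cos θ) - (1 - cos θ) * dh G.α t (cos θ)) ^ 2)
      + exp (G.U t (cos θ)) * (sin θ * (1 + cos θ) *
          (dt G.β t (cos θ) - (1 - cos θ) * G.W t (cos θ) * dt G.α t (cos θ)) ^ 2 +
        2 * ε * sin θ ^ 2 *
          (dt G.β t (cos θ) - (1 - cos θ) * G.W t (cos θ) * dt G.α t (cos θ)) *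
          ((G.β t (cos θ) + (1 + cos θ) * dh G.β t (cos θ)) +
            (1 + cos θ) * G.W t (cos θ) * (G.α t (cos θ) - (1 - cos θ) * dh G.α t (cos θ))) +
        sin θ * (1 - cos θ) * ((G.β t (cos θ) + (1 + cos θ) * dh G.β t (cos θ)) +
            (1 + cos θ) * G.W t (cos θ) *
              (G.α t (cos θ) - (1 - cos θ) * dh G.α t (cos θ))) ^ 2) := rfl
  rw [hR, ← key]
  unfold Det Deh
  rw [x1, x2, x3, d1, d2, d3, d4, d5, d6, d7, d8, hQ]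
  ring

/-- TASK Reg. The first derivatives on the square in terms of the functions of `(t, ζ)`
(`Sm.dt_cos`, `Sm.dh_cos`; `s = sin θ`, `ζ = cos θ`): `(Us)_t = U_t`, `(Us)_θ = -s U_ζ`,
`Q_t = (1+ζ) W_t`, `Q_θ = -s V`, `x_t = (1-ζ) α_t`, `x_θ = s γ`, `y_t = (1+ζ) β_t`, `y_θ = -s δ`; hence
`D_t = (1+ζ) μ`, `D_θ = -s ν`. With `e^P = e^U (1-ζ)/s`, `s² = (1-ζ)(1+ζ)` the densities `AU`, `BU` are
the regular expressions. -/
theorem AU_eq_rg (G : Gowdy) {t θ : ℝ} (ht : t ∈ Ioo 0 π) (hθ : θ ∈ Ioo 0 π) :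
    AU G.Us G.P G.Q G.x G.y t θ = G.rg 1 t θ := by
  rw [← Reg_main G ht hθ (one_pow 2)]
  unfold AU
  ring

theorem BU_eq_rg (G : Gowdy) {t θ : ℝ} (ht : t ∈ Ioo 0 π) (hθ : θ ∈ Ioo 0 π) :
    BU G.Us G.P G.Q G.x G.y t θ = G.rg (-1) t θ := by
  rw [← Reg_main G ht hθ (show (-1 : ℝ) ^ 2 = 1 by norm_num)]
  unfold BU
  ring

end GS
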