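import Pool.Agent.Lib.MP_898b37_mp.Mg.G007
import Pool.Agent.Lib.MP_898b37_mp.GS.ScA
import Pool.Agent.Lib.MP_898b37_mp.Mg.G011
import Pool.Agent.Lib.MP_898b37_mp.Mg.G001

open Real Set
open scoped ContDiff

namespace GS

/-- TASK Main2. The theorem for the general class.
Proof. `Space.exists_gowdy` gives `G`; `EinsteinMaxwell.congr` and `EinsteinMaxwell.of_smul` give the
equations for `G` (`chartS = chart`). As in `main` (`Gowdy.red`, `Gowdy.exists_dat`, `core`) there are `T`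
and `m`; `gradSq_graph`, `meanCurv_graph` for `G`, and `gradSq_smul`, `meanCurv_smul` for `S`
(`S.met = fun p => S.c • G.met p` by `funext`); `cross_once`. -/
theorem main2 (S : Space) (h : EinsteinMaxwell S.met S.field chartS) :
    ∃ T : ℝ → ℝ, ContDiffOn ℝ ∞ T (Icc (-1) 1) ∧ (∀ ζ ∈ Icc (-1 : ℝ) 1, T ζ ∈ Ioo 0 π) ∧
      (∀ p : Pt, p 1 ∈ Ioo 0 π → p 0 = T (cos (p 1)) →
        gradSq S.met (fun q => q 0 - T (cos (q 1))) p < 0 ∧
        meanCurv S.met (fun q => q 0 - T (cos (q 1))) p = 0) ∧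
      ∀ ϑ : ℝ → ℝ, (∀ s ∈ Ioo 0 π, ϑ s ∈ Icc 0 π) →
        (∀ s ∈ Ioo 0 π, ∀ t ∈ Ioo 0 π, |ϑ s - ϑ t| ≤ |s - t|) →
        ∃! t, t ∈ Ioo 0 π ∧ t = T (cos (ϑ t)) := by
  have hcc : chartS = chart := rfl
  rw [hcc] at h
  obtain ⟨G, hG1, hG2⟩ := S.exists_gowdy h
  have h1 : EinsteinMaxwell (fun q => S.c • G.met q) (fun q => √S.c • G.field q) chart :=
    h.congr (fun p _ => hG1 p) hG2
  have h2 : EinsteinMaxwell G.met G.field chart := EinsteinMaxwell.of_smul S.hc h1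
  obtain ⟨D, hDp, hDq⟩ := G.exists_dat (G.red h2)
  obtain ⟨T, hT1, hT2, m, hm⟩ := core G.sf (fun t ht ζ => G.f_pos ht ζ) D hDp hDq
  have hm' : ∀ θ ∈ Ioo 0 π, HasDerivAt (fun s => T (cos s)) (m θ) θ ∧ |m θ| < 1 :=
    fun θ hθ => ⟨(hm θ hθ).1, (hm θ hθ).2.1⟩
  refine ⟨T, hT1, hT2, ?_, fun ϑ k1 k2 => cross_once hT1 hT2 hm' k1 k2⟩
  intro p hp1 hp0
  have hmem : p ∈ chart := by
    refine ⟨?_, hp1⟩
    rw [hp0]
    exact hT2 _ ⟨neg_one_le_cos _, cos_le_one _⟩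
  obtain ⟨a1, a2, m', a3, a4⟩ := hm (p 1) hp1
  have e : S.met = fun q => S.c • G.met q := funext hG1
  have g1 := gradSq_graph G (τ := fun s => T (cos s)) hmem a1
  have g2 := meanCurv_graph G (τ := fun s => T (cos s)) (m := m) (m' := m') hm' hmem a3
    (by rw [hp0]; exact a4)
  rw [e, gradSq_smul S.hc, meanCurv_smul S.hc]
  constructor
  · rw [g1]
    have b1 : m (p 1) ^ 2 - 1 < 0 := by
      have := (sq_lt_one_iff_abs_lt_one (m (p 1))).2 a2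
      linarith
    exact mul_neg_of_pos_of_neg (inv_pos.2 S.hc) (mul_neg_of_pos_of_neg (Real.exp_pos _) b1)
  · rw [g2, mul_zero]

end GS
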