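import Pool.Agent.Lib.MP_898b37_mp.Mg.G006

open Real Set

namespace GS

/-- Comparison of two functions on an interval by their derivatives. -/
theorem abs_sub_le_of_deriv {ρ Z : ℝ → ℝ} {a b c : ℝ} (hab : a ≤ b) (hc : 0 ≤ c)
    (h : ∀ x ∈ Icc a b, ∃ d z, HasDerivAt ρ d x ∧ HasDerivAt Z z x ∧ |d| ≤ c * z) :
    |ρ b - ρ a| ≤ c * (Z b - Z a) := by
  have mono : ∀ s : ℝ, |s| ≤ 1 → MonotoneOn (fun x => c * Z x - s * ρ x) (Icc a b) := by
    intro s hs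
    have hd : ∀ x ∈ Icc a b, ∃ y, 0 ≤ y ∧ HasDerivAt (fun x => c * Z x - s * ρ x) y x := by
      intro x hx
      obtain ⟨d, z, h1, h2, h3⟩ := h x hx
      refine ⟨c * z - s * d, ?_, (h2.const_mul c).sub (h1.const_mul s)⟩
      have h4 : s * d ≤ |d| := by
        calc s * d ≤ |s * d| := le_abs_self _
          _ = |s| * |d| := abs_mul _ _
          _ ≤ 1 * |d| := mul_le_mul_of_nonneg_right hs (abs_nonneg _)
          _ = |d| := one_mul _
      linarith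
    refine monotoneOn_of_deriv_nonneg (convex_Icc a b) ?_ ?_ ?_
    · intro x hx
      obtain ⟨y, -, hy⟩ := hd x hx
      exact hy.continuousAt.continuousWithinAt
    · intro x hx
      obtain ⟨y, -, hy⟩ := hd x (interior_subset hx)
      exact hy.differentiableAt.differentiableWithinAt
    · intro x hx
      obtain ⟨y, hy0, hy⟩ := hd x (interior_subset hx)
      rw [hy.deriv]
      exact hy0
  have h1 := mono 1 (by simp) (left_mem_Icc.2 hab) (right_mem_Icc.2 hab) hab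
  have h2 := mono (-1) (by simp) (left_mem_Icc.2 hab) (right_mem_Icc.2 hab) hab
  simp only at h1 h2
  rw [abs_le]
  constructor <;> nlinarith

/-- TASK TrB. Transport estimate away from the axis (`|u| ≤ v/2`, `v ≤ 1`, written as `t ≤ 3θ`,
`θ ≤ 3t`, `t + θ ≤ 1`), with `u = t - θ` and the end point `t_e = (1 + u)/2` of the null line on
`v = 1`.

Proof. For `ε > 0` let `ρ(s) = √(A(s, s-u) + ε)`, `μ = t^{-3/2} = 1/(t √t)` and
`Z(s) = (μ/2)(√s K_u(s) - (5/2) M/√s) - (22/7) μ⁻¹ / (s^3 √s) - 6/s`. For `s ∈ [t, t_e]` (then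
`s ≤ 3/4`, `0 < s - u ≤ 3/4`, `s ≤ 3(s - u)`, `s - u ≤ 3 s`): by `Dat.rho_deriv`, `young` (with
`X = Bt(s, s-u)`, `Y = R`) and `R ≥ (16/25) s (s-u) ≥ (16/75) s²`, `1/R² ≤ 22/s⁴`,
`sin(s-u) ≥ (4/5)(s-u) ≥ (4/15) s`, `1/(√(2R) sin(s - u)) ≤ 6/s²` one has
`|ρ'| ≤ (1/2)|u| ((μ/2) 2√s Bt + (μ⁻¹/2) 22/(s⁴ √s) + 6/s²) ≤ (1/2)|u| Z'(s)` by `Dat.L_deriv`
(`(1/(s³√s))' = -(7/2)/(s⁴√s)`).
By `abs_sub_le_of_deriv`, `|ρ(t_e) - ρ(t)| ≤ (1/2)|u| (Z(t_e) - Z(t))`,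
`Z(t_e) ≤ (μ/2) √t_e K_u(t_e) ≤ (μ/2) M √t_e/((4/5) t_e) ≤ (5/4) μ M` (`t_e ≥ 1/4`) and
`-Z(t) ≤ (5/4) μ M/√t + (22/7)/t² + 6/t`, so `Z(t_e) - Z(t) ≤ (5/2 M + 10)/t²` (`t ≤ 1`) and
`t ≥ (t + θ)/4`. Let `ε → 0`. -/
theorem Dat.transport_a (D : Dat) {t θ : ℝ} (ht : 0 < t) (hθ : 0 < θ) (h1 : t ≤ 3 * θ)
    (h2 : θ ≤ 3 * t) (h3 : t + θ ≤ 1) :
    |√(D.A t θ) - √(D.A ((1 + (t - θ)) / 2) ((1 - (t - θ)) / 2))| ≤
      (20 * D.M + 80) * |t - θ| / (t + θ) ^ 2 := by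
  obtain ⟨u, hu⟩ : ∃ u, u = t - θ := ⟨_, rfl⟩
  have hθu : θ = t - u := by linarith
  rw [← hu]
  obtain ⟨te, hte⟩ : ∃ te, te = (1 + u) / 2 := ⟨_, rfl⟩
  have hteu : (1 - u) / 2 = te - u := by rw [hte]; ring
  rw [← hte, hteu, hθu]
  have htte : t ≤ te := by rw [hte]; linarith
  have hte34 : te ≤ 3 / 4 := by rw [hte]; linarith
  have hte14 : 1 / 4 ≤ te := by rw [hte]; linarith
  have hteu34 : te - u ≤ 3 / 4 := by rw [hte]; linarith
  have hM := D.M_nonneg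
  have hpi := Real.pi_gt_three
  -- square roots
  obtain ⟨W, hW⟩ : ∃ W, W = √t := ⟨_, rfl⟩
  have hW0 : 0 < W := by rw [hW]; exact Real.sqrt_pos.2 ht
  have hW2 : W ^ 2 = t := by rw [hW]; exact Real.sq_sqrt ht.le
  have hW1 : W ≤ 1 := by
    by_contra h
    push Not at h
    have h4 : 1 < W ^ 2 := by nlinarith
    linarith
  obtain ⟨V, hV⟩ : ∃ V, V = √te := ⟨_, rfl⟩
  have hte0 : 0 < te := by linarith
  have hV2 : V ^ 2 = te := by rw [hV]; exact Real.sq_sqrt hte0.le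
  have hV12 : 1 / 2 ≤ V := by
    rw [hV]
    refine Real.le_sqrt_of_sq_le ?_
    linarith
  -- the comparison function
  let Z : ℝ → ℝ := fun s => (W ^ 3)⁻¹ / 2 * (√s * D.K u s - (5 / 2) * D.M / √s) +
    (-(22 / 7) * W ^ 3) * ((√s) ^ 7)⁻¹ + (-6) * s⁻¹
  have key : ∀ ε : ℝ, 0 < ε → |√(D.A te (te - u) + ε) - √(D.A t (t - u) + ε)| ≤
      (1 / 2) * |u| * (Z te - Z t) := by
    intro ε hε
    refine abs_sub_le_of_deriv (ρ := fun s => √(D.A s (s - u) + ε)) htte (by positivity) ?_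
    intro s hs
    have hs0 : 0 < s := lt_of_lt_of_le ht hs.1
    have hs34 : s ≤ 3 / 4 := hs.2.trans hte34
    have hsu0 : 0 < s - u := by linarith [hs.1]
    have hsu34 : s - u ≤ 3 / 4 := by linarith [hs.2]
    have hs3 : s ≤ 3 * (s - u) := by linarith [hs.1]
    obtain ⟨d, hd, hdle⟩ := D.rho_deriv hε hs0 hs34 hsu0 hsu34
    obtain ⟨l, hl, hlle⟩ := D.L_deriv (u := u) hs0 hs34 hsu0.le (by linarith)
    obtain ⟨w, hw⟩ : ∃ w, w = √s := ⟨_, rfl⟩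
    have hw0 : 0 < w := by rw [hw]; exact Real.sqrt_pos.2 hs0
    have hw2 : w ^ 2 = s := by rw [hw]; exact Real.sq_sqrt hs0.le
    have hd2 : HasDerivAt (fun s : ℝ => ((√s) ^ 7)⁻¹) (-(7 / 2) / w ^ 9) s := by
      have h4 := ((Real.hasDerivAt_sqrt hs0.ne').pow 7).inv (by
        simp only [Pi.pow_apply]
        rw [← hw]
        positivity)
      refine h4.congr_deriv ?_
      simp only [Pi.pow_apply]
      rw [← hw]
      field_simp
      norm_num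
      ring
    have hd3 : HasDerivAt (fun s : ℝ => s⁻¹) (-(s ^ 2)⁻¹) s := hasDerivAt_inv hs0.ne'
    refine ⟨d, (W ^ 3)⁻¹ / 2 * l + (-(22 / 7) * W ^ 3) * (-(7 / 2) / w ^ 9) + (-6) * (-(s ^ 2)⁻¹),
      hd, ((hl.const_mul _).add (hd2.const_mul _)).add (hd3.const_mul _), ?_⟩
    refine hdle.trans (mul_le_mul_of_nonneg_left ?_ (by positivity))
    -- the two terms
    have hR : (16 / 25) * (s * (s - u)) ≤ sin s * sin (s - u) := R_lower hs0 hs34 hsu0 hsu34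
    obtain ⟨R, hRdef⟩ : ∃ R, R = sin s * sin (s - u) := ⟨_, rfl⟩
    rw [← hRdef] at hR ⊢
    have hR1 : (16 / 75) * s ^ 2 ≤ R := by nlinarith
    have hR0 : 0 < R := lt_of_lt_of_le (by positivity) hR1
    have hsin : (4 / 15) * s ≤ sin (s - u) := by
      have := sin_lower hsu0 hsu34
      linarith
    have hB : 0 ≤ D.Bt s (s - u) := D.nBt s ⟨hs0, by linarith⟩ (s - u) ⟨hsu0.le, by linarith⟩
    have hy := young hB hR0 (μ := (W ^ 3)⁻¹) (s := s) (by positivity) hs0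
    rw [inv_inv, ← hw] at hy
    rw [← hw] at hlle
    have hx2 : 1 / (√(2 * R) * sin (s - u)) ≤ 6 * (s ^ 2)⁻¹ := by
      have h5 : (5 / 8) * s ≤ √(2 * R) := by
        refine Real.le_sqrt_of_sq_le ?_
        nlinarith [sq_nonneg s]
      have h6 : s ^ 2 / 6 ≤ √(2 * R) * sin (s - u) := by
        calc s ^ 2 / 6 = ((5 / 8) * s) * ((4 / 15) * s) := by ring
          _ ≤ √(2 * R) * sin (s - u) := mul_le_mul h5 hsin (by positivity) (Real.sqrt_nonneg _)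
      calc 1 / (√(2 * R) * sin (s - u)) ≤ 1 / (s ^ 2 / 6) :=
            one_div_le_one_div_of_le (by positivity) h6
        _ = 6 * (s ^ 2)⁻¹ := by field_simp
    have hR2 : 1 / R ^ 2 ≤ 22 * (w ^ 8)⁻¹ := by
      have h5 : w ^ 8 / 22 ≤ R ^ 2 := by
        have h6 : w ^ 8 = (s ^ 2) ^ 2 := by rw [← hw2]; ring
        have h7 : ((16 / 75) * s ^ 2) ^ 2 ≤ R ^ 2 := pow_le_pow_left₀ (by positivity) hR1 2
        rw [h6]
        nlinarith [sq_nonneg (s ^ 2)]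
      calc 1 / R ^ 2 ≤ 1 / (w ^ 8 / 22) := one_div_le_one_div_of_le (by positivity) h5
        _ = 22 * (w ^ 8)⁻¹ := by field_simp
    have h8 : W ^ 3 * (1 / w) * (1 / R ^ 2) ≤ W ^ 3 * (1 / w) * (22 * (w ^ 8)⁻¹) :=
      mul_le_mul_of_nonneg_left hR2 (by positivity)
    have h9 : W ^ 3 * (1 / w) * (22 * (w ^ 8)⁻¹) = 22 * (W ^ 3 / w ^ 9) := by field_simp
    have h10 : (W ^ 3)⁻¹ * (2 * w * D.Bt s (s - u)) ≤ (W ^ 3)⁻¹ * l :=
      mul_le_mul_of_nonneg_left hlle (by positivity)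
    have h11 : (-(22 / 7) * W ^ 3) * (-(7 / 2) / w ^ 9) = 11 * (W ^ 3 / w ^ 9) := by
      field_simp
      norm_num
    rw [h11]
    linarith
  -- the bound for `Z`
  have hZ : Z te - Z t ≤ (5 / 2 * D.M + 10) * (W ^ 4)⁻¹ := by
    have hKe := D.K_bounds (u := u) hte0 (by linarith) (by linarith) (by linarith)
    have hKt := D.K_bounds (u := u) ht (by linarith) (by linarith) (by linarith)
    have hsin := sin_lower hte0 hte34
    have hV0 : 0 < V := by linarith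
    have h4 : V * D.K u te ≤ 5 / 2 * D.M := by
      have h5 : D.K u te ≤ D.M / ((4 / 5) * te) :=
        hKe.2.trans (div_le_div_of_nonneg_left hM (by positivity) hsin)
      have h6 : V * D.K u te ≤ V * (D.M / ((4 / 5) * te)) := mul_le_mul_of_nonneg_left h5 hV0.le
      have h7 : V * (D.M / ((4 / 5) * te)) = (5 / 4) * D.M / V := by
        rw [← hV2]
        field_simp
      rw [h7] at h6
      refine h6.trans ?_
      rw [div_le_iff₀ hV0]
      nlinarith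
    have hW34 : (W ^ 3)⁻¹ ≤ (W ^ 4)⁻¹ := by
      apply inv_anti₀ (by positivity)
      calc W ^ 4 = W ^ 3 * W := by ring
        _ ≤ W ^ 3 * 1 := mul_le_mul_of_nonneg_left hW1 (by positivity)
        _ = W ^ 3 := mul_one _
    have hW24 : (W ^ 2)⁻¹ ≤ (W ^ 4)⁻¹ := by
      apply inv_anti₀ (by positivity)
      have : W ^ 2 ≤ 1 := by nlinarith
      calc W ^ 4 = W ^ 2 * W ^ 2 := by ring
        _ ≤ W ^ 2 * 1 := mul_le_mul_of_nonneg_left this (by positivity)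
        _ = W ^ 2 := mul_one _
    have e1 : Z te ≤ (W ^ 3)⁻¹ / 2 * (5 / 2 * D.M) := by
      simp only [Z]
      rw [← hV]
      have a1 : 0 ≤ (5 / 2) * D.M / V := by positivity
      have a2 : (W ^ 3)⁻¹ / 2 * (V * D.K u te - (5 / 2) * D.M / V) ≤
          (W ^ 3)⁻¹ / 2 * (5 / 2 * D.M) :=
        mul_le_mul_of_nonneg_left (by linarith) (by positivity)
      have a3 : 0 ≤ (22 / 7) * W ^ 3 * (V ^ 7)⁻¹ := by positivity
      have a4 : 0 ≤ 6 * te⁻¹ := by positivity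
      linarith
    have e2 : -Z t ≤ (5 / 4) * D.M * (W ^ 4)⁻¹ + (22 / 7) * (W ^ 4)⁻¹ + 6 * (W ^ 2)⁻¹ := by
      simp only [Z]
      rw [← hW]
      have a1 : 0 ≤ (W ^ 3)⁻¹ / 2 * (W * D.K u t) :=
        mul_nonneg (by positivity) (mul_nonneg hW0.le hKt.1)
      have a2 : (W ^ 3)⁻¹ / 2 * ((5 / 2) * D.M / W) = (5 / 4) * D.M * (W ^ 4)⁻¹ := by
        field_simp
        norm_num
        ring
      have a3 : (22 / 7) * W ^ 3 * (W ^ 7)⁻¹ = (22 / 7) * (W ^ 4)⁻¹ := by field_simp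
      have a4 : t⁻¹ = (W ^ 2)⁻¹ := by rw [hW2]
      have a5 : (W ^ 3)⁻¹ / 2 * (W * D.K u t - (5 / 2) * D.M / W) =
          (W ^ 3)⁻¹ / 2 * (W * D.K u t) - (W ^ 3)⁻¹ / 2 * ((5 / 2) * D.M / W) := by ring
      rw [a5, a2, a4]
      linarith
    have e3 : (W ^ 3)⁻¹ / 2 * (5 / 2 * D.M) ≤ (5 / 4) * D.M * (W ^ 4)⁻¹ := by
      have := mul_le_mul_of_nonneg_left hW34 (show 0 ≤ (5 / 4) * D.M by positivity)
      linarith
    have hW4 : 0 < (W ^ 4)⁻¹ := by positivity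
    have e4 : (5 / 2 * D.M + 10) * (W ^ 4)⁻¹ = (5 / 4) * D.M * (W ^ 4)⁻¹ +
        (5 / 4) * D.M * (W ^ 4)⁻¹ + 10 * (W ^ 4)⁻¹ := by ring
    rw [e4]
    linarith
  have hfin : (1 / 2) * |u| * (Z te - Z t) ≤ (20 * D.M + 80) * |u| / (t + (t - u)) ^ 2 := by
    have hW4 : W ^ 4 = t ^ 2 := by rw [← hW2]; ring
    have h4 : (W ^ 4)⁻¹ ≤ 16 / (t + (t - u)) ^ 2 := by
      rw [hW4, inv_eq_one_div, div_le_div_iff₀ (by positivity) (by
        have : 0 < t + (t - u) := by linarith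
        positivity)]
      nlinarith
    have h5 : Z te - Z t ≤ (5 / 2 * D.M + 10) * (16 / (t + (t - u)) ^ 2) :=
      hZ.trans (mul_le_mul_of_nonneg_left h4 (by positivity))
    calc (1 / 2) * |u| * (Z te - Z t)
        ≤ (1 / 2) * |u| * ((5 / 2 * D.M + 10) * (16 / (t + (t - u)) ^ 2)) :=
          mul_le_mul_of_nonneg_left h5 (by positivity)
      _ = (20 * D.M + 80) * |u| / (t + (t - u)) ^ 2 := by ring
  -- the limit
  rw [abs_sub_comm]
  have hcont : Filter.Tendsto (fun ε : ℝ => |√(D.A te (te - u) + ε) - √(D.A t (t - u) + ε)|)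
      (nhdsWithin 0 (Ioi 0)) (nhds |√(D.A te (te - u) + 0) - √(D.A t (t - u) + 0)|) := by
    apply Filter.Tendsto.mono_left _ nhdsWithin_le_nhds
    apply Continuous.tendsto
    fun_prop
  rw [add_zero, add_zero] at hcont
  refine le_of_tendsto hcont ?_
  filter_upwards [self_mem_nhdsWithin] with ε hε
  exact (key ε hε).trans hfin

end GS
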