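import Pool.Agent.Lib.MP_898b37_mp.Mg.G006
import Pool.Agent.Lib.MP_898b37_mp.GS.TrB

open Real Set

namespace GS

private theorem TrC_invsq {u x R : ℝ} (hu : 0 < u) (hx : 0 < x) (hR : (16 / 25) * (u * x) ≤ R) :
    1 / R ^ 2 ≤ (5 / 2) / (u ^ 2 * x ^ 2) := by
  have h0 : 0 < u * x := mul_pos hu hx
  have hR0 : 0 < R := lt_of_lt_of_le (by positivity) hR
  rw [div_le_div_iff₀ (by positivity) (by positivity)]
  have h1 : ((16 / 25) * (u * x)) ^ 2 ≤ R ^ 2 := by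
    apply pow_le_pow_left₀ (by positivity) hR
  nlinarith [h1, sq_nonneg (u * x)]

private theorem TrC_third {u x R S : ℝ} (hu : 0 < u) (hx : 0 < x) (hR : (16 / 25) * (u * x) ≤ R)
    (hS : (4 / 5) * x ≤ S) :
    1 / (√(2 * R) * S) ≤ (12 / 5) / √u * ((1 / (2 * √x)) / (√x) ^ 2) := by
  have h0 : 0 < u * x := mul_pos hu hx
  have hsu : 0 < √u := Real.sqrt_pos.2 hu
  have hsx : 0 < √x := Real.sqrt_pos.2 hx
  have h1 : (25 / 24) * (√u * √x) ≤ √(2 * R) := by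
    apply Real.le_sqrt_of_sq_le
    rw [mul_pow, mul_pow, Real.sq_sqrt hu.le, Real.sq_sqrt hx.le]
    nlinarith
  have h2 : (25 / 24) * (√u * √x) * ((4 / 5) * x) ≤ √(2 * R) * S :=
    mul_le_mul h1 hS (by positivity) (Real.sqrt_nonneg _)
  have h3 : (12 / 5) / √u * ((1 / (2 * √x)) / (√x) ^ 2) = 1 / ((25 / 24) * (√u * √x) * ((4 / 5) * x)) := by
    rw [Real.sq_sqrt hx.le]
    field_simp
    norm_num
  rw [h3]
  exact one_div_le_one_div_of_le (by positivity) h2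

private theorem TrC_key (D : Dat) {u θ ε : ℝ} (hε : 0 < ε) (hθ : 0 < θ) (h1 : θ ≤ u) (h2 : u ≤ 1 / 3) :
    |√(D.A (2 * u) (2 * u - u) + ε) - √(D.A (u + θ) (u + θ - u) + ε)| ≤ (D.M + 2) / √(u * θ) := by
  have hu : 0 < u := lt_of_lt_of_le hθ h1
  have hpi : (3 : ℝ) < π := Real.pi_gt_three
  have hsu : 0 < √u := Real.sqrt_pos.2 hu
  have hsθ : 0 < √θ := Real.sqrt_pos.2 hθ
  have hM := D.M_nonneg
  set μ : ℝ := 1 / (u * √θ) with hμ
  have hμ0 : 0 < μ := by positivity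
  set c2 : ℝ := (5 / 4) * μ⁻¹ / (u ^ 2 * √u) with hc2
  set c3 : ℝ := (12 / 5) / √u with hc3
  have hc20 : 0 < c2 := by positivity
  have hc30 : 0 < c3 := by positivity
  have hder : ∀ s ∈ Icc (u + θ) (2 * u), ∃ d z,
      HasDerivAt (fun s => √(D.A s (s - u) + ε)) d s ∧
      HasDerivAt (fun s => (μ / 2) * (√s * D.K u s - (5 / 2) * D.M / √s) - c2 * (s - u)⁻¹ -
        c3 * (√(s - u))⁻¹) z s ∧ |d| ≤ (1 / 2 * u) * z := by
    intro s hs
    have hs1 : u + θ ≤ s := hs.1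
    have hs2 : s ≤ 2 * u := hs.2
    have hs0 : 0 < s := by linarith
    have hx : 0 < s - u := by linarith
    have hsx : 0 < √(s - u) := Real.sqrt_pos.2 hx
    obtain ⟨d, hd, hdb⟩ := D.rho_deriv (u := u) (t := s) hε hs0 (by linarith) hx (by linarith)
    obtain ⟨l, hl, hlb⟩ := D.L_deriv (u := u) (t := s) hs0 (by linarith) hx.le (by linarith)
    have e1 : HasDerivAt (fun s : ℝ => s - u) 1 s := (hasDerivAt_id s).sub_const u
    have e2 := e1.inv hx.ne'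
    have e3 := (e1.sqrt hx.ne').inv hsx.ne'
    have e4 := ((hl.const_mul (μ / 2)).sub (e2.const_mul c2)).sub (e3.const_mul c3)
    refine ⟨d, _, hd, e4, ?_⟩
    have hR := R_lower hs0 (by linarith : s ≤ 3 / 4) hx (by linarith : s - u ≤ 3 / 4)
    have hS := sin_lower hx (by linarith : s - u ≤ 3 / 4)
    set R : ℝ := sin s * sin (s - u) with hRdef
    have hRl : (16 / 25) * (u * (s - u)) ≤ R := by
      have : u * (s - u) ≤ s * (s - u) := mul_le_mul_of_nonneg_right (by linarith) hx.le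
      linarith
    have hR0 : 0 < R := lt_of_lt_of_le (by positivity) hRl
    have hBt : 0 ≤ D.Bt s (s - u) := D.nBt s ⟨hs0, by linarith⟩ (s - u) ⟨hx.le, by linarith⟩
    have hy := young hBt hR0 hμ0 hs0
    have t2 := TrC_third hu hx hRl hS
    have t3 := TrC_invsq hu hx hRl
    have hss : √u ≤ √s := Real.sqrt_le_sqrt (by linarith)
    have t4 : 1 / √s ≤ 1 / √u := one_div_le_one_div_of_le hsu hss
    have t5 : (1 / 2) * (μ⁻¹ * (1 / √s) * (1 / R ^ 2)) ≤ c2 / (s - u) ^ 2 := by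
      have h5 : (1 / √s) * (1 / R ^ 2) ≤ (1 / √u) * ((5 / 2) / (u ^ 2 * (s - u) ^ 2)) :=
        mul_le_mul t4 t3 (by positivity) (by positivity)
      have h6 : (1 / 2) * (μ⁻¹ * ((1 / √s) * (1 / R ^ 2))) ≤
          (1 / 2) * (μ⁻¹ * ((1 / √u) * ((5 / 2) / (u ^ 2 * (s - u) ^ 2)))) := by
        have : (0:ℝ) ≤ μ⁻¹ := (inv_pos.2 hμ0).le
        gcongr
      have h7 : (1 / 2) * (μ⁻¹ * ((1 / √u) * ((5 / 2) / (u ^ 2 * (s - u) ^ 2)))) = c2 / (s - u) ^ 2 := by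
        rw [hc2]
        field_simp
        norm_num
      rw [← h7]
      calc _ = (1 / 2) * (μ⁻¹ * ((1 / √s) * (1 / R ^ 2))) := by ring
        _ ≤ _ := h6
    have hab : |u| = u := abs_of_pos hu
    rw [hab] at hdb
    have t6 : (1 / 2) * (μ * (2 * √s * D.Bt s (s - u))) ≤ (μ / 2) * l := by
      have := mul_le_mul_of_nonneg_left hlb hμ0.le
      linarith
    have t7 : √(2 * D.Bt s (s - u)) / R + 1 / (√(2 * R) * sin (s - u)) ≤
        (μ / 2) * l + c2 / (s - u) ^ 2 + c3 * ((1 / (2 * √(s - u))) / (√(s - u)) ^ 2) := by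
      have h8 : (1 / 2) * (μ * (2 * √s * D.Bt s (s - u)) + μ⁻¹ * (1 / √s) * (1 / R ^ 2)) =
        (1 / 2) * (μ * (2 * √s * D.Bt s (s - u))) + (1 / 2) * (μ⁻¹ * (1 / √s) * (1 / R ^ 2)) := by ring
      linarith
    have t8 : (1 / 2 * u) * (√(2 * D.Bt s (s - u)) / R + 1 / (√(2 * R) * sin (s - u))) ≤
        (1 / 2 * u) * ((μ / 2) * l + c2 / (s - u) ^ 2 + c3 * ((1 / (2 * √(s - u))) / (√(s - u)) ^ 2)) :=
      mul_le_mul_of_nonneg_left t7 (by positivity)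
    calc |d| ≤ _ := hdb
      _ ≤ _ := t8
      _ = _ := by ring
  have hmain := abs_sub_le_of_deriv (by linarith : u + θ ≤ 2 * u) (by positivity : (0:ℝ) ≤ 1 / 2 * u) hder
  refine hmain.trans ?_
  have e0 : u + θ - u = θ := by ring
  have e1 : 2 * u - u = u := by ring
  simp only [e0, e1]
  have hK1 := D.K_bounds (u := u) (t := 2 * u) (by linarith) (by linarith) (by linarith) (by linarith)
  have hK2 := D.K_bounds (u := u) (t := u + θ) (by linarith) (by linarith) (by linarith) (by linarith)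
  have hs2u : 0 < √(2 * u) := Real.sqrt_pos.2 (by linarith)
  have hsut : 0 < √(u + θ) := Real.sqrt_pos.2 (by linarith)
  -- upper bound at `2 u`
  have a1 : √(2 * u) * D.K u (2 * u) ≤ D.M / √u := by
    have h3 : (4 / 5) * (2 * u) ≤ sin (2 * u) := sin_lower (by linarith) (by linarith)
    have h4 : D.M / sin (2 * u) ≤ D.M / ((4 / 5) * (2 * u)) :=
      div_le_div_of_nonneg_left hM (by positivity) h3
    have h5 : √(2 * u) * D.K u (2 * u) ≤ √(2 * u) * (D.M / ((4 / 5) * (2 * u))) :=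
      mul_le_mul_of_nonneg_left (hK1.2.trans h4) hs2u.le
    have h6 : √(2 * u) ≤ (8 / 5) * √u := by
      rw [Real.sqrt_le_left (by positivity), mul_pow, Real.sq_sqrt hu.le]
      nlinarith
    have h7 : √(2 * u) * (D.M / ((4 / 5) * (2 * u))) ≤ (8 / 5) * √u * (D.M / ((4 / 5) * (2 * u))) :=
      mul_le_mul_of_nonneg_right h6 (by positivity)
    have h8 : (8 / 5) * √u * (D.M / ((4 / 5) * (2 * u))) = D.M / √u := by
      have h9 : √u * √u = u := Real.mul_self_sqrt hu.le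
      have h10 : D.M / √u = D.M * √u / u := by
        rw [div_eq_div_iff hsu.ne' hu.ne', mul_assoc, h9]
      rw [h10]
      field_simp
      ring
    linarith
  set P : ℝ := 1 / (√u * √θ) with hP
  have hP0 : 0 < P := by positivity
  have f1 : μ * (D.M / √u) = D.M * P / u := by
    rw [hμ, hP]
    field_simp
  have f2 : c2 * θ⁻¹ = (5 / 4) * P / u := by
    have h9 : √θ * √θ = θ := Real.mul_self_sqrt hθ.le
    have h10 : θ⁻¹ = (√θ)⁻¹ * (√θ)⁻¹ := by rw [← mul_inv, h9]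
    rw [hc2, hμ, hP, h10]
    field_simp
  have f3 : c3 * (√θ)⁻¹ = (12 / 5) * P := by
    rw [hc3, hP]
    field_simp
  have b1 : μ / 2 * (√(2 * u) * D.K u (2 * u) - 5 / 2 * D.M / √(2 * u)) ≤ (1 / 2) * (D.M * P / u) := by
    rw [← f1]
    have h3 : 0 ≤ 5 / 2 * D.M / √(2 * u) := by positivity
    have h4 : μ / 2 * (√(2 * u) * D.K u (2 * u) - 5 / 2 * D.M / √(2 * u)) ≤ μ / 2 * (D.M / √u) :=
      mul_le_mul_of_nonneg_left (by linarith) (by positivity)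
    linarith
  have b2 : - ((5 / 4) * (D.M * P / u)) ≤ μ / 2 * (√(u + θ) * D.K u (u + θ) - 5 / 2 * D.M / √(u + θ)) := by
    rw [← f1]
    have h3 : 0 ≤ √(u + θ) * D.K u (u + θ) := mul_nonneg hsut.le hK2.1
    have h4 : 5 / 2 * D.M / √(u + θ) ≤ 5 / 2 * D.M / √u :=
      div_le_div_of_nonneg_left (by positivity) hsu (Real.sqrt_le_sqrt (by linarith))
    have h5 : μ / 2 * (-(5 / 2 * D.M / √u)) ≤
        μ / 2 * (√(u + θ) * D.K u (u + θ) - 5 / 2 * D.M / √(u + θ)) :=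
      mul_le_mul_of_nonneg_left (by linarith) (by positivity)
    have h6 : μ / 2 * (-(5 / 2 * D.M / √u)) = - ((5 / 4) * (μ * (D.M / √u))) := by ring
    linarith
  have b3 : 0 ≤ c2 * u⁻¹ := by positivity
  have b4 : 0 ≤ c3 * (√u)⁻¹ := by positivity
  have b5 : μ / 2 * (√(2 * u) * D.K u (2 * u) - 5 / 2 * D.M / √(2 * u)) - c2 * u⁻¹ - c3 * (√u)⁻¹ -
      (μ / 2 * (√(u + θ) * D.K u (u + θ) - 5 / 2 * D.M / √(u + θ)) - c2 * θ⁻¹ - c3 * (√θ)⁻¹) ≤
      (7 / 4) * (D.M * P / u) + (5 / 4) * P / u + (12 / 5) * P := by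
    rw [f2, f3]
    linarith
  have b6 := mul_le_mul_of_nonneg_left b5 (by positivity : (0:ℝ) ≤ 1 / 2 * u)
  refine b6.trans ?_
  have h7 : (1 / 2 * u) * ((7 / 4) * (D.M * P / u) + (5 / 4) * P / u + (12 / 5) * P) =
      (7 / 8) * (D.M * P) + (5 / 8) * P + (6 / 5) * (u * P) := by
    field_simp
    ring
  have h8 : (D.M + 2) / √(u * θ) = (D.M + 2) * P := by
    rw [Real.sqrt_mul hu.le, hP]
    ring
  rw [h7, h8]
  have h9 : u * P ≤ (1 / 3) * P := mul_le_mul_of_nonneg_right h2 hP0.le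
  have h10 : 0 ≤ D.M * P := mul_nonneg hM hP0.le
  nlinarith

/-- TASK TrC. Transport estimate near the axis: `u = t - θ ≤ 1/3`, `2θ ≤ t` (that is `v ≤ 3u`, and
`θ ≤ u ≤ t ≤ 2u`); the end point of the null line is `(2u, u)` (`v = 3u`).

Proof. `ρ(s) = √(A(s, s-u) + ε)`, `μ = 1/(u √θ)` and
`Z(s) = (μ/2)(√s K_u(s) - (5/2) M/√s) - (5/4) μ⁻¹ /(u² √u (s-u)) - (12/5)/(√u √(s-u))` on
`s ∈ [t, 2u]` (`s ≤ 2/3 ≤ 3/4`, `s ≥ u`, `θ ≤ s - u ≤ u`). By `Dat.rho_deriv`, `young` and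
`R ≥ (16/25) s (s-u) ≥ (16/25) u (s-u)`, `1/R² ≤ (5/2)/(u² (s-u)²)`, `1/√s ≤ 1/√u`,
`√(2R) ≥ 1.13 √(u (s-u))`, `sin(s-u) ≥ (4/5)(s-u)`:
`|ρ'| ≤ (1/2) u ((μ/2) 2√s Bt + (μ⁻¹/2)(5/2)/(u²√u (s-u)²) + (6/5)/(√u (s-u)√(s-u))) ≤ (1/2) u Z'`.
`Z(2u) ≤ (μ/2) √(2u) K_u(2u) ≤ (μ/2) M √(2u)/((4/5) 2u) ≤ (1/2) μ M/√u` and
`-Z(t) ≤ (5/4) μ M/√t + (5/4) μ⁻¹/(u²√u θ) + (12/5)/(√u√θ)`,
so `Z(2u) - Z(t) ≤ ((7/4) M + 5/4)/(u√u√θ) + (12/5)/(√u√θ) ≤ (2M + 4)/(u √u √θ)` (`u ≤ 1/3`) and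
`(1/2) u` times this is `≤ (M + 2)/√(u θ)`. Let `ε → 0`. -/
theorem Dat.transport_b (D : Dat) {t θ : ℝ} (hθ : 0 < θ) (h1 : 2 * θ ≤ t) (h2 : t - θ ≤ 1 / 3) :
    |√(D.A t θ) - √(D.A (2 * (t - θ)) (t - θ))| ≤ (D.M + 2) / √((t - θ) * θ) := by
  obtain ⟨u, hu⟩ : ∃ u, u = t - θ := ⟨_, rfl⟩
  rw [← hu] at h2 ⊢
  have ht : t = u + θ := by rw [hu]; ring
  subst ht
  have hk : ∀ ε : ℝ, 0 < ε → |√(D.A (u + θ) θ + ε) - √(D.A (2 * u) u + ε)| ≤ (D.M + 2) / √(u * θ) := by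
    intro ε hε
    have h := TrC_key D hε hθ (by linarith) h2
    have e0 : u + θ - u = θ := by ring
    have e1 : 2 * u - u = u := by ring
    rw [e0, e1, abs_sub_comm] at h
    exact h
  have hc : Filter.Tendsto (fun ε : ℝ => |√(D.A (u + θ) θ + ε) - √(D.A (2 * u) u + ε)|)
      (nhdsWithin 0 (Ioi 0)) (nhds |√(D.A (u + θ) θ) - √(D.A (2 * u) u)|) := by
    have h : Continuous (fun ε : ℝ => |√(D.A (u + θ) θ + ε) - √(D.A (2 * u) u + ε)|) := by fun_prop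
    have h' := h.tendsto 0
    simp only [add_zero] at h'
    exact h'.mono_left nhdsWithin_le_nhds
  refine le_of_tendsto hc ?_
  filter_upwards [self_mem_nhdsWithin] with ε hε
  exact hk ε hε

end GS
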