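import Pool.Agent.Lib.MP_898b37_mp.GS.TrB
import Pool.Agent.Lib.MP_898b37_mp.Mg.G006

open Real Set

namespace GS

private theorem trE_cont {f : ℝ → ℝ → ℝ} (hf : C1 (Ioo 0 π) f) {t : ℝ} (ht : t ∈ Ioo 0 π) :
    ContinuousAt (fun s => f t s) t := by
  have h1 : ContinuousOn (Function.uncurry f) (Ioo 0 π ×ˢ Ioo 0 π) := hf.continuousOn
  have h2 : ContinuousAt (Function.uncurry f) (t, t) :=
    h1.continuousAt ((isOpen_Ioo.prod isOpen_Ioo).mem_nhds ⟨ht, ht⟩)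
  have h3 : ContinuousAt (fun s : ℝ => (t, s)) t :=
    (continuous_const.prodMk continuous_id).continuousAt
  exact ContinuousAt.comp (f := fun s : ℝ => (t, s)) (x := t) h2 h3

/-- TASK TrE. Bound of `b = (q - p)/2` for `0 ≤ u ≤ v/2`, `v ≤ 1`.

Proof. Let `u = t - θ`, `v = t + θ`, `R = sin t sin θ`, `N = 20 M + 80 ≥ 80` (`Dat.M_nonneg`), `L` from
`Dat.exists_L`. First let `u > 0`. `D.cu` gives
`(q - p)/2 = (A - cos u + (3/4) sin²u/R)/(2 sin u) = (A - cos u)/(2 sin u) + (3/8) sin u/R`.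
By `Dat.transport_a`, `√A ≤ √A₁ + N u/v²` with `A₁ = A((1+u)/2, (1-u)/2) ≤ 1 + L u`, `√A₁ ≤ 1 + L`, so
`A ≤ 1 + L u + 2 (1 + L) N u/v² + N² u²/v⁴` (`|u| = u ≤ 1/2`), `cos u ≥ 1 - u²/2`,
`sin u ≥ (4/5) u` (`sin_lower`), hence
`(A - cos u)/(2 sin u) ≤ (5/8)(L + 2(1+L)N/v² + N² u/v⁴ + u/2)`; and `sin u ≤ u`,
`R ≥ (16/25) t θ ≥ (16/25)(3/16) v² = (3/25) v²` (`4 t θ = v² - u² ≥ (3/4) v²`), so
`(3/8) sin u/R ≤ (25/8) u/v² ≤ 4/v²`. Everything is `≤ C (1/v² + u/v⁴)` with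
`C = (L + N + 1)² * 10`, say (any explicit or existential `C ≥ 1` works).
For `u = 0` (`t = θ`): `p`, `q` are continuous at `(t, t)` (`D.cp`, `D.cq`), apply the bound at
`(t + ε, t - ε)` (for `2t < 1`; if `2 t = 1` at `(t, t - ε)`, where `v = 1 - ε`), `ε → 0+`. (A uniform choice:
the points `(t, t - ε)`.) -/
theorem Dat.b1 (D : Dat) : ∃ C : ℝ, 1 ≤ C ∧ ∀ t θ, 0 < θ → θ ≤ t → t ≤ 3 * θ → t + θ ≤ 1 →
    (D.q t θ - D.p t θ) / 2 ≤ C * (1 / (t + θ) ^ 2 + (t - θ) / (t + θ) ^ 4) := by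
  obtain ⟨L, hL0, hL⟩ := D.exists_L
  have hM := D.M_nonneg
  obtain ⟨N, hN⟩ : ∃ N, N = 20 * D.M + 80 := ⟨_, rfl⟩
  have hN0 : 0 ≤ N := by rw [hN]; linarith
  obtain ⟨C, hC⟩ : ∃ C, C = (5 / 8) * L + (5 / 4) * ((1 + L) * N) + 4 + N ^ 2 := ⟨_, rfl⟩
  have hLN : 0 ≤ (1 + L) * N := mul_nonneg (by linarith) hN0
  have hC1 : 1 ≤ C := by rw [hC]; nlinarith [sq_nonneg N]
  have main : ∀ t θ, 0 < θ → θ < t → t ≤ 3 * θ → t + θ ≤ 1 →
      (D.q t θ - D.p t θ) / 2 ≤ C * (1 / (t + θ) ^ 2 + (t - θ) / (t + θ) ^ 4) := by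
    intro t θ hθ hlt h3 h1
    have hpi := Real.pi_gt_three
    obtain ⟨u, hu⟩ : ∃ u, u = t - θ := ⟨_, rfl⟩
    obtain ⟨v, hv⟩ : ∃ v, v = t + θ := ⟨_, rfl⟩
    have hu0 : 0 < u := by rw [hu]; linarith
    have hv0 : 0 < v := by rw [hv]; linarith
    have hv1 : v ≤ 1 := by rw [hv]; exact h1
    have huv : u ≤ v / 2 := by rw [hu, hv]; linarith
    have hu2 : u ≤ 1 / 2 := by linarith
    have ht : t ∈ Ioo 0 π := ⟨by linarith, by linarith⟩
    have hθ' : θ ∈ Ioo 0 π := ⟨hθ, by linarith⟩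
    have hcu := D.cu t ht θ hθ'
    have htr := D.transport_a (t := t) (θ := θ) ht.1 hθ h3 (by linarith) h1
    have hA1 := hL u (by rw [abs_of_pos hu0]; exact hu2)
    rw [← hu, ← hv, ← hN, abs_of_pos hu0] at htr
    rw [abs_of_pos hu0] at hA1
    have hA0 := D.nA t ht θ hθ'
    have hA10 : 0 ≤ D.A ((1 + u) / 2) ((1 - u) / 2) :=
      D.nA _ ⟨by linarith, by linarith⟩ _ ⟨by linarith, by linarith⟩
    rw [← hu] at hcu
    generalize D.A ((1 + u) / 2) ((1 - u) / 2) = A1 at htr hA1 hA10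
    generalize D.A t θ = A at hcu htr hA0
    generalize D.p t θ = p at hcu ⊢
    generalize D.q t θ = q at hcu ⊢
    have hR := R_lower ht.1 (by linarith) hθ (by linarith : θ ≤ 3 / 4)
    have htθ : (3 / 16) * v ^ 2 ≤ t * θ := by
      have e1 : 4 * (t * θ) = v ^ 2 - u ^ 2 := by rw [hu, hv]; ring
      have e2 : u ^ 2 ≤ (v / 2) ^ 2 := pow_le_pow_left₀ hu0.le huv 2
      nlinarith
    have hRv : (3 / 25) * v ^ 2 ≤ sin t * sin θ := by nlinarith
    have hR0 : 0 < sin t * sin θ := lt_of_lt_of_le (by positivity) hRv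
    generalize sin t * sin θ = R at hcu hRv hR0
    have hsl := sin_lower hu0 (by linarith : u ≤ 3 / 4)
    have hsu : sin u ≤ u := (Real.sin_lt hu0).le
    have hs0 : 0 < sin u := lt_of_lt_of_le (by positivity) hsl
    have hcos : 1 - u ^ 2 / 2 ≤ cos u := Real.one_sub_sq_div_two_le_cos
    generalize sin u = s at hcu hsl hsu hs0
    generalize cos u = c at hcu hcos
    -- bound of A
    have hδ0 : 0 ≤ N * u / v ^ 2 := by positivity
    have hsA : √A ≤ √A1 + N * u / v ^ 2 := by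
      have := (abs_le.mp htr).2
      linarith
    have hA1u : A1 ≤ 1 + L * u := by
      have := (abs_le.mp hA1).2
      linarith
    have hsA1 : √A1 ≤ 1 + L := by
      rw [Real.sqrt_le_left (by linarith)]
      nlinarith [mul_nonneg hL0 hu0.le]
    have hs1 : 0 ≤ √A1 := Real.sqrt_nonneg _
    have hAle : A ≤ 1 + L * u + 2 * (1 + L) * (N * u / v ^ 2) + (N * u / v ^ 2) ^ 2 := by
      have e1 : A = √A ^ 2 := (Real.sq_sqrt hA0).symm
      have e2 : √A ^ 2 ≤ (√A1 + N * u / v ^ 2) ^ 2 := pow_le_pow_left₀ (Real.sqrt_nonneg _) hsA 2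
      have e3 : √A1 ^ 2 = A1 := Real.sq_sqrt hA10
      have e4 : √A1 * (N * u / v ^ 2) ≤ (1 + L) * (N * u / v ^ 2) :=
        mul_le_mul_of_nonneg_right hsA1 hδ0
      nlinarith
    have hX : A - c ≤ L * u + 2 * (1 + L) * (N * u / v ^ 2) + (N * u / v ^ 2) ^ 2 + u ^ 2 / 2 := by
      linarith
    have hX0 : 0 ≤ L * u + 2 * (1 + L) * (N * u / v ^ 2) + (N * u / v ^ 2) ^ 2 + u ^ 2 / 2 := by
      positivity
    have hq : (q - p) / 2 = (A - c) / (2 * s) + (3 / 8) * (s / R) := by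
      have hs' : s ≠ 0 := hs0.ne'
      have hR' : R ≠ 0 := hR0.ne'
      have e1 : s * (q - p) = A - c + (3 / 4) * s ^ 2 / R := by linarith
      have e2 : q - p = (A - c + (3 / 4) * s ^ 2 / R) / s := by
        rw [eq_div_iff hs']; linarith
      rw [e2]
      field_simp
      ring
    have hb1 : (A - c) / (2 * s) ≤ (5 / 8) * (L + 2 * (1 + L) * (N / v ^ 2) + N ^ 2 * u / v ^ 4 +
        u / 2) := by
      have e1 : (A - c) / (2 * s) ≤ (L * u + 2 * (1 + L) * (N * u / v ^ 2) + (N * u / v ^ 2) ^ 2 +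
          u ^ 2 / 2) / (2 * s) := div_le_div_of_nonneg_right hX (by linarith)
      have e2 : (L * u + 2 * (1 + L) * (N * u / v ^ 2) + (N * u / v ^ 2) ^ 2 + u ^ 2 / 2) / (2 * s) ≤
          (L * u + 2 * (1 + L) * (N * u / v ^ 2) + (N * u / v ^ 2) ^ 2 + u ^ 2 / 2) /
            (2 * ((4 / 5) * u)) :=
        div_le_div_of_nonneg_left hX0 (by positivity) (by linarith)
      refine e1.trans (e2.trans (le_of_eq ?_))
      have hu' : u ≠ 0 := hu0.ne'
      have hv' : v ≠ 0 := hv0.ne'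
      field_simp
      ring
    have hb2 : (3 / 8) * (s / R) ≤ (25 / 8) * (u / v ^ 2) := by
      have e1 : s / R ≤ u / ((3 / 25) * v ^ 2) :=
        div_le_div₀ hu0.le hsu (by positivity) hRv
      have e2 : u / ((3 / 25) * v ^ 2) = (25 / 3) * (u / v ^ 2) := by
        have hv' : v ≠ 0 := hv0.ne'
        field_simp
      rw [e2] at e1
      linarith
    rw [hq]
    change _ ≤ C * (1 / (t + θ) ^ 2 + (t - θ) / (t + θ) ^ 4)
    rw [← hu, ← hv]
    have hw : 1 ≤ 1 / v ^ 2 := by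
      rw [le_div_iff₀ (by positivity), one_mul]
      exact pow_le_one₀ hv0.le hv1
    have hw4 : 0 ≤ u / v ^ 4 := by positivity
    have e3 : u / v ^ 2 ≤ (1 / 2) * (1 / v ^ 2) := by
      rw [div_eq_mul_one_div]
      exact mul_le_mul_of_nonneg_right hu2 (by positivity)
    have e4 : N / v ^ 2 = N * (1 / v ^ 2) := by ring
    have e5 : N ^ 2 * u / v ^ 4 = N ^ 2 * (u / v ^ 4) := by ring
    rw [e4, e5] at hb1
    generalize 1 / v ^ 2 = w at *
    generalize u / v ^ 4 = w4 at *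
    have e6 : L ≤ L * w := le_mul_of_one_le_right hL0 hw
    have e7 : 0 ≤ N ^ 2 * w4 := by positivity
    have e8 : 0 ≤ N ^ 2 * w := mul_nonneg (sq_nonneg N) (by linarith)
    have e9 : 0 ≤ L * w4 := mul_nonneg hL0 hw4
    have e10 : 0 ≤ (1 + L) * N * w4 := mul_nonneg hLN hw4
    have e11 : C * (w + w4) = (5 / 8) * (L * w) + (5 / 4) * ((1 + L) * N * w) + 4 * w + N ^ 2 * w +
        (5 / 8) * (L * w4) + (5 / 4) * ((1 + L) * N * w4) + 4 * w4 + N ^ 2 * w4 := by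
      rw [hC]; ring
    rw [e11]
    have e12 : 2 * (1 + L) * (N * w) = 2 * ((1 + L) * N * w) := by ring
    rw [e12] at hb1
    linarith
  refine ⟨C, hC1, fun t θ hθ h2 h3 h1 => ?_⟩
  rcases h2.lt_or_eq with hlt | heq
  · exact main t θ hθ hlt h3 h1
  · subst heq
    have hpi := Real.pi_gt_three
    have ht : θ ∈ Ioo 0 π := ⟨hθ, by linarith⟩
    have hte : Filter.Tendsto (fun ε : ℝ => θ - ε) (nhdsWithin 0 (Ioi 0)) (nhds θ) := by
      have h : Filter.Tendsto (fun ε : ℝ => θ - ε) (nhds 0) (nhds (θ - 0)) :=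
        (continuous_const.sub continuous_id).tendsto 0
      rw [sub_zero] at h
      exact h.mono_left nhdsWithin_le_nhds
    have hf : Filter.Tendsto (fun ε : ℝ => (D.q θ (θ - ε) - D.p θ (θ - ε)) / 2)
        (nhdsWithin 0 (Ioi 0)) (nhds ((D.q θ θ - D.p θ θ) / 2)) :=
      (((trE_cont D.cq ht).tendsto.comp hte).sub ((trE_cont D.cp ht).tendsto.comp hte)).div_const 2
    have hg : Filter.Tendsto (fun ε : ℝ => C * (1 / (θ + (θ - ε)) ^ 2 +
        (θ - (θ - ε)) / (θ + (θ - ε)) ^ 4)) (nhdsWithin 0 (Ioi 0))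
        (nhds (C * (1 / (θ + θ) ^ 2 + (θ - θ) / (θ + θ) ^ 4))) := by
      have h4 : (θ + θ) ^ 2 ≠ 0 := by positivity
      have h5 : (θ + θ) ^ 4 ≠ 0 := by positivity
      exact (((tendsto_const_nhds.div ((tendsto_const_nhds.add hte).pow 2) h4).add
        ((tendsto_const_nhds.sub hte).div ((tendsto_const_nhds.add hte).pow 4) h5))).const_mul C
    refine le_of_tendsto_of_tendsto hf hg ?_
    have hev : ∀ᶠ ε in nhdsWithin (0 : ℝ) (Ioi 0), ε ∈ Ioo (0 : ℝ) (2 * θ / 3) :=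
      Ioo_mem_nhdsGT (by positivity)
    filter_upwards [hev] with ε hε
    obtain ⟨he0, he1⟩ := hε
    exact main θ (θ - ε) (by linarith) (by linarith) (by linarith) (by linarith)

end GS
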