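import Pool.Agent.Lib.MP_898b37_mp.GS.TrB
import Pool.Agent.Lib.MP_898b37_mp.Mg.G006

open Real Set

namespace GS

private theorem trF_cont {f : ℝ → ℝ → ℝ} (hf : C1 (Ioo 0 π) f) {t : ℝ} (ht : t ∈ Ioo 0 π) :
    ContinuousAt (fun s => f s t) t := by
  have h1 : ContinuousOn (Function.uncurry f) (Ioo 0 π ×ˢ Ioo 0 π) := hf.continuousOn
  have h2 : ContinuousAt (Function.uncurry f) (t, t) :=
    h1.continuousAt ((isOpen_Ioo.prod isOpen_Ioo).mem_nhds ⟨ht, ht⟩)
  have h3 : ContinuousAt (fun s : ℝ => (s, t)) t :=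
    (continuous_id.prodMk continuous_const).continuousAt
  exact ContinuousAt.comp (f := fun s : ℝ => (s, t)) (x := t) h2 h3

/-- TASK TrF. Bound of `b = (q - p)/2` for `-v/2 ≤ u ≤ 0`, `v ≤ 1`.

Proof. Let `r = θ - t ≥ 0`, `v = t + θ`, `R = sin t sin θ`, `N = 20 M + 80`, `L` from `Dat.exists_L`.
First `r > 0`: `D.cu` with `u = -r` gives
`(q - p)/2 = (cos r - A - (3/4) sin²r/R)/(2 sin r) ≤ (1 - A)/(2 sin r)`, `sin r ≥ (4/5) r`
(`r ≤ v/2 ≤ 1/2`). By `Dat.transport_a`, `√A ≥ √A₁ - N r/v²`, `A₁ = A((1-r)/2, (1+r)/2)`,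
`A₁ ≥ 1 - L r`, `√A₁ ≤ 1 + L`. In all cases `A ≥ A₁ - 2 √A₁ N r/v²` (if `√A₁ ≥ N r/v²` square the
inequality, otherwise the right side is negative and `A ≥ 0`). So
`1 - A ≤ L r + 2 (1 + L) N r/v²` and `(q - p)/2 ≤ (5/8)(L + 2 (1 + L) N/v²) ≤ C/v²`.
For `r = 0` use the continuity of `p`, `q` at `(t, t)` and the points `(t - ε, t)`, `ε → 0+`. -/
theorem Dat.b1' (D : Dat) : ∃ C : ℝ, 1 ≤ C ∧ ∀ t θ, 0 < t → t ≤ θ → θ ≤ 3 * t → t + θ ≤ 1 →
    (D.q t θ - D.p t θ) / 2 ≤ C / (t + θ) ^ 2 := by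
  obtain ⟨L, hL0, hL⟩ := D.exists_L
  have hM := D.M_nonneg
  obtain ⟨N, hN⟩ : ∃ N, N = 20 * D.M + 80 := ⟨_, rfl⟩
  have hN0 : 0 ≤ N := by rw [hN]; linarith
  obtain ⟨C, hC⟩ : ∃ C, C = (5 / 8) * L + (5 / 4) * ((1 + L) * N) + 1 := ⟨_, rfl⟩
  have hLN : 0 ≤ (1 + L) * N := mul_nonneg (by linarith) hN0
  have hC1 : 1 ≤ C := by rw [hC]; linarith
  have main : ∀ t θ, 0 < t → t < θ → θ ≤ 3 * t → t + θ ≤ 1 →
      (D.q t θ - D.p t θ) / 2 ≤ C / (t + θ) ^ 2 := by
    intro t θ ht0 hlt h3 h1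
    have hpi := Real.pi_gt_three
    obtain ⟨u, hu⟩ : ∃ u, u = t - θ := ⟨_, rfl⟩
    obtain ⟨r, hr⟩ : ∃ r, r = θ - t := ⟨_, rfl⟩
    obtain ⟨v, hv⟩ : ∃ v, v = t + θ := ⟨_, rfl⟩
    have hur : u = -r := by rw [hu, hr]; ring
    have hr0 : 0 < r := by rw [hr]; linarith
    have hv0 : 0 < v := by rw [hv]; linarith
    have hv1 : v ≤ 1 := by rw [hv]; exact h1
    have hrv : r ≤ v / 2 := by rw [hr, hv]; linarith
    have hr2 : r ≤ 1 / 2 := by linarith
    have ht : t ∈ Ioo 0 π := ⟨ht0, by linarith⟩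
    have hθ' : θ ∈ Ioo 0 π := ⟨by linarith, by linarith⟩
    have hcu := D.cu t ht θ hθ'
    have htr := D.transport_a (t := t) (θ := θ) ht0 hθ'.1 (by linarith) h3 h1
    have habs : |u| = r := by rw [hur, abs_neg, abs_of_pos hr0]
    have hA1 := hL u (by rw [habs]; exact hr2)
    rw [← hu, ← hv, ← hN, habs] at htr
    rw [habs] at hA1
    have hA0 := D.nA t ht θ hθ'
    have hA10 : 0 ≤ D.A ((1 + u) / 2) ((1 - u) / 2) :=
      D.nA _ ⟨by linarith, by linarith⟩ _ ⟨by linarith, by linarith⟩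
    rw [← hu, hur, sin_neg, cos_neg] at hcu
    generalize D.A ((1 + u) / 2) ((1 - u) / 2) = A1 at htr hA1 hA10
    generalize D.A t θ = A at hcu htr hA0
    generalize D.p t θ = p at hcu ⊢
    generalize D.q t θ = q at hcu ⊢
    have hR0 : 0 < sin t * sin θ := mul_pos (sin_pos_of_pos_of_lt_pi ht.1 ht.2)
      (sin_pos_of_pos_of_lt_pi hθ'.1 hθ'.2)
    generalize sin t * sin θ = R at hcu hR0
    have hsl := sin_lower hr0 (by linarith : r ≤ 3 / 4)
    have hs0 : 0 < sin r := lt_of_lt_of_le (by positivity) hsl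
    have hcos : cos r ≤ 1 := cos_le_one r
    generalize sin r = s at hcu hsl hs0
    generalize cos r = c at hcu hcos
    have hδ0 : 0 ≤ N * r / v ^ 2 := by positivity
    have hsA : √A1 - N * r / v ^ 2 ≤ √A := by
      have := (abs_le.mp htr).1
      linarith
    have hA1u : A1 ≤ 1 + L * r := by
      have := (abs_le.mp hA1).2
      linarith
    have hA1l : 1 - L * r ≤ A1 := by
      have := (abs_le.mp hA1).1
      linarith
    have hsA1 : √A1 ≤ 1 + L := by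
      rw [Real.sqrt_le_left (by linarith)]
      nlinarith [mul_nonneg hL0 hr0.le]
    have hs1 : 0 ≤ √A1 := Real.sqrt_nonneg _
    have hsa : 0 ≤ √A := Real.sqrt_nonneg _
    have e1 : A = √A ^ 2 := (Real.sq_sqrt hA0).symm
    have e3 : √A1 ^ 2 = A1 := Real.sq_sqrt hA10
    have hAge : A1 - 2 * √A1 * (N * r / v ^ 2) ≤ A := by
      generalize N * r / v ^ 2 = δ at *
      rcases le_total δ (√A1) with h | h
      · have e2 : (√A1 - δ) ^ 2 ≤ √A ^ 2 := pow_le_pow_left₀ (by linarith) hsA 2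
        nlinarith [sq_nonneg δ]
      · have e2 : √A1 * √A1 ≤ √A1 * δ := mul_le_mul_of_nonneg_left h hs1
        nlinarith
    have e4 : √A1 * (N * r / v ^ 2) ≤ (1 + L) * (N * r / v ^ 2) :=
      mul_le_mul_of_nonneg_right hsA1 hδ0
    have hX : 1 - A ≤ L * r + 2 * (1 + L) * (N * r / v ^ 2) := by nlinarith
    have hX0 : 0 ≤ L * r + 2 * (1 + L) * (N * r / v ^ 2) := by positivity
    have hq : (q - p) / 2 ≤ (L * r + 2 * (1 + L) * (N * r / v ^ 2)) / (2 * s) := by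
      rw [le_div_iff₀ (by linarith)]
      have e5 : s * (q - p) = c - A - (3 / 4) * s ^ 2 / R := by
        have : (-s) ^ 2 = s ^ 2 := by ring
        rw [this] at hcu
        linarith
      have e6 : 0 ≤ (3 / 4) * s ^ 2 / R := by positivity
      have e7 : (q - p) / 2 * (2 * s) = s * (q - p) := by ring
      rw [e7, e5]
      linarith
    have hb1 : (L * r + 2 * (1 + L) * (N * r / v ^ 2)) / (2 * s) ≤
        (5 / 8) * (L + 2 * (1 + L) * (N / v ^ 2)) := by
      have e2 : (L * r + 2 * (1 + L) * (N * r / v ^ 2)) / (2 * s) ≤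
          (L * r + 2 * (1 + L) * (N * r / v ^ 2)) / (2 * ((4 / 5) * r)) :=
        div_le_div_of_nonneg_left hX0 (by positivity) (by linarith)
      refine e2.trans (le_of_eq ?_)
      have hr' : r ≠ 0 := hr0.ne'
      have hv' : v ≠ 0 := hv0.ne'
      field_simp
      ring
    refine (hq.trans hb1).trans ?_
    rw [← hv]
    have hw : 1 ≤ 1 / v ^ 2 := by
      rw [le_div_iff₀ (by positivity), one_mul]
      exact pow_le_one₀ hv0.le hv1
    have e5 : N / v ^ 2 = N * (1 / v ^ 2) := by ring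
    have e6 : C / v ^ 2 = C * (1 / v ^ 2) := by ring
    rw [e5, e6]
    generalize 1 / v ^ 2 = w at *
    have e7 : L ≤ L * w := le_mul_of_one_le_right hL0 hw
    have e8 : C * w = (5 / 8) * (L * w) + (5 / 4) * ((1 + L) * N * w) + w := by rw [hC]; ring
    rw [e8]
    have e9 : 2 * (1 + L) * (N * w) = 2 * ((1 + L) * N * w) := by ring
    rw [e9]
    linarith
  refine ⟨C, hC1, fun t θ ht0 h2 h3 h1 => ?_⟩
  rcases h2.lt_or_eq with hlt | heq
  · exact main t θ ht0 hlt h3 h1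
  · subst heq
    have hpi := Real.pi_gt_three
    have ht : t ∈ Ioo 0 π := ⟨ht0, by linarith⟩
    have hte : Filter.Tendsto (fun ε : ℝ => t - ε) (nhdsWithin 0 (Ioi 0)) (nhds t) := by
      have h : Filter.Tendsto (fun ε : ℝ => t - ε) (nhds 0) (nhds (t - 0)) :=
        (continuous_const.sub continuous_id).tendsto 0
      rw [sub_zero] at h
      exact h.mono_left nhdsWithin_le_nhds
    have hf : Filter.Tendsto (fun ε : ℝ => (D.q (t - ε) t - D.p (t - ε) t) / 2)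
        (nhdsWithin 0 (Ioi 0)) (nhds ((D.q t t - D.p t t) / 2)) :=
      (((trF_cont D.cq ht).tendsto.comp hte).sub ((trF_cont D.cp ht).tendsto.comp hte)).div_const 2
    have hg : Filter.Tendsto (fun ε : ℝ => C / ((t - ε) + t) ^ 2) (nhdsWithin 0 (Ioi 0))
        (nhds (C / (t + t) ^ 2)) := by
      have h4 : (t + t) ^ 2 ≠ 0 := by positivity
      exact tendsto_const_nhds.div ((hte.add tendsto_const_nhds).pow 2) h4
    refine le_of_tendsto_of_tendsto hf hg ?_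
    have hev : ∀ᶠ ε in nhdsWithin (0 : ℝ) (Ioi 0), ε ∈ Ioo (0 : ℝ) (2 * t / 3) :=
      Ioo_mem_nhdsGT (by positivity)
    filter_upwards [hev] with ε hε
    obtain ⟨he0, he1⟩ := hε
    exact main (t - ε) t (by linarith) (by linarith) (by linarith) (by linarith)

end GS
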